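import Pool.Agent.W213.LyG.Frame

/-! Assembly: a weak representation of L(m,0) gives a net contradicting `NoCodeG`. -/

set_option autoImplicit false

namespace Pool.Agent.W213.LyG

open Pool.Agent.W213.Ly.Gen

variable {m : ℕ} {D : Type} {R : Set (At m) → D → D → Prop}

theorem s1_ne (hG : GR m D R) {c : Fin (m + 1)} {x y : D} (h : R (S1 c) x y) : x ≠ y := by
  rintro rfl
  have h1 := hG.w.inter _ _ _ _ h (hG.idl x)
  refine hG.w.zero x x (hG.sub ?_ h1)
  rintro w ⟨hw1, hw2⟩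
  have h3 : w = some c := hw1
  have h4 : w = none := hw2
  rw [h3] at h4
  simp at h4

/-- existence of a frame with a nonzero element of base `α` -/
theorem frame_ex (hG : GR m D R) {α : Fin (m + 1)} (hα : α ≠ 0) {z0 q : D} (h0 : R (S1 α) q z0) :
    ∃ z : Fin (m + 1) → D, Frame R q z ∧ El R q z α q ∧ q ≠ z α := by
  have hz : ∀ l : Fin (m + 1), ∃ y, l ≠ 0 → R (M1 0) z0 y ∧ R (M1 l) y q := by
    intro l
    by_cases hl : l ≠ 0
    · obtain ⟨y, h1, h2⟩ := meet_ex hG hl.symm z0 q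
      exact ⟨y, fun _ => ⟨h1, h2⟩⟩
    · exact ⟨z0, fun h1 => absurd h1 hl⟩
  choose z hz using hz
  have hzz : ∀ k l, k ≠ 0 → l ≠ 0 → R (M1 0) (z k) (z l) := fun k l hk0 hl0 =>
    line_trans hG (hG.symm (hz k hk0).1) (hz l hl0).1
  have hq : ∀ l, l ≠ 0 → R (S1 l) q (z l) := by
    intro l hl0
    have h1 := hG.symm (hz l hl0).2
    have h2 := hG.cmp h0 (hz l hl0).1
    refine hG.sub ?_ (hG.w.inter _ _ _ _ h1 h2)
    rintro w ⟨hw1, a, rfl, b, hb, hw⟩
    rcases hw1 with rfl | hw1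
    · exfalso
      rcases hb with rfl | rfl
      · have : (none : At m) = some α := hw
        simp at this
      · simp only [AC, if_neg hα] at hw
        exact hw.1 rfl
    · exact hw1
  refine ⟨z, ⟨hq, hzz⟩, ⟨line_refl hG α q, ?_⟩, s1_ne hG (hq α hα)⟩
  intro j hj0 _
  exact s1_s2 hG (hq j hj0)

theorem no_rep (hG : GR m D R)
    (hNC : ∀ f : Fin m × Fin m → Fin m → Fin m,
      (∀ P Q : Fin m × Fin m, P ≠ Q → ∀ k l : Fin m, f P k = f Q k → f P l = f Q l → k = l) → False)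
    {α β : Fin (m + 1)} (n1 : α ≠ 0) (n2 : β ≠ 0) (n21 : β ≠ α)
    {z0 q : D} (h0 : R (S1 α) q z0) : False := by
  obtain ⟨z, hF, hEq, hne⟩ := frame_ex hG n1 h0
  -- the points A c l
  have hA : ∀ c l : Fin (m + 1), ∃ a : D, c ≠ l → R (M1 c) (z α) a ∧ R (M1 l) a (z β) := by
    intro c l
    by_cases h : c ≠ l
    · obtain ⟨a, h1, h2⟩ := meet_ex hG h (z α) (z β)
      exact ⟨a, fun _ => ⟨h1, h2⟩⟩
    · exact ⟨z α, fun h1 => absurd h1 h⟩
  choose A hA using hA
  have hX : ∀ c l k : Fin (m + 1), ∃ x : D, k ≠ 0 → R (M1 0) (z α) x ∧ R (M1 k) x (A c l) := by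
    intro c l k
    by_cases h : k ≠ 0
    · obtain ⟨a, h1, h2⟩ := meet_ex hG h.symm (z α) (A c l)
      exact ⟨a, fun _ => ⟨h1, h2⟩⟩
    · exact ⟨z α, fun h1 => absurd h1 h⟩
  choose X hX using hX
  have hXK : ∀ c l k, k ≠ 0 → OnK R z (X c l k) := fun c l k hk0 =>
    onK_of hG hF n1 (hG.symm (hX c l k hk0).1)
  -- decide all
  obtain ⟨i1, G1, hi0, hE1, hne1, -, hdec1⟩ := dec_list hG hF n1
    ((List.finRange (m + 1)).flatMap fun c => (List.finRange (m + 1)).flatMap fun l =>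
      ((List.finRange (m + 1)).filter fun k => k ≠ 0).map fun k => X c l k) (by
      intro Y hY
      simp only [List.mem_flatMap, List.mem_finRange, List.mem_map, List.mem_filter,
        decide_eq_true_eq, true_and] at hY
      obtain ⟨c, l, k, hk0, rfl⟩ := hY
      exact hXK c l k hk0) α q n1 hEq hne
  have hdec1' : ∀ c l k, k ≠ 0 → Dec R (X c l k) G1 := by
    intro c l k hk0
    apply hdec1
    simp only [List.mem_flatMap, List.mem_finRange, List.mem_map, List.mem_filter,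
      decide_eq_true_eq, true_and]
    exact ⟨c, l, k, hk0, rfl⟩
  obtain ⟨G, hE, hneG, hdec⟩ : ∃ G, El R q z α G ∧ G ≠ z α ∧
      ∀ c l k, k ≠ 0 → Dec R (X c l k) G := by
    by_cases h : α = i1
    · subst h; exact ⟨G1, hE1, hne1, hdec1'⟩
    · obtain ⟨G, h1, h2, h3⟩ := base_change hG hF hi0 n1 h hE1 hne1
      exact ⟨G, h1, h2, fun c l k hk0 => (hdec1' c l k hk0).mono (hXK c l k hk0) h3⟩
  obtain ⟨u, huK, huG, huq⟩ := sup_ex hG hF n1 n2 n21 hE
  have hGz := el_zi hG hF n1 hE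
  have huz : u ≠ z α := by
    intro h
    apply hneG
    exact meet_eq hG n21.symm hGz (by rw [← h]; exact hG.symm huG)
  -- the points zg n
  have hzg : ∀ n : Fin (m + 1), ∃ y : D, n ≠ 0 → R (M1 0) (z α) y ∧ R (M1 n) y G := by
    intro n
    by_cases h : n ≠ 0
    · obtain ⟨a, h1, h2⟩ := meet_ex hG h.symm (z α) G
      exact ⟨a, fun _ => ⟨h1, h2⟩⟩
    · exact ⟨z α, fun h1 => absurd h1 h⟩
  choose zg hzg using hzg
  have hA' : ∀ c l : Fin (m + 1), ∃ a : D, c ≠ l → R (M1 c) (z α) a ∧ R (M1 l) a u := by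
    intro c l
    by_cases h : c ≠ l
    · obtain ⟨a, h1, h2⟩ := meet_ex hG h (z α) u
      exact ⟨a, fun _ => ⟨h1, h2⟩⟩
    · exact ⟨z α, fun h1 => absurd h1 h⟩
  choose A' hA' using hA'
  have hz1 : zg α = z α := by
    have h1 := hzg α n1
    exact meet_eq hG n1.symm (hG.symm h1.1) (line_trans hG h1.2 hGz)
  have hz2 : zg β = u := by
    have h1 := hzg β n2
    exact meet_eq hG n2.symm (line_trans hG (hG.symm h1.1) (hG.symm (huK α n1)))
      (line_trans hG h1.2 (hG.symm huG))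
  -- key: lines
  have key : ∀ c l k, c ≠ 0 → l ≠ 0 → k ≠ 0 → c ≠ l →
      ∃ n, n ≠ 0 ∧ R (M1 k) (A' c l) (zg n) := by
    intro c l k hc0 hl0 hk0 hcl
    by_cases hkc : k = c
    · subst hkc
      exact ⟨α, n1, by rw [hz1]; exact hG.symm (hA' k l hcl).1⟩
    · by_cases hkl : k = l
      · subst hkl
        exact ⟨β, n2, by rw [hz2]; exact (hA' c k hcl).2⟩
      · obtain ⟨n, hn0, hd⟩ := hdec c l k hk0
        obtain ⟨W, hW1, hW2⟩ := meet_ex hG hk0.symm (z α) (A' c l)
        have h1 : R (M2 0 n) (X c l k) G := comb_m2 hG fun m hm0 hmn => hd m hm0 hmn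
        have h2 := lemF hG (rules4 hG) n1 n2 n21 hc0 hl0 hk0 hn0 hcl.symm hkc hkl
          (hF.hq α n1) (hF.hz β α n2 n1) (s1_m1 hG (hG.symm (hF.hq β n2))) (huK α n1)
          huq hGz (hG.symm huG) (hG.symm (hA c l hcl).1) (hA c l hcl).2
          (hG.symm (hA' c l hcl).1) (hA' c l hcl).2 (hX c l k hk0).2
          (hG.symm (hX c l k hk0).1) h1 (hzg n hn0).2 (hG.symm (hzg n hn0).1) hW2
          (hG.symm hW1)
        have h3 := hG.ideq h2
        exact ⟨n, hn0, by rw [← h3]; exact hG.symm hW2⟩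
  -- the points
  have hAz : ∀ c l, c ≠ 0 → l ≠ 0 → c ≠ l → A' c l ≠ z α := by
    intro c l hc0 hl0 hcl h
    apply huz
    have h1 := (hA' c l hcl).2
    rw [h] at h1
    exact (meet_eq hG hl0.symm (hG.symm (huK α n1)) h1).symm
  have hzz : ∀ n n', n ≠ 0 → n' ≠ 0 → zg n = zg n' → n = n' := by
    intro n n' hn0 hn0' h
    by_contra hcon
    apply hneG
    have h1 := (hzg n hn0).2
    have h2 := (hzg n' hn0').2
    rw [← h] at h2
    have h3 := meet_eq hG hcon h1 h2
    have h4 := (hzg n hn0).1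
    rw [h3] at h4
    exact (meet_eq hG n1.symm h4 (hG.symm hGz)).symm
  let P : Fin (m + 1) → Fin (m + 1) → D := fun c l => if c = l then zg c else A' c l
  have hP : ∀ c l k, c ≠ 0 → l ≠ 0 → k ≠ 0 →
      ∃ n, n ≠ 0 ∧ R (M1 k) (P c l) (zg n) := by
    intro c l k hc0 hl0 hk0
    by_cases hcl : c = l
    · subst hcl
      refine ⟨c, hc0, ?_⟩
      simp only [P, if_true]
      exact line_refl hG _ _
    · simp only [P, if_neg hcl]
      exact key c l k hc0 hl0 hk0 hcl
  have hzA : ∀ n c l, n ≠ 0 → c ≠ 0 → l ≠ 0 → c ≠ l → zg n ≠ A' c l := by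
    intro n c l hn0 hc0 hl0 hcl h
    apply hAz c l hc0 hl0 hcl
    have h1 := (hzg n hn0).1
    rw [h] at h1
    exact (meet_eq hG hc0.symm h1 (hA' c l hcl).1).symm
  have hPinj : ∀ c l c' l', c ≠ 0 → l ≠ 0 → c' ≠ 0 → l' ≠ 0 →
      P c l = P c' l' → c = c' ∧ l = l' := by
    intro c l c' l' hc0 hl0 hc0' hl0' h
    simp only [P] at h
    by_cases hcl : c = l
    · by_cases hcl' : c' = l'
      · rw [if_pos hcl, if_pos hcl'] at h
        have := hzz c c' hc0 hc0' h
        exact ⟨this, by rw [← hcl, ← hcl', this]⟩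
      · rw [if_pos hcl, if_neg hcl'] at h
        exact absurd h (hzA c c' l' hc0 hc0' hl0' hcl')
    · by_cases hcl' : c' = l'
      · rw [if_neg hcl, if_pos hcl'] at h
        exact absurd h.symm (hzA c' c l hc0' hc0 hl0 hcl)
      · rw [if_neg hcl, if_neg hcl'] at h
        have g1 := hA' c l hcl
        have g2 := hA' c' l' hcl'
        rw [← h] at g2
        have hcc : c = c' := by
          by_contra hcon
          exact hAz c l hc0 hl0 hcl (meet_eq hG hcon g1.1 g2.1).symm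
        refine ⟨hcc, ?_⟩
        by_contra hcon
        have h3 := meet_eq hG hcon g1.2 g2.2
        apply huz
        have h4 := g1.1
        rw [h3] at h4
        exact (meet_eq hG hc0.symm (hG.symm (huK α n1)) h4).symm
  -- the code
  have hPf : ∀ t : Fin m × Fin m, ∀ k : Fin m, ∃ n : Fin m,
      R (M1 k.succ) (P t.1.succ t.2.succ) (zg n.succ) := by
    intro t k
    obtain ⟨n, hn0, h⟩ := hP t.1.succ t.2.succ k.succ (Fin.succ_ne_zero _) (Fin.succ_ne_zero _)
      (Fin.succ_ne_zero _)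
    obtain ⟨n', rfl⟩ := Fin.exists_succ_eq.2 hn0
    exact ⟨n', h⟩
  choose f hf using hPf
  apply hNC f
  intro s t hst k l hk hl
  by_contra hkl
  apply hst
  have e1 : R (M1 k.succ) (P s.1.succ s.2.succ) (P t.1.succ t.2.succ) := by
    have g1 := hf s k
    have g2 := hf t k
    rw [← hk] at g2
    exact line_trans hG g1 (hG.symm g2)
  have e2 : R (M1 l.succ) (P s.1.succ s.2.succ) (P t.1.succ t.2.succ) := by
    have g1 := hf s l
    have g2 := hf t l
    rw [← hl] at g2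
    exact line_trans hG g1 (hG.symm g2)
  have hkl' : k.succ ≠ l.succ := fun h => hkl (Fin.succ_injective _ h)
  have e3 := meet_eq hG hkl' e1 e2
  obtain ⟨g1, g2⟩ := hPinj _ _ _ _ (Fin.succ_ne_zero _) (Fin.succ_ne_zero _) (Fin.succ_ne_zero _)
    (Fin.succ_ne_zero _) e3
  exact Prod.ext (Fin.succ_injective _ g1) (Fin.succ_injective _ g2)

/-- `L(m,0)` has no weak representation for `m = 6 + 36 s ≥ 8` -/
theorem noWRep (hNC : NoCodeG) (s : ℕ) (hs : 1 ≤ s) : NoWRep (6 + 36 * s) := by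
  intro D R hW x y hxy
  have hm : 8 ≤ 6 + 36 * s := by omega
  have hG : GR (6 + 36 * s) D R := ⟨hW, hm⟩
  let α : Fin (6 + 36 * s + 1) := ⟨1, by omega⟩
  let β : Fin (6 + 36 * s + 1) := ⟨2, by omega⟩
  have n1 : α ≠ 0 := by
    intro h
    have := congrArg Fin.val h
    simp [α] at this
  have n2 : β ≠ 0 := by
    intro h
    have := congrArg Fin.val h
    simp [β] at this
  have n21 : β ≠ α := by
    intro h
    have := congrArg Fin.val h
    simp [α, β] at this
  obtain ⟨t, ht1, -⟩ := hG.dem (S := S1 α) (T := S1 β) (U := {some 0}) (by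
    intro w hw
    have hw' : w = some 0 := hw
    rw [hw']
    exact ⟨some α, rfl, some β, rfl, ac_ne n21.symm n1.symm n2.symm⟩) hxy
  exact no_rep hG (hNC s _ rfl) n1 n2 n21 ht1

end Pool.Agent.W213.LyG
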