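import Pool.Agent.W213.LyG.Cls

/-! Level 1 rules: certificates. -/

set_option autoImplicit false

namespace Pool.Agent.W213.LyG

open Pool.Agent.W213.Ly.Gen

/-- certificate for `c1R` -/
def c1R_st : List Step := [
  .dem 0 2 1 10, .dem 1 258 4 272, .pc 0 4 5, .pc 4 0 2, .pc 4 0 3, .pc 4 1 2, .pc 1 4 5,
  .pc 5 1 0, .pc 5 1 3, .pc 5 0 3, .pc 3 5 4, .gen 3 4 4, .pc 3 4 2, .gen 2 3 3]

set_option maxRecDepth 100000 in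
theorem c1R_chk : check 0 249 4 [(0, 1, (m2 1 2)), (2, 0, (m1 1)), (2, 1, (m1 2)), (3, 0, (m1 2)), (3, 1, (m1 1))]
    2 3 (m2 1 2) c1R_st = true := by decide +kernel

theorem c1R {m : ℕ} {D : Type} {R : Set (At m) → D → D → Prop} (hG : GR m D R)
    (hR : ∀ e : ℕ → Fin (m + 1), Nm e → Rules 0 (HM R e))
    {z a b : Fin (m + 1)} (haz : a ≠ z) (hbz : b ≠ z) (hba : b ≠ a)
    {w p x x' : D} (q0 : R (M2 a b) w p) (q1 : R (M1 a) x w) (q2 : R (M1 b) x p) (q3 : R (M1 b) x' w) (q4 : R (M1 a) x' p) :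
    R (M2 a b) x x' := by
  obtain ⟨e, he, h0, h1, h2⟩ := nam3 hG.m8 z a b haz hbz hba
  have h := check_sound hG.w hG.m8 hR (Or.inr (by decide +kernel)) he c1R_chk (fun t => [w, p, x, x'].getD t w) ?_
  · exact ((pM2 he l1 l2 h1 h2).1 h)
  · simp only [List.forall_mem_cons]
    exact ⟨((pM2 he l1 l2 h1 h2).2 q0), ((pM1 he l1 h1).2 q1), ((pM1 he l2 h2).2 q2), ((pM1 he l2 h2).2 q3), ((pM1 he l1 h1).2 q4), by simp⟩

/-- certificate for `spR` -/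
def spR_st : List Step := [
  .dem 0 2 3 264, .pc 4 0 1, .pc 4 0 2, .pc 4 3 1, .pc 4 1 2, .pc 2 4 3]

set_option maxRecDepth 100000 in
theorem spR_chk : check 0 0 4 [(0, 1, (m2 1 2)), (2, 0, (m1 1)), (2, 1, (m1 2)), (0, 3, (mx 3)), (1, 3, (mx 3))]
    2 3 (mx 3) spR_st = true := by decide +kernel

theorem spR {m : ℕ} {D : Type} {R : Set (At m) → D → D → Prop} (hG : GR m D R)
    (hR : ∀ e : ℕ → Fin (m + 1), Nm e → Rules 0 (HM R e))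
    {z a b c : Fin (m + 1)} (haz : a ≠ z) (hbz : b ≠ z) (hba : b ≠ a) (hcz : c ≠ z) (hca : c ≠ a) (hcb : c ≠ b)
    {w p x y : D} (q0 : R (M2 a b) w p) (q1 : R (M1 a) x w) (q2 : R (M1 b) x p) (q3 : R (MX c) w y) (q4 : R (MX c) p y) :
    R (MX c) x y := by
  obtain ⟨e, he, h0, h1, h2, h3⟩ := nam4 hG.m8 z a b c haz hbz hba hcz hca hcb
  have h := check_sound hG.w hG.m8 hR (Or.inl rfl) he spR_chk (fun t => [w, p, x, y].getD t w) ?_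
  · exact ((pMX he l3 h3).1 h)
  · simp only [List.forall_mem_cons]
    exact ⟨((pM2 he l1 l2 h1 h2).2 q0), ((pM1 he l1 h1).2 q1), ((pM1 he l2 h2).2 q2), ((pMX he l3 h3).2 q3), ((pMX he l3 h3).2 q4), by simp⟩

/-- certificate for `ra1R` -/
def ra1R_st : List Step := [
  .dem 1 1 0 17, .dem 1 1 0 9, .dem 0 288 1 257, .pc 4 1 2, .pc 4 1 3, .pc 4 1 6, .pc 4 0 2,
  .pc 4 0 6, .pc 5 1 2, .pc 5 1 6, .pc 5 0 2, .pc 5 0 6, .pc 6 1 3, .sp 0 1 2 4 1 2 3,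
  .sp 0 1 2 4 1 2 5, .sp 0 1 2 4 1 2 6, .sp 0 1 2 4 1 2 7, .sp 0 1 2 5 1 2 4, .sp 0 1 2 5 1 2 5,
  .sp 0 1 2 5 1 2 6, .sp 0 1 2 5 1 2 7, .pc 2 4 6, .pc 4 2 3, .pc 2 5 6, .pc 3 4 0, .gen 0 3 4,
  .gen 2 6 4, .dem 0 2 3 14, .dem 3 8 0 11, .dem 1 1 0 7, .dem 0 32 1 38, .pc 7 0 1, .pc 7 0 2,
  .pc 7 3 1, .pc 8 3 2, .pc 8 3 6, .pc 8 0 6, .pc 9 1 2, .pc 9 1 6, .pc 9 0 6, .pc 10 0 2,
  .pc 10 0 6, .pc 10 1 6, .pc 7 1 2, .pc 7 2 3, .pc 3 7 0, .sp 0 1 2 9 1 2 3, .sp 0 1 2 9 1 2 4,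
  .sp 0 1 2 9 1 2 5, .sp 0 1 2 9 1 2 6, .sp 0 1 2 9 1 2 7, .sp 0 1 2 10 1 2 0, .sp 0 1 2 10 1 2 3,
  .sp 0 1 2 10 1 2 4, .sp 0 1 2 10 1 2 6, .sp 0 1 2 10 1 2 7, .pc 2 9 6, .pc 2 10 6, .pc 2 6 8,
  .pc 8 2 0, .pc 0 8 3]

set_option maxRecDepth 100000 in
theorem ra1R_chk : check 1 240 4 [(0, 1, (m2 1 2)), (2, 0, (m1 1)), (2, 1, (m1 2)), (3, 2, (m1 3)), (3, 1, (m1 0))]
    0 3 (m2 1 3) ra1R_st = true := by decide +kernel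

theorem ra1R {m : ℕ} {D : Type} {R : Set (At m) → D → D → Prop} (hG : GR m D R)
    (hR : ∀ e : ℕ → Fin (m + 1), Nm e → Rules 1 (HM R e))
    {d a b c : Fin (m + 1)} (had : a ≠ d) (hbd : b ≠ d) (hba : b ≠ a) (hcd : c ≠ d) (hca : c ≠ a) (hcb : c ≠ b)
    {w p x y : D} (q0 : R (M2 a b) w p) (q1 : R (M1 a) x w) (q2 : R (M1 b) x p) (q3 : R (M1 c) y x) (q4 : R (M1 d) y p) :
    R (M2 a c) w y := by
  obtain ⟨e, he, h0, h1, h2, h3⟩ := nam4 hG.m8 d a b c had hbd hba hcd hca hcb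
  have h := check_sound hG.w hG.m8 hR (Or.inr (by decide +kernel)) he ra1R_chk (fun t => [w, p, x, y].getD t w) ?_
  · exact ((pM2 he l1 l3 h1 h3).1 h)
  · simp only [List.forall_mem_cons]
    exact ⟨((pM2 he l1 l2 h1 h2).2 q0), ((pM1 he l1 h1).2 q1), ((pM1 he l2 h2).2 q2), ((pM1 he l3 h3).2 q3), ((pM1 he l0 h0).2 q4), by simp⟩

/-- certificate for `ra2R` -/
def ra2R_st : List Step := [
  .dem 0 257 2 272, .ra 1 0 2 4 2 1 4 0, .ra 4 1 2 3 4 2 3 1, .ra 3 4 2 0 3 4 1 0]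

set_option maxRecDepth 100000 in
theorem ra2R_chk : check 3 0 4 [(0, 1, (m2 1 2)), (2, 0, (m1 1)), (2, 1, (m1 2)), (3, 2, (m1 3)), (3, 1, (m1 1))]
    3 0 (m2 1 3) ra2R_st = true := by decide +kernel

theorem ra2R {m : ℕ} {D : Type} {R : Set (At m) → D → D → Prop} (hG : GR m D R)
    (hR : ∀ e : ℕ → Fin (m + 1), Nm e → Rules 3 (HM R e))
    {z a b c : Fin (m + 1)} (haz : a ≠ z) (hbz : b ≠ z) (hba : b ≠ a) (hcz : c ≠ z) (hca : c ≠ a) (hcb : c ≠ b)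
    {w p x y : D} (q0 : R (M2 a b) w p) (q1 : R (M1 a) x w) (q2 : R (M1 b) x p) (q3 : R (M1 c) y x) (q4 : R (M1 a) y p) :
    R (M2 a c) y w := by
  obtain ⟨e, he, h0, h1, h2, h3⟩ := nam4 hG.m8 z a b c haz hbz hba hcz hca hcb
  have h := check_sound hG.w hG.m8 hR (Or.inl rfl) he ra2R_chk (fun t => [w, p, x, y].getD t w) ?_
  · exact ((pM2 he l1 l3 h1 h3).1 h)
  · simp only [List.forall_mem_cons]
    exact ⟨((pM2 he l1 l2 h1 h2).2 q0), ((pM1 he l1 h1).2 q1), ((pM1 he l2 h2).2 q2), ((pM1 he l3 h3).2 q3), ((pM1 he l1 h1).2 q4), by simp⟩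

end Pool.Agent.W213.LyG
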