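import Pool.Agent.W213.LyG.CertFd

/-! The final frame lemma for classes. -/

set_option autoImplicit false

namespace Pool.Agent.W213.LyG

open Pool.Agent.W213.Ly.Gen

/-- restricted growth: the pattern is canonical -/
def rgF (a b c d : ℕ) : Prop :=
  a < 4 ∧ b ≤ max 3 (a + 1) ∧ c ≤ max (max 3 (a + 1)) (b + 1) ∧
    d ≤ max (max (max 3 (a + 1)) (b + 1)) (c + 1) ∧ a ≠ 0 ∧ b ≠ 0 ∧ c ≠ 0 ∧ d ≠ 0 ∧ a ≠ b ∧ a ≠ c ∧ b ≠ c

instance (a b c d : ℕ) : Decidable (rgF a b c d) := by unfold rgF; infer_instance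

theorem rgF_ok : ∀ a : Fin 4, ∀ b : Fin 5, ∀ c : Fin 6, ∀ d : Fin 7, rgF a b c d →
    (a.1, b.1, c.1, d.1) ∈ patsF := by decide +kernel

theorem rgF_mem {a b c d : ℕ} (h : rgF a b c d) : (a, b, c, d) ∈ patsF := by
  have h' := h
  obtain ⟨h1, h2, h3, h4, -⟩ := h'
  exact rgF_ok ⟨a, h1⟩ ⟨b, by omega⟩ ⟨c, by omega⟩ ⟨d, by omega⟩ h

variable {m : ℕ}

/-- add a class to a list -/
theorem ext1 (pre : List (Fin (m + 1))) (hnd : pre.Nodup) (c : Fin (m + 1)) :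
    ∃ pre' : List (Fin (m + 1)), ∃ i : ℕ, (∀ (j : ℕ) (x : Fin (m + 1)), pre[j]? = some x → pre'[j]? = some x) ∧ pre'.Nodup ∧
      pre'[i]? = some c ∧ i ≤ pre.length ∧ pre'.length = max pre.length (i + 1) := by
  by_cases h : c ∈ pre
  · obtain ⟨i, hi, hc⟩ := List.getElem_of_mem h
    refine ⟨pre, i, fun j x hx => hx, hnd, ?_, by omega, by omega⟩
    rw [List.getElem?_eq_getElem hi, hc]
  · refine ⟨pre ++ [c], pre.length, ?_, ?_, ?_, le_rfl, by simp⟩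
    · intro j x hx
      have hj : j < pre.length := by
        by_contra hcon
        rw [List.getElem?_eq_none (by omega)] at hx
        simp at hx
      rw [List.getElem?_append_left hj]
      exact hx
    · rw [List.nodup_append]
      refine ⟨hnd, by simp, ?_⟩
      intro a ha b hb
      rw [List.mem_singleton] at hb
      subst hb
      rintro rfl
      exact h ha
    · simp

/-- the final frame lemma -/
theorem lemF {D : Type} {R : Set (At m) → D → D → Prop} (hG : GR m D R)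
    (hR : ∀ e : ℕ → Fin (m + 1), Nm e → Rules 4 (HM R e)) {α β c l k n : Fin (m + 1)}
    (hα0 : α ≠ 0) (hβ0 : β ≠ 0) (hβα : β ≠ α) (hc0 : c ≠ 0) (hl0 : l ≠ 0) (hk0 : k ≠ 0)
    (hn0 : n ≠ 0) (hlc : l ≠ c) (hkc : k ≠ c) (hkl : k ≠ l)
    {z1 q z2 u g A A' X zn W : D} (q0 : R (S1 α) q z1) (q1 : R (M1 0) z2 z1) (q2 : R (M1 β) z2 q)
    (q3 : R (M1 0) u z1) (q4 : R (S2 α β) u q) (q5 : R (M1 α) g z1) (q6 : R (M1 β) g u)
    (q7 : R (M1 c) A z1) (q8 : R (M1 l) A z2) (q9 : R (M1 c) A' z1) (q10 : R (M1 l) A' u)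
    (q11 : R (M1 k) X A) (q12 : R (M1 0) X z1) (q13 : R (M2 0 n) X g) (q14 : R (M1 n) zn g)
    (q15 : R (M1 0) zn z1) (q16 : R (M1 k) W A') (q17 : R (M1 0) W z1) : R {none} W zn := by
  have hnd0 : [(0 : Fin (m + 1)), α, β].Nodup := by simp [hα0.symm, hβ0.symm, hβα.symm]
  obtain ⟨p1, a, e1, hnd1, f1, b1, len1⟩ := ext1 _ hnd0 c
  obtain ⟨p2, b, e2, hnd2, f2, b2, len2⟩ := ext1 p1 hnd1 l
  obtain ⟨p3, c', e3, hnd3, f3, b3, len3⟩ := ext1 p2 hnd2 k
  obtain ⟨p4, d, e4, hnd4, f4, b4, len4⟩ := ext1 p3 hnd3 n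
  simp only [List.length_cons, List.length_nil] at b1 len1
  obtain ⟨e, he, hee⟩ := ex_nm hG.m8 (7 - p4.length) p4 (by omega) hnd4
  have get : ∀ (j : ℕ) (x : Fin (m + 1)), p4[j]? = some x → e j = x := by
    intro j x hx
    have hj : j < p4.length := by
      by_contra hcon
      rw [List.getElem?_eq_none (by omega)] at hx
      simp at hx
    rw [hee j hj]
    rw [List.getElem?_eq_getElem hj] at hx
    exact Option.some.inj hx
  have k0 : e 0 = 0 := get 0 _ (e4 _ _ (e3 _ _ (e2 _ _ (e1 _ _ (by simp)))))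
  have k1 : e 1 = α := get 1 _ (e4 _ _ (e3 _ _ (e2 _ _ (e1 _ _ (by simp)))))
  have k2 : e 2 = β := get 2 _ (e4 _ _ (e3 _ _ (e2 _ _ (e1 _ _ (by simp)))))
  have ka : e a = c := get _ _ (e4 _ _ (e3 _ _ (e2 _ _ f1)))
  have kb : e b = l := get _ _ (e4 _ _ (e3 _ _ f2))
  have kc : e c' = k := get _ _ (e4 _ _ f3)
  have kd : e d = n := get _ _ f4
  have la : a < 7 := by omega
  have lb : b < 7 := by omega
  have lc : c' < 7 := by omega
  have ld : d < 7 := by omega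
  have hmem : (a, b, c', d) ∈ patsF := by
    refine rgF_mem ⟨by omega, by omega, by omega, by omega, ?_, ?_, ?_, ?_, ?_, ?_, ?_⟩
    · rintro rfl; exact hc0 (ka.symm.trans k0)
    · rintro rfl; exact hl0 (kb.symm.trans k0)
    · rintro rfl; exact hk0 (kc.symm.trans k0)
    · rintro rfl; exact hn0 (kd.symm.trans k0)
    · rintro rfl; exact hlc (kb.symm.trans ka)
    · rintro rfl; exact hkc (kc.symm.trans ka)
    · rintro rfl; exact hkl (kc.symm.trans kb)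
  obtain ⟨st, hst⟩ := canonF _ hmem
  have h := check_sound hG.w hG.m8 hR (Or.inl rfl) he hst
    (fun t => [z1, q, z2, u, g, A, A', X, zn, W].getD t z1) ?_
  · exact pId.1 h
  · unfold premF
    simp only [List.forall_mem_cons]
    exact ⟨(pS1 he l1 k1).2 q0, (pM1 he l0 k0).2 q1, (pM1 he l2 k2).2 q2, (pM1 he l0 k0).2 q3,
      (pS2 he l1 l2 k1 k2).2 q4, (pM1 he l1 k1).2 q5, (pM1 he l2 k2).2 q6, (pM1 he la ka).2 q7,
      (pM1 he lb kb).2 q8, (pM1 he la ka).2 q9, (pM1 he lb kb).2 q10, (pM1 he lc kc).2 q11,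
      (pM1 he l0 k0).2 q12, (pM2 he l0 ld k0 kd).2 q13, (pM1 he ld kd).2 q14, (pM1 he l0 k0).2 q15,
      (pM1 he lc kc).2 q16, (pM1 he l0 k0).2 q17, by simp⟩

end Pool.Agent.W213.LyG
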