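import Pool.Agent.W213.LyG.Cls

/-! Frame lemmas: certificates. -/

set_option autoImplicit false

namespace Pool.Agent.W213.LyG

open Pool.Agent.W213.Ly.Gen

/-- certificate for `L1k` -/
def L1k_st : List Step := [
  .pc 2 1 4, .pc 2 3 4, .pc 4 2 0]

set_option maxRecDepth 100000 in
theorem L1k_chk : check 4 0 5 [(0, 2, (s1 3)), (1, 2, (m1 0)), (3, 2, (s2 0 3)), (4, 1, (m1 0)), (4, 3, (m1 2))]
    4 0 (nx 3) L1k_st = true := by decide +kernel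

theorem L1k {m : ℕ} {D : Type} {R : Set (At m) → D → D → Prop} (hG : GR m D R)
    (hR : ∀ e : ℕ → Fin (m + 1), Nm e → Rules 4 (HM R e))
    {i j n : Fin (m + 1)} (hi0 : i ≠ 0) (hj0 : j ≠ 0) (hji : j ≠ i) (hn0 : n ≠ 0) (hni : n ≠ i) (hnj : n ≠ j)
    {q zi zn G u : D} (q0 : R (S1 n) q zn) (q1 : R (M1 0) zi zn) (q2 : R (S2 0 n) G zn) (q3 : R (M1 0) u zi) (q4 : R (M1 j) u G) :
    R (NX n) u q := by
  obtain ⟨e, he, h0, h1, h2, h3⟩ := nam4 hG.m8 0 i j n hi0 hj0 hji hn0 hni hnj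
  have h := check_sound hG.w hG.m8 hR (Or.inl rfl) he L1k_chk (fun t => [q, zi, zn, G, u].getD t q) ?_
  · exact ((pNX he l3 h3).1 h)
  · simp only [List.forall_mem_cons]
    exact ⟨((pS1 he l3 h3).2 q0), ((pM1 he l0 h0).2 q1), ((pS2 he l0 l3 h0 h3).2 q2), ((pM1 he l0 h0).2 q3), ((pM1 he l2 h2).2 q4), by simp⟩

/-- certificate for `L1z` -/
def L1z_st : List Step := [
  .pc 0 1 2]

set_option maxRecDepth 100000 in
theorem L1z_chk : check 4 0 3 [(0, 1, (s1 1)), (2, 1, (m1 0))]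
    0 2 (mx 0) L1z_st = true := by decide +kernel

theorem L1z {m : ℕ} {D : Type} {R : Set (At m) → D → D → Prop} (hG : GR m D R)
    (hR : ∀ e : ℕ → Fin (m + 1), Nm e → Rules 4 (HM R e))
    {i : Fin (m + 1)} (hi0 : i ≠ 0)
    {q zi u : D} (q0 : R (S1 i) q zi) (q1 : R (M1 0) u zi) :
    R (MX 0) q u := by
  obtain ⟨e, he, h0, h1⟩ := nam2 hG.m8 0 i hi0
  have h := check_sound hG.w hG.m8 hR (Or.inl rfl) he L1z_chk (fun t => [q, zi, u].getD t q) ?_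
  · exact ((pMX he l0 h0).1 h)
  · simp only [List.forall_mem_cons]
    exact ⟨((pS1 he l1 h1).2 q0), ((pM1 he l0 h0).2 q1), by simp⟩

/-- certificate for `XB` -/
def XB_st : List Step := [
  .pc 0 1 2]

set_option maxRecDepth 100000 in
theorem XB_chk : check 4 0 3 [(0, 1, (s1 0)), (1, 2, (m2 0 1))]
    0 2 (nx 1) XB_st = true := by decide +kernel

theorem XB {m : ℕ} {D : Type} {R : Set (At m) → D → D → Prop} (hG : GR m D R)
    (hR : ∀ e : ℕ → Fin (m + 1), Nm e → Rules 4 (HM R e))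
    {i : Fin (m + 1)} (hi0 : i ≠ 0)
    {X b G : D} (q0 : R (S1 0) X b) (q1 : R (M2 0 i) b G) :
    R (NX i) X G := by
  obtain ⟨e, he, h0, h1⟩ := nam2 hG.m8 0 i hi0
  have h := check_sound hG.w hG.m8 hR (Or.inl rfl) he XB_chk (fun t => [X, b, G].getD t X) ?_
  · exact ((pNX he l1 h1).1 h)
  · simp only [List.forall_mem_cons]
    exact ⟨((pS1 he l0 h0).2 q0), ((pM2 he l0 l1 h0 h1).2 q1), by simp⟩

/-- certificate for `BK` -/
def BK_st : List Step := [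
  .pc 1 0 2]

set_option maxRecDepth 100000 in
theorem BK_chk : check 4 0 3 [(0, 1, (s1 0)), (0, 2, (m1 0))]
    1 2 (m1 0) BK_st = true := by decide +kernel

theorem BK {m : ℕ} {D : Type} {R : Set (At m) → D → D → Prop} (hG : GR m D R)
    (hR : ∀ e : ℕ → Fin (m + 1), Nm e → Rules 4 (HM R e))
    {i : Fin (m + 1)} (hi0 : i ≠ 0)
    {X b zi : D} (q0 : R (S1 0) X b) (q1 : R (M1 0) X zi) :
    R (M1 0) b zi := by
  obtain ⟨e, he, h0, h1⟩ := nam2 hG.m8 0 i hi0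
  have h := check_sound hG.w hG.m8 hR (Or.inl rfl) he BK_chk (fun t => [X, b, zi].getD t X) ?_
  · exact ((pM1 he l0 h0).1 h)
  · simp only [List.forall_mem_cons]
    exact ⟨((pS1 he l0 h0).2 q0), ((pM1 he l0 h0).2 q1), by simp⟩

/-- certificate for `W1` -/
def W1_st : List Step := [
  .pc 0 1 2]

set_option maxRecDepth 100000 in
theorem W1_chk : check 4 0 3 [(1, 0, (m1 2)), (0, 2, (m1 0)), (1, 2, 256)]
    0 2 256 W1_st = true := by decide +kernel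

theorem W1 {m : ℕ} {D : Type} {R : Set (At m) → D → D → Prop} (hG : GR m D R)
    (hR : ∀ e : ℕ → Fin (m + 1), Nm e → Rules 4 (HM R e))
    {i j : Fin (m + 1)} (hi0 : i ≠ 0) (hj0 : j ≠ 0) (hji : j ≠ i)
    {w g zi : D} (q0 : R (M1 j) g w) (q1 : R (M1 0) w zi) (q2 : R {none} g zi) :
    R {none} w zi := by
  obtain ⟨e, he, h0, h1, h2⟩ := nam3 hG.m8 0 i j hi0 hj0 hji
  have h := check_sound hG.w hG.m8 hR (Or.inl rfl) he W1_chk (fun t => [w, g, zi].getD t w) ?_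
  · exact (pId.1 h)
  · simp only [List.forall_mem_cons]
    exact ⟨((pM1 he l2 h2).2 q0), ((pM1 he l0 h0).2 q1), (pId.2 q2), by simp⟩

/-- certificate for `L2a` -/
def L2a_st : List Step := [
  .dem 0 257 1 264, .pc 1 0 5, .pc 1 0 4, .pc 0 1 2, .pc 0 1 5, .pc 2 0 5, .pc 2 0 4, .pc 2 1 5,
  .pc 5 0 3, .pc 5 0 4, .pc 5 1 3, .pc 4 3 5, .sp 1 3 4 5 1 2 4, .sp 1 3 4 5 1 2 5,
  .sp 1 3 4 5 1 2 6, .sp 1 3 4 5 1 2 7, .pc 4 5 2, .gen 2 4 3]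

set_option maxRecDepth 100000 in
theorem L2a_chk : check 4 248 5 [(1, 0, (s1 1)), (2, 0, (m1 0)), (2, 1, (m1 2)), (3, 0, (m1 0)), (3, 1, (s2 1 2)), (4, 0, (m1 1)), (4, 3, (m1 2))]
    2 4 (s2 0 2) L2a_st = true := by decide +kernel

theorem L2a {m : ℕ} {D : Type} {R : Set (At m) → D → D → Prop} (hG : GR m D R)
    (hR : ∀ e : ℕ → Fin (m + 1), Nm e → Rules 4 (HM R e))
    {i j : Fin (m + 1)} (hi0 : i ≠ 0) (hj0 : j ≠ 0) (hji : j ≠ i)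
    {zi q zj u g : D} (q0 : R (S1 i) q zi) (q1 : R (M1 0) zj zi) (q2 : R (M1 j) zj q) (q3 : R (M1 0) u zi) (q4 : R (S2 i j) u q) (q5 : R (M1 i) g zi) (q6 : R (M1 j) g u) :
    R (S2 0 j) zj g := by
  obtain ⟨e, he, h0, h1, h2⟩ := nam3 hG.m8 0 i j hi0 hj0 hji
  have h := check_sound hG.w hG.m8 hR (Or.inr (by decide +kernel)) he L2a_chk (fun t => [zi, q, zj, u, g].getD t zi) ?_
  · exact ((pS2 he l0 l2 h0 h2).1 h)
  · simp only [List.forall_mem_cons]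
    exact ⟨((pS1 he l1 h1).2 q0), ((pM1 he l0 h0).2 q1), ((pM1 he l2 h2).2 q2), ((pM1 he l0 h0).2 q3), ((pS2 he l1 l2 h1 h2).2 q4), ((pM1 he l1 h1).2 q5), ((pM1 he l2 h2).2 q6), by simp⟩

/-- certificate for `L2b` -/
def L2b_st : List Step := [
  .pc 1 0 2, .pc 1 0 4, .pc 0 1 2, .pc 2 0 3, .pc 2 0 4, .pc 2 1 3, .pc 4 3 2, .sp 1 3 4 2 1 2 4,
  .sp 1 3 4 2 1 2 5, .sp 1 3 4 2 1 2 6, .sp 1 3 4 2 1 2 7]

set_option maxRecDepth 100000 in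
theorem L2b_chk : check 4 0 5 [(1, 0, (s1 1)), (2, 0, (m1 0)), (2, 1, (m1 3)), (3, 0, (m1 0)), (3, 1, (s2 1 2)), (4, 0, (m1 1)), (4, 3, (m1 2))]
    4 2 (s2 0 3) L2b_st = true := by decide +kernel

theorem L2b {m : ℕ} {D : Type} {R : Set (At m) → D → D → Prop} (hG : GR m D R)
    (hR : ∀ e : ℕ → Fin (m + 1), Nm e → Rules 4 (HM R e))
    {i j n : Fin (m + 1)} (hi0 : i ≠ 0) (hj0 : j ≠ 0) (hji : j ≠ i) (hn0 : n ≠ 0) (hni : n ≠ i) (hnj : n ≠ j)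
    {zi q zn u g : D} (q0 : R (S1 i) q zi) (q1 : R (M1 0) zn zi) (q2 : R (M1 n) zn q) (q3 : R (M1 0) u zi) (q4 : R (S2 i j) u q) (q5 : R (M1 i) g zi) (q6 : R (M1 j) g u) :
    R (S2 0 n) g zn := by
  obtain ⟨e, he, h0, h1, h2, h3⟩ := nam4 hG.m8 0 i j n hi0 hj0 hji hn0 hni hnj
  have h := check_sound hG.w hG.m8 hR (Or.inl rfl) he L2b_chk (fun t => [zi, q, zn, u, g].getD t zi) ?_
  · exact ((pS2 he l0 l3 h0 h3).1 h)
  · simp only [List.forall_mem_cons]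
    exact ⟨((pS1 he l1 h1).2 q0), ((pM1 he l0 h0).2 q1), ((pM1 he l3 h3).2 q2), ((pM1 he l0 h0).2 q3), ((pS2 he l1 l2 h1 h2).2 q4), ((pM1 he l1 h1).2 q5), ((pM1 he l2 h2).2 q6), by simp⟩

/-- certificate for `L2q` -/
def L2q_st : List Step := [
  .pc 1 0 2]

set_option maxRecDepth 100000 in
theorem L2q_chk : check 4 0 3 [(1, 0, (s1 1)), (2, 0, (m1 1))]
    1 2 (m1 1) L2q_st = true := by decide +kernel

theorem L2q {m : ℕ} {D : Type} {R : Set (At m) → D → D → Prop} (hG : GR m D R)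
    (hR : ∀ e : ℕ → Fin (m + 1), Nm e → Rules 4 (HM R e))
    {i : Fin (m + 1)} (hi0 : i ≠ 0)
    {zi q g : D} (q0 : R (S1 i) q zi) (q1 : R (M1 i) g zi) :
    R (M1 i) q g := by
  obtain ⟨e, he, h0, h1⟩ := nam2 hG.m8 0 i hi0
  have h := check_sound hG.w hG.m8 hR (Or.inl rfl) he L2q_chk (fun t => [zi, q, g].getD t zi) ?_
  · exact ((pM1 he l1 h1).1 h)
  · simp only [List.forall_mem_cons]
    exact ⟨((pS1 he l1 h1).2 q0), ((pM1 he l1 h1).2 q1), by simp⟩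

/-- certificate for `Mq` -/
def Mq_st : List Step := [
  .dem 0 257 1 264, .pc 1 0 7, .pc 7 0 2, .pc 7 0 3, .pc 7 1 2, .pc 7 1 3, .pc 4 2 7, .pc 4 3 7,
  .pc 5 0 7, .pc 6 5 7, .pc 6 4 7, .pc 6 7 1, .gen 1 6 3]

set_option maxRecDepth 100000 in
theorem Mq_chk : check 4 248 7 [(1, 0, (s1 1)), (2, 0, (m1 0)), (2, 1, (s2 1 2)), (3, 0, (m1 0)), (3, 1, (s2 1 2)), (4, 2, (m1 2)), (4, 3, (m1 1)), (0, 5, (s1 0)), (5, 6, (s1 0)), (6, 4, (m2 1 2))]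
    1 6 (s2 1 2) Mq_st = true := by decide +kernel

theorem Mq {m : ℕ} {D : Type} {R : Set (At m) → D → D → Prop} (hG : GR m D R)
    (hR : ∀ e : ℕ → Fin (m + 1), Nm e → Rules 4 (HM R e))
    {i j : Fin (m + 1)} (hi0 : i ≠ 0) (hj0 : j ≠ 0) (hji : j ≠ i)
    {zi q u v p x w : D} (q0 : R (S1 i) q zi) (q1 : R (M1 0) u zi) (q2 : R (S2 i j) u q) (q3 : R (M1 0) v zi) (q4 : R (S2 i j) v q) (q5 : R (M1 j) p u) (q6 : R (M1 i) p v) (q7 : R (S1 0) zi x) (q8 : R (S1 0) x w) (q9 : R (M2 i j) w p) :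
    R (S2 i j) q w := by
  obtain ⟨e, he, h0, h1, h2⟩ := nam3 hG.m8 0 i j hi0 hj0 hji
  have h := check_sound hG.w hG.m8 hR (Or.inr (by decide +kernel)) he Mq_chk (fun t => [zi, q, u, v, p, x, w].getD t zi) ?_
  · exact ((pS2 he l1 l2 h1 h2).1 h)
  · simp only [List.forall_mem_cons]
    exact ⟨((pS1 he l1 h1).2 q0), ((pM1 he l0 h0).2 q1), ((pS2 he l1 l2 h1 h2).2 q2), ((pM1 he l0 h0).2 q3), ((pS2 he l1 l2 h1 h2).2 q4), ((pM1 he l2 h2).2 q5), ((pM1 he l1 h1).2 q6), ((pS1 he l0 h0).2 q7), ((pS1 he l0 h0).2 q8), ((pM2 he l1 l2 h1 h2).2 q9), by simp⟩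

end Pool.Agent.W213.LyG
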