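import Pool.Agent.W213.LyG.Cls

/-! Frame lemmas: certificates. -/

set_option autoImplicit false

namespace Pool.Agent.W213.LyG

open Pool.Agent.W213.Ly.Gen

/-- certificate for `Mu` -/
def Mu_st : List Step := [
  .dem 0 257 1 264, .pc 1 0 9, .pc 0 1 9, .pc 9 0 2, .pc 9 0 4, .pc 9 1 2, .pc 9 1 4, .pc 3 2 5,
  .pc 5 2 9, .pc 5 4 9, .pc 6 0 9, .pc 6 0 2, .pc 7 6 9, .pc 7 6 2, .pc 7 5 9, .pc 8 0 1,
  .pc 8 0 9, .pc 8 0 3, .pc 8 0 6, .pc 8 7 9, .pc 7 9 1, .gen 1 7 3, .sp 1 7 8 9 1 2 4,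
  .sp 1 7 8 9 1 2 5, .sp 1 7 8 9 1 2 6, .sp 1 7 8 9 1 2 7, .pc 8 9 2, .gen 2 8 3, .dem 5 260 7 258,
  .pc 10 5 2, .pc 10 5 3, .pc 10 7 6, .sp 5 7 10 6 2 1 3, .sp 5 7 10 6 2 1 4, .sp 5 7 10 6 2 1 5,
  .sp 5 7 10 6 2 1 6, .sp 5 7 10 6 2 1 7, .dem 6 1 8 3, .pc 11 6 2, .pc 11 6 7, .pc 11 6 10,
  .pc 11 8 7, .pc 11 7 10, .pc 11 10 2, .pc 2 11 8, .ra 8 2 7 10 2 0 1 2, .c1 8 10 3 7 1 2]

set_option maxRecDepth 100000 in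
theorem Mu_chk : check 4 248 9 [(1, 0, (s1 1)), (2, 0, (m1 0)), (2, 1, (s2 1 2)), (3, 0, (m1 1)), (3, 2, (m1 2)), (4, 0, (m1 0)), (4, 1, (s2 1 2)), (5, 2, (m1 2)), (5, 4, (m1 1)), (0, 6, (s1 0)), (6, 5, (s3 0 1 2)), (6, 7, (s1 0)), (7, 5, (m2 1 2)), (8, 0, (m1 1)), (8, 7, (m1 2))]
    3 7 (m2 1 2) Mu_st = true := by decide +kernel

theorem Mu {m : ℕ} {D : Type} {R : Set (At m) → D → D → Prop} (hG : GR m D R)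
    (hR : ∀ e : ℕ → Fin (m + 1), Nm e → Rules 4 (HM R e))
    {i j : Fin (m + 1)} (hi0 : i ≠ 0) (hj0 : j ≠ 0) (hji : j ≠ i)
    {zi q u g v p x w gw : D} (q0 : R (S1 i) q zi) (q1 : R (M1 0) u zi) (q2 : R (S2 i j) u q) (q3 : R (M1 i) g zi) (q4 : R (M1 j) g u) (q5 : R (M1 0) v zi) (q6 : R (S2 i j) v q) (q7 : R (M1 j) p u) (q8 : R (M1 i) p v) (q9 : R (S1 0) zi x) (q10 : R (S3 0 i j) x p) (q11 : R (S1 0) x w) (q12 : R (M2 i j) w p) (q13 : R (M1 i) gw zi) (q14 : R (M1 j) gw w) :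
    R (M2 i j) g w := by
  obtain ⟨e, he, h0, h1, h2⟩ := nam3 hG.m8 0 i j hi0 hj0 hji
  have h := check_sound hG.w hG.m8 hR (Or.inr (by decide +kernel)) he Mu_chk (fun t => [zi, q, u, g, v, p, x, w, gw].getD t zi) ?_
  · exact ((pM2 he l1 l2 h1 h2).1 h)
  · simp only [List.forall_mem_cons]
    exact ⟨((pS1 he l1 h1).2 q0), ((pM1 he l0 h0).2 q1), ((pS2 he l1 l2 h1 h2).2 q2), ((pM1 he l1 h1).2 q3), ((pM1 he l2 h2).2 q4), ((pM1 he l0 h0).2 q5), ((pS2 he l1 l2 h1 h2).2 q6), ((pM1 he l2 h2).2 q7), ((pM1 he l1 h1).2 q8), ((pS1 he l0 h0).2 q9), ((pS3 he l0 l1 l2 h0 h1 h2).2 q10), ((pS1 he l0 h0).2 q11), ((pM2 he l1 l2 h1 h2).2 q12), ((pM1 he l1 h1).2 q13), ((pM1 he l2 h2).2 q14), by simp⟩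

/-- certificate for `Mv` -/
def Mv_st : List Step := [
  .dem 0 257 1 264, .pc 1 0 9, .pc 0 1 9, .pc 9 0 2, .pc 9 0 3, .pc 9 1 2, .pc 9 1 3, .pc 5 2 9,
  .pc 5 3 9, .pc 6 0 9, .pc 6 0 3, .pc 7 6 9, .pc 7 6 3, .pc 7 5 9, .pc 8 0 1, .pc 8 0 9,
  .pc 8 0 4, .pc 8 0 6, .pc 8 7 9, .pc 7 9 1, .gen 1 7 3, .sp 1 7 8 9 1 2 4, .sp 1 7 8 9 1 2 5,
  .sp 1 7 8 9 1 2 6, .sp 1 7 8 9 1 2 7, .pc 8 9 3, .gen 3 8 3, .dem 5 258 7 260, .pc 10 5 3,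
  .pc 10 7 6, .pc 10 7 8, .sp 5 7 10 6 1 2 3, .sp 5 7 10 6 1 2 4, .sp 5 7 10 6 1 2 5,
  .sp 5 7 10 6 1 2 6, .sp 5 7 10 6 1 2 7, .dem 6 1 8 3, .pc 11 6 3, .pc 11 6 10, .pc 11 8 10,
  .pc 11 10 3, .pc 3 11 8, .dem 3 260 8 257, .pc 12 3 4, .c1 3 8 7 12 0 2, .ra 7 12 8 4 2 0 1 2]

set_option maxRecDepth 100000 in
theorem Mv_chk : check 4 248 9 [(1, 0, (s1 1)), (2, 0, (m1 0)), (2, 1, (s2 1 2)), (3, 0, (m1 0)), (3, 1, (s2 1 2)), (4, 0, (m1 1)), (4, 3, (m1 2)), (5, 2, (m1 2)), (5, 3, (m1 1)), (0, 6, (s1 0)), (6, 5, (s3 0 1 2)), (6, 7, (s1 0)), (7, 5, (m2 1 2)), (8, 0, (m1 1)), (8, 7, (m1 2))]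
    7 4 (m2 1 2) Mv_st = true := by decide +kernel

theorem Mv {m : ℕ} {D : Type} {R : Set (At m) → D → D → Prop} (hG : GR m D R)
    (hR : ∀ e : ℕ → Fin (m + 1), Nm e → Rules 4 (HM R e))
    {i j : Fin (m + 1)} (hi0 : i ≠ 0) (hj0 : j ≠ 0) (hji : j ≠ i)
    {zi q u v gv p x w gw : D} (q0 : R (S1 i) q zi) (q1 : R (M1 0) u zi) (q2 : R (S2 i j) u q) (q3 : R (M1 0) v zi) (q4 : R (S2 i j) v q) (q5 : R (M1 i) gv zi) (q6 : R (M1 j) gv v) (q7 : R (M1 j) p u) (q8 : R (M1 i) p v) (q9 : R (S1 0) zi x) (q10 : R (S3 0 i j) x p) (q11 : R (S1 0) x w) (q12 : R (M2 i j) w p) (q13 : R (M1 i) gw zi) (q14 : R (M1 j) gw w) :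
    R (M2 i j) w gv := by
  obtain ⟨e, he, h0, h1, h2⟩ := nam3 hG.m8 0 i j hi0 hj0 hji
  have h := check_sound hG.w hG.m8 hR (Or.inr (by decide +kernel)) he Mv_chk (fun t => [zi, q, u, v, gv, p, x, w, gw].getD t zi) ?_
  · exact ((pM2 he l1 l2 h1 h2).1 h)
  · simp only [List.forall_mem_cons]
    exact ⟨((pS1 he l1 h1).2 q0), ((pM1 he l0 h0).2 q1), ((pS2 he l1 l2 h1 h2).2 q2), ((pM1 he l0 h0).2 q3), ((pS2 he l1 l2 h1 h2).2 q4), ((pM1 he l1 h1).2 q5), ((pM1 he l2 h2).2 q6), ((pM1 he l2 h2).2 q7), ((pM1 he l1 h1).2 q8), ((pS1 he l0 h0).2 q9), ((pS3 he l0 l1 l2 h0 h1 h2).2 q10), ((pS1 he l0 h0).2 q11), ((pM2 he l1 l2 h1 h2).2 q12), ((pM1 he l1 h1).2 q13), ((pM1 he l2 h2).2 q14), by simp⟩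

/-- certificate for `E3` -/
def E3_st : List Step := [
  .pc 2 1 4, .dem 0 260 4 258, .pc 5 4 3, .c1 0 4 2 5 1 2, .ra 2 5 0 3 1 2 0 1]

set_option maxRecDepth 100000 in
theorem E3_chk : check 4 0 5 [(2, 0, (m1 1)), (2, 1, (m1 2)), (3, 0, (m1 0)), (4, 1, (m1 2)), (4, 3, (m1 1)), (4, 0, (m2 1 2))]
    2 3 (m2 0 1) E3_st = true := by decide +kernel

theorem E3 {m : ℕ} {D : Type} {R : Set (At m) → D → D → Prop} (hG : GR m D R)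
    (hR : ∀ e : ℕ → Fin (m + 1), Nm e → Rules 4 (HM R e))
    {i j : Fin (m + 1)} (hi0 : i ≠ 0) (hj0 : j ≠ 0) (hji : j ≠ i)
    {zi u g v p : D} (q0 : R (M1 i) g zi) (q1 : R (M1 j) g u) (q2 : R (M1 0) v zi) (q3 : R (M1 j) p u) (q4 : R (M1 i) p v) (q5 : R (M2 i j) p zi) :
    R (M2 0 i) g v := by
  obtain ⟨e, he, h0, h1, h2⟩ := nam3 hG.m8 0 i j hi0 hj0 hji
  have h := check_sound hG.w hG.m8 hR (Or.inl rfl) he E3_chk (fun t => [zi, u, g, v, p].getD t zi) ?_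
  · exact ((pM2 he l0 l1 h0 h1).1 h)
  · simp only [List.forall_mem_cons]
    exact ⟨((pM1 he l1 h1).2 q0), ((pM1 he l2 h2).2 q1), ((pM1 he l0 h0).2 q2), ((pM1 he l2 h2).2 q3), ((pM1 he l1 h1).2 q4), ((pM2 he l1 l2 h1 h2).2 q5), by simp⟩

end Pool.Agent.W213.LyG
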