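import Pool.Agent.W213.LyG.Cls

/-! Frame lemmas: certificates. -/

set_option autoImplicit false

namespace Pool.Agent.W213.LyG

open Pool.Agent.W213.Ly.Gen

/-- certificate for `E1i` -/
def E1i_st : List Step := [
  .dem 0 257 1 264, .dem 0 257 1 272, .dem 4 260 5 258, .dem 8 257 4 264, .pc 1 0 8, .pc 1 0 9,
  .pc 1 0 4, .pc 1 0 6, .pc 0 1 2, .pc 0 1 8, .pc 0 1 9, .pc 2 0 8, .pc 2 0 4, .pc 2 0 6,
  .pc 2 1 8, .pc 8 0 9, .pc 8 0 3, .pc 8 0 4, .pc 8 0 5, .pc 8 0 6, .pc 0 8 11, .pc 8 1 9,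
  .pc 8 1 3, .pc 8 1 5, .pc 9 0 4, .pc 9 0 5, .pc 9 0 6, .pc 9 0 11, .pc 9 1 5, .pc 3 0 5,
  .pc 3 0 7, .pc 3 0 11, .pc 4 0 6, .pc 4 3 8, .pc 3 4 10, .pc 6 5 8, .pc 6 5 9, .pc 7 0 11,
  .pc 11 8 2, .sp 1 3 4 8 1 2 4, .sp 1 3 4 8 1 2 5, .sp 1 3 4 8 1 2 6, .sp 1 3 4 8 1 2 7,
  .sp 1 5 6 8 1 2 4, .sp 1 5 6 8 1 2 5, .sp 1 5 6 8 1 2 6, .sp 1 5 6 8 1 2 7, .sp 1 5 6 9 1 2 3,
  .sp 1 5 6 9 1 2 5, .sp 1 5 6 9 1 2 6, .sp 1 5 6 9 1 2 7, .sp 8 4 11 2 0 3 1, .sp 8 4 11 9 0 3 1,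
  .c1 4 5 6 10 1 2, .ra 6 10 5 3 2 1 0 2, .pc 6 8 2, .pc 6 9 11, .gen 2 6 3, .gen 6 11 4,
  .pc 6 2 11, .dem 3 1 1 6, .pc 12 3 8, .pc 12 3 4, .pc 12 3 6, .pc 12 3 11, .pc 12 1 8,
  .pc 12 8 4, .pc 12 8 6, .pc 12 4 11, .gen 6 12 3, .pc 6 12 11, .dem 7 1 4 3, .pc 13 7 3,
  .pc 13 7 11, .pc 13 4 3, .pc 13 4 11, .pc 13 3 6, .pc 13 11 6, .gen 6 13 3, .pc 6 13 7]

set_option maxRecDepth 100000 in
theorem E1i_chk : check 4 248 8 [(1, 0, (s1 1)), (2, 0, (m1 0)), (2, 1, (m1 2)), (3, 0, (m1 0)), (3, 1, (s2 1 2)), (4, 0, (m1 1)), (4, 3, (m1 2)), (5, 0, (m1 0)), (5, 1, (s2 1 2)), (6, 0, (m1 1)), (6, 5, (m1 2)), (5, 4, (m2 1 2)), (7, 0, (m1 0)), (7, 4, (nx 1))]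
    6 7 (nx 1) E1i_st = true := by decide +kernel

theorem E1i {m : ℕ} {D : Type} {R : Set (At m) → D → D → Prop} (hG : GR m D R)
    (hR : ∀ e : ℕ → Fin (m + 1), Nm e → Rules 4 (HM R e))
    {i j : Fin (m + 1)} (hi0 : i ≠ 0) (hj0 : j ≠ 0) (hji : j ≠ i)
    {zi q zj u g w gw X : D} (q0 : R (S1 i) q zi) (q1 : R (M1 0) zj zi) (q2 : R (M1 j) zj q) (q3 : R (M1 0) u zi) (q4 : R (S2 i j) u q) (q5 : R (M1 i) g zi) (q6 : R (M1 j) g u) (q7 : R (M1 0) w zi) (q8 : R (S2 i j) w q) (q9 : R (M1 i) gw zi) (q10 : R (M1 j) gw w) (q11 : R (M2 i j) w g) (q12 : R (M1 0) X zi) (q13 : R (NX i) X g) :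
    R (NX i) gw X := by
  obtain ⟨e, he, h0, h1, h2⟩ := nam3 hG.m8 0 i j hi0 hj0 hji
  have h := check_sound hG.w hG.m8 hR (Or.inr (by decide +kernel)) he E1i_chk (fun t => [zi, q, zj, u, g, w, gw, X].getD t zi) ?_
  · exact ((pNX he l1 h1).1 h)
  · simp only [List.forall_mem_cons]
    exact ⟨((pS1 he l1 h1).2 q0), ((pM1 he l0 h0).2 q1), ((pM1 he l2 h2).2 q2), ((pM1 he l0 h0).2 q3), ((pS2 he l1 l2 h1 h2).2 q4), ((pM1 he l1 h1).2 q5), ((pM1 he l2 h2).2 q6), ((pM1 he l0 h0).2 q7), ((pS2 he l1 l2 h1 h2).2 q8), ((pM1 he l1 h1).2 q9), ((pM1 he l2 h2).2 q10), ((pM2 he l1 l2 h1 h2).2 q11), ((pM1 he l0 h0).2 q12), ((pNX he l1 h1).2 q13), by simp⟩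

/-- certificate for `E1j` -/
def E1j_st : List Step := [
  .dem 0 257 1 264, .pc 6 0 3, .pc 6 0 5, .pc 2 0 4, .dem 6 257 4 264, .pc 7 6 3, .pc 7 6 5,
  .ra 2 3 4 7 1 2 3 0, .dem 5 1 2 5, .pc 8 5 7, .pc 8 2 4, .pc 8 2 7, .pc 8 7 4, .sp 2 7 4 8 1 3 4,
  .sp 2 7 4 8 1 3 5, .sp 2 7 4 8 1 3 6, .sp 2 7 4 8 1 3 7, .pc 4 8 5]

set_option maxRecDepth 100000 in
theorem E1j_chk : check 4 0 6 [(2, 0, (m1 1)), (3, 0, (m1 0)), (4, 0, (m1 1)), (4, 3, (m1 2)), (3, 2, (m2 1 2)), (5, 0, (m1 0)), (5, 2, (nx 2))]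
    4 5 (nx 2) E1j_st = true := by decide +kernel

theorem E1j {m : ℕ} {D : Type} {R : Set (At m) → D → D → Prop} (hG : GR m D R)
    (hR : ∀ e : ℕ → Fin (m + 1), Nm e → Rules 4 (HM R e))
    {i j : Fin (m + 1)} (hi0 : i ≠ 0) (hj0 : j ≠ 0) (hji : j ≠ i)
    {zi q g w gw X : D} (q0 : R (M1 i) g zi) (q1 : R (M1 0) w zi) (q2 : R (M1 i) gw zi) (q3 : R (M1 j) gw w) (q4 : R (M2 i j) w g) (q5 : R (M1 0) X zi) (q6 : R (NX j) X g) :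
    R (NX j) gw X := by
  obtain ⟨e, he, h0, h1, h2⟩ := nam3 hG.m8 0 i j hi0 hj0 hji
  have h := check_sound hG.w hG.m8 hR (Or.inl rfl) he E1j_chk (fun t => [zi, q, g, w, gw, X].getD t zi) ?_
  · exact ((pNX he l2 h2).1 h)
  · simp only [List.forall_mem_cons]
    exact ⟨((pM1 he l1 h1).2 q0), ((pM1 he l0 h0).2 q1), ((pM1 he l1 h1).2 q2), ((pM1 he l2 h2).2 q3), ((pM2 he l1 l2 h1 h2).2 q4), ((pM1 he l0 h0).2 q5), ((pNX he l2 h2).2 q6), by simp⟩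

/-- certificate for `E1n` -/
def E1n_st : List Step := [
  .pc 1 0 3, .pc 2 0 4, .dem 4 1 1 9, .pc 5 4 2, .pc 5 1 2, .pc 5 1 3, .pc 5 2 3,
  .sp 1 2 3 5 1 2 4, .sp 1 2 3 5 1 2 5, .sp 1 2 3 5 1 2 6, .sp 1 2 3 5 1 2 7, .pc 3 5 4]

set_option maxRecDepth 100000 in
theorem E1n_chk : check 4 0 5 [(1, 0, (m1 1)), (2, 0, (m1 0)), (3, 0, (m1 1)), (3, 2, (m1 2)), (2, 1, (m2 1 2)), (4, 0, (m1 0)), (4, 1, (nx 3))]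
    3 4 (nx 3) E1n_st = true := by decide +kernel

theorem E1n {m : ℕ} {D : Type} {R : Set (At m) → D → D → Prop} (hG : GR m D R)
    (hR : ∀ e : ℕ → Fin (m + 1), Nm e → Rules 4 (HM R e))
    {i j n : Fin (m + 1)} (hi0 : i ≠ 0) (hj0 : j ≠ 0) (hji : j ≠ i) (hn0 : n ≠ 0) (hni : n ≠ i) (hnj : n ≠ j)
    {zi g w gw X : D} (q0 : R (M1 i) g zi) (q1 : R (M1 0) w zi) (q2 : R (M1 i) gw zi) (q3 : R (M1 j) gw w) (q4 : R (M2 i j) w g) (q5 : R (M1 0) X zi) (q6 : R (NX n) X g) :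
    R (NX n) gw X := by
  obtain ⟨e, he, h0, h1, h2, h3⟩ := nam4 hG.m8 0 i j n hi0 hj0 hji hn0 hni hnj
  have h := check_sound hG.w hG.m8 hR (Or.inl rfl) he E1n_chk (fun t => [zi, g, w, gw, X].getD t zi) ?_
  · exact ((pNX he l3 h3).1 h)
  · simp only [List.forall_mem_cons]
    exact ⟨((pM1 he l1 h1).2 q0), ((pM1 he l0 h0).2 q1), ((pM1 he l1 h1).2 q2), ((pM1 he l2 h2).2 q3), ((pM2 he l1 l2 h1 h2).2 q4), ((pM1 he l0 h0).2 q5), ((pNX he l3 h3).2 q6), by simp⟩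

end Pool.Agent.W213.LyG
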