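import Pool.Agent.W213.LyG.Cls

/-! Frame lemmas: certificates. -/

set_option autoImplicit false

namespace Pool.Agent.W213.LyG

open Pool.Agent.W213.Ly.Gen

/-- certificate for `E2i` -/
def E2i_st : List Step := [
  .dem 0 257 1 264, .pc 1 0 8, .pc 1 0 4, .pc 0 1 2, .pc 0 1 8, .pc 2 0 8, .pc 2 0 4, .pc 2 1 8,
  .pc 8 0 3, .pc 8 0 4, .pc 8 0 7, .pc 8 1 3, .pc 3 0 7, .pc 4 3 8, .sp 1 3 4 8 1 2 4,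
  .sp 1 3 4 8 1 2 5, .sp 1 3 4 8 1 2 6, .sp 1 3 4 8 1 2 7, .pc 4 8 2, .dem 8 257 4 264, .pc 9 8 1,
  .pc 9 8 2, .pc 9 8 3, .pc 9 8 7, .pc 9 4 2, .ra 1 3 4 9 1 2 3 0, .pc 3 5 6, .pc 5 3 8, .pc 5 3 4,
  .pc 5 3 9, .pc 5 1 8, .pc 6 2 1, .pc 6 2 9, .pc 5 8 4, .pc 5 4 9, .pc 9 5 6, .sp 1 5 6 3 2 1 3,
  .sp 1 5 6 3 2 1 4, .sp 1 5 6 3 2 1 5, .sp 1 5 6 3 2 1 6, .sp 1 5 6 3 2 1 7, .sp 1 5 6 9 2 1 4,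
  .sp 1 5 6 9 2 1 5, .sp 1 5 6 9 2 1 6, .sp 1 5 6 9 2 1 7, .dem 7 1 4 3, .pc 10 7 3, .pc 10 7 9,
  .pc 10 4 3, .pc 10 4 9, .pc 10 3 6, .pc 10 9 6, .gen 6 10 3, .pc 6 10 7]

set_option maxRecDepth 100000 in
theorem E2i_chk : check 4 248 8 [(1, 0, (s1 1)), (2, 0, (m1 0)), (2, 1, (m1 2)), (3, 0, (m1 0)), (3, 1, (s2 1 2)), (4, 0, (m1 1)), (4, 3, (m1 2)), (7, 0, (m1 0)), (7, 4, (nx 1)), (3, 5, (s1 0)), (5, 1, (s2 1 2)), (6, 2, (m1 2)), (6, 5, (m1 1))]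
    6 7 (nx 1) E2i_st = true := by decide +kernel

theorem E2i {m : ℕ} {D : Type} {R : Set (At m) → D → D → Prop} (hG : GR m D R)
    (hR : ∀ e : ℕ → Fin (m + 1), Nm e → Rules 4 (HM R e))
    {i j : Fin (m + 1)} (hi0 : i ≠ 0) (hj0 : j ≠ 0) (hji : j ≠ i)
    {zi q zj u g cu hu X : D} (q0 : R (S1 i) q zi) (q1 : R (M1 0) zj zi) (q2 : R (M1 j) zj q) (q3 : R (M1 0) u zi) (q4 : R (S2 i j) u q) (q5 : R (M1 i) g zi) (q6 : R (M1 j) g u) (q7 : R (M1 0) X zi) (q8 : R (NX i) X g) (q9 : R (S1 0) u cu) (q10 : R (S2 i j) cu q) (q11 : R (M1 j) hu zj) (q12 : R (M1 i) hu cu) :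
    R (NX i) hu X := by
  obtain ⟨e, he, h0, h1, h2⟩ := nam3 hG.m8 0 i j hi0 hj0 hji
  have h := check_sound hG.w hG.m8 hR (Or.inr (by decide +kernel)) he E2i_chk (fun t => [zi, q, zj, u, g, cu, hu, X].getD t zi) ?_
  · exact ((pNX he l1 h1).1 h)
  · simp only [List.forall_mem_cons]
    exact ⟨((pS1 he l1 h1).2 q0), ((pM1 he l0 h0).2 q1), ((pM1 he l2 h2).2 q2), ((pM1 he l0 h0).2 q3), ((pS2 he l1 l2 h1 h2).2 q4), ((pM1 he l1 h1).2 q5), ((pM1 he l2 h2).2 q6), ((pM1 he l0 h0).2 q7), ((pNX he l1 h1).2 q8), ((pS1 he l0 h0).2 q9), ((pS2 he l1 l2 h1 h2).2 q10), ((pM1 he l2 h2).2 q11), ((pM1 he l1 h1).2 q12), by simp⟩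

/-- certificate for `E2j` -/
def E2j_st : List Step := [
  .dem 0 257 1 264, .pc 1 0 8, .pc 1 0 4, .pc 0 1 2, .pc 0 1 8, .pc 2 0 8, .pc 2 0 4, .pc 2 1 8,
  .pc 8 0 3, .pc 8 0 4, .pc 8 0 7, .pc 8 1 3, .pc 4 3 8, .sp 1 3 4 8 1 2 4, .sp 1 3 4 8 1 2 5,
  .sp 1 3 4 8 1 2 6, .sp 1 3 4 8 1 2 7, .pc 4 8 2, .dem 8 257 4 264, .pc 9 8 1, .pc 9 8 2,
  .pc 9 8 3, .pc 9 8 7, .pc 9 4 2, .ra 1 3 4 9 1 2 3 0, .pc 5 3 8, .pc 5 3 4, .pc 5 3 9, .pc 5 1 8,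
  .pc 6 2 0, .pc 6 2 1, .pc 6 2 8, .pc 6 2 9, .pc 6 5 8, .pc 5 8 4, .pc 5 4 9, .pc 9 5 6,
  .sp 1 5 6 8 2 1 4, .sp 1 5 6 8 2 1 5, .sp 1 5 6 8 2 1 6, .sp 1 5 6 8 2 1 7, .sp 1 5 6 9 2 1 4,
  .sp 1 5 6 9 2 1 5, .sp 1 5 6 9 2 1 6, .sp 1 5 6 9 2 1 7, .pc 6 8 0, .gen 0 6 3, .dem 7 1 4 5,
  .pc 10 7 0, .pc 10 7 9, .pc 10 4 0, .pc 10 4 9, .pc 10 0 6, .pc 10 9 6, .gen 6 10 3, .pc 6 10 7]

set_option maxRecDepth 100000 in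
theorem E2j_chk : check 4 248 8 [(1, 0, (s1 1)), (2, 0, (m1 0)), (2, 1, (m1 2)), (3, 0, (m1 0)), (3, 1, (s2 1 2)), (4, 0, (m1 1)), (4, 3, (m1 2)), (7, 0, (m1 0)), (7, 4, (nx 2)), (3, 5, (s1 0)), (5, 1, (s2 1 2)), (6, 2, (m1 2)), (6, 5, (m1 1))]
    6 7 (nx 2) E2j_st = true := by decide +kernel

theorem E2j {m : ℕ} {D : Type} {R : Set (At m) → D → D → Prop} (hG : GR m D R)
    (hR : ∀ e : ℕ → Fin (m + 1), Nm e → Rules 4 (HM R e))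
    {i j : Fin (m + 1)} (hi0 : i ≠ 0) (hj0 : j ≠ 0) (hji : j ≠ i)
    {zi q zj u g cu hu X : D} (q0 : R (S1 i) q zi) (q1 : R (M1 0) zj zi) (q2 : R (M1 j) zj q) (q3 : R (M1 0) u zi) (q4 : R (S2 i j) u q) (q5 : R (M1 i) g zi) (q6 : R (M1 j) g u) (q7 : R (M1 0) X zi) (q8 : R (NX j) X g) (q9 : R (S1 0) u cu) (q10 : R (S2 i j) cu q) (q11 : R (M1 j) hu zj) (q12 : R (M1 i) hu cu) :
    R (NX j) hu X := by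
  obtain ⟨e, he, h0, h1, h2⟩ := nam3 hG.m8 0 i j hi0 hj0 hji
  have h := check_sound hG.w hG.m8 hR (Or.inr (by decide +kernel)) he E2j_chk (fun t => [zi, q, zj, u, g, cu, hu, X].getD t zi) ?_
  · exact ((pNX he l2 h2).1 h)
  · simp only [List.forall_mem_cons]
    exact ⟨((pS1 he l1 h1).2 q0), ((pM1 he l0 h0).2 q1), ((pM1 he l2 h2).2 q2), ((pM1 he l0 h0).2 q3), ((pS2 he l1 l2 h1 h2).2 q4), ((pM1 he l1 h1).2 q5), ((pM1 he l2 h2).2 q6), ((pM1 he l0 h0).2 q7), ((pNX he l2 h2).2 q8), ((pS1 he l0 h0).2 q9), ((pS2 he l1 l2 h1 h2).2 q10), ((pM1 he l2 h2).2 q11), ((pM1 he l1 h1).2 q12), by simp⟩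

/-- certificate for `E2n` -/
def E2n_st : List Step := [
  .dem 0 257 1 264, .dem 0 257 1 272, .pc 1 0 8, .pc 1 0 9, .pc 1 0 4, .pc 0 1 2, .pc 0 1 8,
  .pc 0 1 9, .pc 2 0 9, .pc 2 0 4, .pc 2 1 8, .pc 2 1 9, .pc 8 0 3, .pc 9 0 3, .pc 9 0 4,
  .pc 9 0 7, .pc 9 1 3, .pc 3 0 7, .pc 4 3 9, .sp 1 3 4 9 1 2 3, .sp 1 3 4 9 1 2 5,
  .sp 1 3 4 9 1 2 6, .sp 1 3 4 9 1 2 7, .pc 4 9 2, .dem 9 257 4 272, .pc 10 9 1, .pc 10 9 2,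
  .pc 10 9 3, .pc 10 9 7, .pc 10 4 2, .ra 1 3 4 10 1 2 4 0, .pc 3 5 6, .pc 5 3 8, .pc 5 3 9,
  .pc 5 3 4, .pc 5 3 10, .pc 5 1 8, .pc 5 1 9, .pc 6 2 0, .pc 6 2 1, .pc 6 2 8, .pc 6 2 9,
  .pc 6 2 10, .pc 6 5 8, .pc 6 5 9, .pc 5 9 4, .pc 5 4 10, .pc 10 5 6, .sp 1 5 6 8 2 1 4,
  .sp 1 5 6 8 2 1 5, .sp 1 5 6 8 2 1 6, .sp 1 5 6 8 2 1 7, .sp 1 5 6 9 2 1 3, .sp 1 5 6 9 2 1 5,
  .sp 1 5 6 9 2 1 6, .sp 1 5 6 9 2 1 7, .sp 1 5 6 3 2 1 3, .sp 1 5 6 3 2 1 4, .sp 1 5 6 3 2 1 5,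
  .sp 1 5 6 3 2 1 6, .sp 1 5 6 3 2 1 7, .sp 1 5 6 10 2 1 3, .sp 1 5 6 10 2 1 5, .sp 1 5 6 10 2 1 6,
  .sp 1 5 6 10 2 1 7, .pc 6 8 0, .pc 6 9 0, .gen 0 6 4, .dem 7 1 4 9, .pc 11 7 0, .pc 11 7 3,
  .pc 11 7 10, .pc 11 4 0, .pc 11 4 3, .pc 11 4 10, .pc 11 0 6, .pc 11 3 6, .pc 11 10 6,
  .gen 6 11 4, .pc 6 11 7]

set_option maxRecDepth 100000 in
theorem E2n_chk : check 4 240 8 [(1, 0, (s1 1)), (2, 0, (m1 0)), (2, 1, (m1 2)), (3, 0, (m1 0)), (3, 1, (s2 1 2)), (4, 0, (m1 1)), (4, 3, (m1 2)), (7, 0, (m1 0)), (7, 4, (nx 3)), (3, 5, (s1 0)), (5, 1, (s2 1 2)), (6, 2, (m1 2)), (6, 5, (m1 1))]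
    6 7 (nx 3) E2n_st = true := by decide +kernel

theorem E2n {m : ℕ} {D : Type} {R : Set (At m) → D → D → Prop} (hG : GR m D R)
    (hR : ∀ e : ℕ → Fin (m + 1), Nm e → Rules 4 (HM R e))
    {i j n : Fin (m + 1)} (hi0 : i ≠ 0) (hj0 : j ≠ 0) (hji : j ≠ i) (hn0 : n ≠ 0) (hni : n ≠ i) (hnj : n ≠ j)
    {zi q zj u g cu hu X : D} (q0 : R (S1 i) q zi) (q1 : R (M1 0) zj zi) (q2 : R (M1 j) zj q) (q3 : R (M1 0) u zi) (q4 : R (S2 i j) u q) (q5 : R (M1 i) g zi) (q6 : R (M1 j) g u) (q7 : R (M1 0) X zi) (q8 : R (NX n) X g) (q9 : R (S1 0) u cu) (q10 : R (S2 i j) cu q) (q11 : R (M1 j) hu zj) (q12 : R (M1 i) hu cu) :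
    R (NX n) hu X := by
  obtain ⟨e, he, h0, h1, h2, h3⟩ := nam4 hG.m8 0 i j n hi0 hj0 hji hn0 hni hnj
  have h := check_sound hG.w hG.m8 hR (Or.inr (by decide +kernel)) he E2n_chk (fun t => [zi, q, zj, u, g, cu, hu, X].getD t zi) ?_
  · exact ((pNX he l3 h3).1 h)
  · simp only [List.forall_mem_cons]
    exact ⟨((pS1 he l1 h1).2 q0), ((pM1 he l0 h0).2 q1), ((pM1 he l2 h2).2 q2), ((pM1 he l0 h0).2 q3), ((pS2 he l1 l2 h1 h2).2 q4), ((pM1 he l1 h1).2 q5), ((pM1 he l2 h2).2 q6), ((pM1 he l0 h0).2 q7), ((pNX he l3 h3).2 q8), ((pS1 he l0 h0).2 q9), ((pS2 he l1 l2 h1 h2).2 q10), ((pM1 he l2 h2).2 q11), ((pM1 he l1 h1).2 q12), by simp⟩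

/-- certificate for `E2z` -/
def E2z_st : List Step := [
  .dem 0 257 1 264, .pc 1 0 7, .pc 1 0 4, .pc 0 1 2, .pc 0 1 7, .pc 2 0 7, .pc 2 0 3, .pc 2 0 4,
  .pc 2 1 7, .pc 7 0 3, .pc 7 0 4, .pc 7 1 3, .pc 4 3 7, .sp 1 3 4 7 1 2 4, .sp 1 3 4 7 1 2 5,
  .sp 1 3 4 7 1 2 6, .sp 1 3 4 7 1 2 7, .pc 4 7 2, .gen 2 4 3, .pc 5 3 0, .pc 5 3 2, .pc 5 3 4,
  .pc 6 2 4, .pc 6 2 5, .pc 5 6 4, .pc 0 5 4]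

set_option maxRecDepth 100000 in
theorem E2z_chk : check 4 248 7 [(1, 0, (s1 1)), (2, 0, (m1 0)), (2, 1, (m1 2)), (3, 0, (m1 0)), (3, 1, (s2 1 2)), (4, 0, (m1 1)), (4, 3, (m1 2)), (3, 5, (s1 0)), (6, 5, (m1 1)), (6, 2, 256)]
    0 4 256 E2z_st = true := by decide +kernel

theorem E2z {m : ℕ} {D : Type} {R : Set (At m) → D → D → Prop} (hG : GR m D R)
    (hR : ∀ e : ℕ → Fin (m + 1), Nm e → Rules 4 (HM R e))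
    {i j : Fin (m + 1)} (hi0 : i ≠ 0) (hj0 : j ≠ 0) (hji : j ≠ i)
    {zi q zj u g cu hu : D} (q0 : R (S1 i) q zi) (q1 : R (M1 0) zj zi) (q2 : R (M1 j) zj q) (q3 : R (M1 0) u zi) (q4 : R (S2 i j) u q) (q5 : R (M1 i) g zi) (q6 : R (M1 j) g u) (q7 : R (S1 0) u cu) (q8 : R (M1 i) hu cu) (q9 : R {none} hu zj) :
    R {none} zi g := by
  obtain ⟨e, he, h0, h1, h2⟩ := nam3 hG.m8 0 i j hi0 hj0 hji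
  have h := check_sound hG.w hG.m8 hR (Or.inr (by decide +kernel)) he E2z_chk (fun t => [zi, q, zj, u, g, cu, hu].getD t zi) ?_
  · exact (pId.1 h)
  · simp only [List.forall_mem_cons]
    exact ⟨((pS1 he l1 h1).2 q0), ((pM1 he l0 h0).2 q1), ((pM1 he l2 h2).2 q2), ((pM1 he l0 h0).2 q3), ((pS2 he l1 l2 h1 h2).2 q4), ((pM1 he l1 h1).2 q5), ((pM1 he l2 h2).2 q6), ((pS1 he l0 h0).2 q7), ((pM1 he l1 h1).2 q8), (pId.2 q9), by simp⟩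

end Pool.Agent.W213.LyG
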