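import Pool.Agent.W213.LyG.Sound

/-!
Sets of atoms given by classes, and choice of namings.
-/

set_option autoImplicit false

namespace Pool.Agent.W213.LyG

open Pool.Agent.W213.Ly.Gen

variable {m : ℕ}

/-- identity or one class -/
def M1 (a : Fin (m + 1)) : Set (At m) := {x | x = none ∨ x = some a}
/-- identity or one of two classes -/
def M2 (a b : Fin (m + 1)) : Set (At m) := {x | x = none ∨ x = some a ∨ x = some b}
/-- one class -/
def S1 (a : Fin (m + 1)) : Set (At m) := {x | x = some a}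
/-- one of two classes -/
def S2 (a b : Fin (m + 1)) : Set (At m) := {x | x = some a ∨ x = some b}
/-- one of three classes -/
def S3 (a b c : Fin (m + 1)) : Set (At m) := {x | x = some a ∨ x = some b ∨ x = some c}
/-- neither identity nor class `a` -/
def MX (a : Fin (m + 1)) : Set (At m) := {x | x ≠ none ∧ x ≠ some a}
/-- everything except class `a` -/
def NX (a : Fin (m + 1)) : Set (At m) := {x | x ≠ some a}

theorem ixc_eq_iff {e : ℕ → Fin (m + 1)} (he : Nm e) {k : ℕ} (hk : k < 7) {c : Fin (m + 1)} :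
    ixc e c = k ↔ c = e k :=
  ⟨fun h => (ixc_of_eq hk h).symm, fun h => by rw [h]; exact ixc_named he hk⟩

theorem ex_fresh (hm : 8 ≤ m) (l : List (Fin (m + 1))) (hl : l.length ≤ 8) : ∃ z, z ∉ l := by
  classical
  by_contra h
  push Not at h
  have h1 : (Finset.univ : Finset (Fin (m + 1))) ⊆ l.toFinset := fun z _ => List.mem_toFinset.2 (h z)
  have h2 := Finset.card_le_card h1
  rw [Finset.card_univ, Fintype.card_fin] at h2
  have h3 := List.toFinset_card_le l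
  omega

theorem ex_nm (hm : 8 ≤ m) : ∀ (t : ℕ) (l : List (Fin (m + 1))), l.length + t = 7 → l.Nodup →
    ∃ e : ℕ → Fin (m + 1), Nm e ∧ ∀ i (h : i < l.length), e i = l[i] := by
  intro t
  induction t with
  | zero =>
    intro l hl hnd
    refine ⟨fun i => l.getD i 0, ?_, ?_⟩
    · intro i hi j hj hij
      have hi' : i < l.length := by omega
      have hj' : j < l.length := by omega
      have h1 : l.getD i 0 = l.getD j 0 := hij
      rw [List.getD_eq_getElem _ _ hi', List.getD_eq_getElem _ _ hj'] at h1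
      exact (List.Nodup.getElem_inj_iff hnd).1 h1
    · intro i hi
      exact List.getD_eq_getElem _ _ hi
  | succ t ih =>
    intro l hl hnd
    obtain ⟨z, hz⟩ := ex_fresh hm l (by omega)
    obtain ⟨e, he, h1⟩ := ih (l ++ [z]) (by simp; omega) (by
      rw [List.nodup_append]
      refine ⟨hnd, by simp, ?_⟩
      intro a ha b hb
      rw [List.mem_singleton] at hb
      subst hb
      rintro rfl
      exact hz ha)
    refine ⟨e, he, ?_⟩
    intro i hi
    rw [h1 i (by simp; omega), List.getElem_append_left hi]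

theorem nam1 (hm : 8 ≤ m) (a : Fin (m + 1)) : ∃ e : ℕ → Fin (m + 1), Nm e ∧ e 0 = a := by
  obtain ⟨e, he, h⟩ := ex_nm hm 6 [a] (by simp) (by simp)
  exact ⟨e, he, h 0 (by simp)⟩

theorem nam2 (hm : 8 ≤ m) (a b : Fin (m + 1)) (hba : b ≠ a) :
    ∃ e : ℕ → Fin (m + 1), Nm e ∧ e 0 = a ∧ e 1 = b := by
  obtain ⟨e, he, h⟩ := ex_nm hm 5 [a, b] (by simp) (by simp [hba.symm])
  exact ⟨e, he, h 0 (by simp), h 1 (by simp)⟩

theorem nam3 (hm : 8 ≤ m) (a b c : Fin (m + 1)) (hba : b ≠ a) (hca : c ≠ a) (hcb : c ≠ b) :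
    ∃ e : ℕ → Fin (m + 1), Nm e ∧ e 0 = a ∧ e 1 = b ∧ e 2 = c := by
  obtain ⟨e, he, h⟩ := ex_nm hm 4 [a, b, c] (by simp) (by simp [hba.symm, hca.symm, hcb.symm])
  exact ⟨e, he, h 0 (by simp), h 1 (by simp), h 2 (by simp)⟩

theorem nam4 (hm : 8 ≤ m) (a b c d : Fin (m + 1)) (hba : b ≠ a) (hca : c ≠ a) (hcb : c ≠ b)
    (hda : d ≠ a) (hdb : d ≠ b) (hdc : d ≠ c) :
    ∃ e : ℕ → Fin (m + 1), Nm e ∧ e 0 = a ∧ e 1 = b ∧ e 2 = c ∧ e 3 = d := by
  obtain ⟨e, he, h⟩ := ex_nm hm 3 [a, b, c, d] (by simp)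
    (by simp [hba.symm, hca.symm, hcb.symm, hda.symm, hdb.symm, hdc.symm])
  exact ⟨e, he, h 0 (by simp), h 1 (by simp), h 2 (by simp), h 3 (by simp)⟩

section

variable {e : ℕ → Fin (m + 1)}

theorem bM1 : ∀ a : Fin 7, ∀ t : Fin 9, (m1 a).testBit t = true ↔ (t.1 = 8 ∨ t.1 = a.1) := by
  decide +kernel
theorem bM2 : ∀ a b : Fin 7, ∀ t : Fin 9, (m2 a b).testBit t = true ↔ (t.1 = 8 ∨ t.1 = a.1 ∨ t.1 = b.1) := by
  decide +kernel
theorem bS1 : ∀ a : Fin 7, ∀ t : Fin 9, (s1 a).testBit t = true ↔ (t.1 = a.1) := by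
  decide +kernel
theorem bS2 : ∀ a b : Fin 7, ∀ t : Fin 9, (s2 a b).testBit t = true ↔ (t.1 = a.1 ∨ t.1 = b.1) := by
  decide +kernel
theorem bS3 : ∀ a b c : Fin 7, ∀ t : Fin 9, (s3 a b c).testBit t = true ↔
    (t.1 = a.1 ∨ t.1 = b.1 ∨ t.1 = c.1) := by
  decide +kernel
theorem bMX : ∀ a : Fin 8, ∀ t : Fin 9, (mx a).testBit t = true ↔ (t.1 ≠ 8 ∧ t.1 ≠ a.1) := by
  decide +kernel
theorem bNX : ∀ a : Fin 7, ∀ t : Fin 9, (nx a).testBit t = true ↔ (t.1 ≠ a.1) := by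
  decide +kernel

theorem ix_none : ix e (none : At m) = 8 := rfl

theorem ix_eq8 {x : At m} : ix e x = 8 ↔ x = none := by
  cases x with
  | none => simp [ix]
  | some c => have := ixc_lt e c; simp only [ix, reduceCtorEq, iff_false]; omega

theorem ix_eqk (he : Nm e) {k : ℕ} (hk : k < 7) {a : Fin (m + 1)} (ha : e k = a) {x : At m} :
    ix e x = k ↔ x = some a := by
  cases x with
  | none => simp only [ix, reduceCtorEq, iff_false]; omega
  | some c =>
    simp only [ix, Option.some.injEq]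
    rw [ixc_eq_iff he hk, ha]

theorem dM1 (he : Nm e) {k : ℕ} (hk : k < 7) {a : Fin (m + 1)} (ha : e k = a) : den e (m1 k) = M1 a := by
  ext x
  have h := bM1 ⟨k, hk⟩ ⟨ix e x, ix_lt e x⟩
  simp only at h
  rw [mem_den, h, ix_eq8, ix_eqk he hk ha]
  rfl

theorem dM2 (he : Nm e) {k l : ℕ} (hk : k < 7) (hl : l < 7) {a b : Fin (m + 1)} (ha : e k = a) (hb : e l = b) :
    den e (m2 k l) = M2 a b := by
  ext x
  have h := bM2 ⟨k, hk⟩ ⟨l, hl⟩ ⟨ix e x, ix_lt e x⟩
  simp only at h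
  rw [mem_den, h, ix_eq8, ix_eqk he hk ha, ix_eqk he hl hb]
  rfl

theorem dS1 (he : Nm e) {k : ℕ} (hk : k < 7) {a : Fin (m + 1)} (ha : e k = a) : den e (s1 k) = S1 a := by
  ext x
  have h := bS1 ⟨k, hk⟩ ⟨ix e x, ix_lt e x⟩
  simp only at h
  rw [mem_den, h, ix_eqk he hk ha]
  rfl

theorem dS2 (he : Nm e) {k l : ℕ} (hk : k < 7) (hl : l < 7) {a b : Fin (m + 1)} (ha : e k = a) (hb : e l = b) :
    den e (s2 k l) = S2 a b := by
  ext x
  have h := bS2 ⟨k, hk⟩ ⟨l, hl⟩ ⟨ix e x, ix_lt e x⟩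
  simp only at h
  rw [mem_den, h, ix_eqk he hk ha, ix_eqk he hl hb]
  rfl

theorem dS3 (he : Nm e) {k l n : ℕ} (hk : k < 7) (hl : l < 7) (hn : n < 7) {a b c : Fin (m + 1)}
    (ha : e k = a) (hb : e l = b) (hc : e n = c) : den e (s3 k l n) = S3 a b c := by
  ext x
  have h := bS3 ⟨k, hk⟩ ⟨l, hl⟩ ⟨n, hn⟩ ⟨ix e x, ix_lt e x⟩
  simp only at h
  rw [mem_den, h, ix_eqk he hk ha, ix_eqk he hl hb, ix_eqk he hn hc]
  rfl

theorem dMX (he : Nm e) {k : ℕ} (hk : k < 7) {a : Fin (m + 1)} (ha : e k = a) : den e (mx k) = MX a := by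
  ext x
  have h := bMX ⟨k, by omega⟩ ⟨ix e x, ix_lt e x⟩
  simp only at h
  rw [mem_den, h, ne_eq, ix_eq8, ne_eq, ix_eqk he hk ha]
  rfl

theorem dNX (he : Nm e) {k : ℕ} (hk : k < 7) {a : Fin (m + 1)} (ha : e k = a) : den e (nx k) = NX a := by
  ext x
  have h := bNX ⟨k, hk⟩ ⟨ix e x, ix_lt e x⟩
  simp only at h
  rw [mem_den, h, ne_eq, ix_eqk he hk ha]
  rfl

variable {D : Type} {R : Set (At m) → D → D → Prop} {x y : D}

theorem pM1 (he : Nm e) {k : ℕ} (hk : k < 7) {a : Fin (m + 1)} (ha : e k = a) :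
    HM R e (m1 k) x y ↔ R (M1 a) x y := by unfold HM; rw [dM1 he hk ha]
theorem pM2 (he : Nm e) {k l : ℕ} (hk : k < 7) (hl : l < 7) {a b : Fin (m + 1)} (ha : e k = a)
    (hb : e l = b) : HM R e (m2 k l) x y ↔ R (M2 a b) x y := by unfold HM; rw [dM2 he hk hl ha hb]
theorem pS1 (he : Nm e) {k : ℕ} (hk : k < 7) {a : Fin (m + 1)} (ha : e k = a) :
    HM R e (s1 k) x y ↔ R (S1 a) x y := by unfold HM; rw [dS1 he hk ha]
theorem pS2 (he : Nm e) {k l : ℕ} (hk : k < 7) (hl : l < 7) {a b : Fin (m + 1)} (ha : e k = a)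
    (hb : e l = b) : HM R e (s2 k l) x y ↔ R (S2 a b) x y := by unfold HM; rw [dS2 he hk hl ha hb]
theorem pS3 (he : Nm e) {k l n : ℕ} (hk : k < 7) (hl : l < 7) (hn : n < 7) {a b c : Fin (m + 1)}
    (ha : e k = a) (hb : e l = b) (hc : e n = c) : HM R e (s3 k l n) x y ↔ R (S3 a b c) x y := by
  unfold HM; rw [dS3 he hk hl hn ha hb hc]
theorem pMX (he : Nm e) {k : ℕ} (hk : k < 7) {a : Fin (m + 1)} (ha : e k = a) :
    HM R e (mx k) x y ↔ R (MX a) x y := by unfold HM; rw [dMX he hk ha]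
theorem pNX (he : Nm e) {k : ℕ} (hk : k < 7) {a : Fin (m + 1)} (ha : e k = a) :
    HM R e (nx k) x y ↔ R (NX a) x y := by unfold HM; rw [dNX he hk ha]
theorem pId : HM R e 256 x y ↔ R {none} x y := by unfold HM; rw [den_id]

end

theorem l0 : (0 : ℕ) < 7 := by norm_num
theorem l1 : (1 : ℕ) < 7 := by norm_num
theorem l2 : (2 : ℕ) < 7 := by norm_num
theorem l3 : (3 : ℕ) < 7 := by norm_num
theorem l4 : (4 : ℕ) < 7 := by norm_num
theorem l5 : (5 : ℕ) < 7 := by norm_num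
theorem l6 : (6 : ℕ) < 7 := by norm_num

/-- a weak representation, and there are at least nine classes -/
structure GR (m : ℕ) (D : Type) (R : Set (At m) → D → D → Prop) : Prop where
  w : WRel m D R
  m8 : 8 ≤ m

section

variable {D : Type} {R : Set (At m) → D → D → Prop}

/-- rule `Split` for classes -/
def SplitC (R : Set (At m) → D → D → Prop) : Prop :=
  ∀ a b c : Fin (m + 1), b ≠ a → c ≠ a → c ≠ b → ∀ w p x y : D,
    R (M2 a b) w p → R (M1 a) w x → R (M1 b) x p → R (MX c) w y → R (MX c) p y → R (MX c) x y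

/-- rule `C1` for classes -/
def C1C (R : Set (At m) → D → D → Prop) : Prop :=
  ∀ a b : Fin (m + 1), b ≠ a → ∀ w p x x' : D,
    R (M2 a b) w p → R (M1 a) w x → R (M1 b) x p → R (M1 b) w x' → R (M1 a) x' p → R (M2 a b) x x'

/-- rule `A` for classes, `d ≠ a` -/
def AC1 (R : Set (At m) → D → D → Prop) : Prop :=
  ∀ a b c d : Fin (m + 1), b ≠ a → c ≠ a → c ≠ b → d ≠ b → d ≠ c → d ≠ a →
    ∀ w p x y : D, R (M2 a b) w p → R (M1 a) w x → R (M1 b) x p → R (M1 c) x y → R (M1 d) p y →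
      R (M2 a c) w y

/-- rule `A` for classes, `d = a` -/
def AC2 (R : Set (At m) → D → D → Prop) : Prop :=
  ∀ a b c : Fin (m + 1), b ≠ a → c ≠ a → c ≠ b →
    ∀ w p x y : D, R (M2 a b) w p → R (M1 a) w x → R (M1 b) x p → R (M1 c) x y → R (M1 a) p y →
      R (M2 a c) w y

theorem splitR_of (hG : GR m D R) (h : SplitC R) {e : ℕ → Fin (m + 1)} (he : Nm e) : SplitR (HM R e) := by
  intro a b c ha hb hc hab hac hbc w p x y h1 h2 h3 h4 h5
  have hba : e b ≠ e a := fun hh => hab (he a ha b hb hh.symm)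
  rw [pM2 he ha hb rfl rfl] at h1
  rw [pM1 he ha rfl] at h2
  rw [pM1 he hb rfl] at h3
  by_cases hc7 : c < 7
  · rw [pMX he hc7 rfl] at h4 h5 ⊢
    exact h (e a) (e b) (e c) hba (fun hh => hac (he a ha c hc7 hh.symm))
      (fun hh => hbc (he b hb c hc7 hh.symm)) w p x y h1 h2 h3 h4 h5
  · have hc7' : c = 7 := by omega
    subst hc7'
    have hd : ∀ c : Fin (m + 1), ixc e c = 7 → den e (mx 7) ⊆ MX c := by
      intro c hc z hz
      have hb := bMX ⟨7, by norm_num⟩ ⟨ix e z, ix_lt e z⟩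
      simp only at hb
      rw [mem_den, hb, ne_eq, ix_eq8] at hz
      refine ⟨hz.1, ?_⟩
      rintro rfl
      exact hz.2 hc
    have key : ∀ c : Fin (m + 1), ixc e c = 7 → R (MX c) x y := by
      intro c hc
      have hne : ∀ k < 7, c ≠ e k := by
        intro k hk hh
        rw [hh, ixc_named he hk] at hc
        omega
      exact h (e a) (e b) c hba (hne a ha) (hne b hb) w p x y h1 h2 h3
        (hG.w.mono _ _ _ _ (hd c hc) h4) (hG.w.mono _ _ _ _ (hd c hc) h5)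
    classical
    have h6 := inter_fin hG.w x y (Finset.univ.filter fun c => ixc e c = 7) (by
      intro c hc
      simp only [Finset.mem_filter, Finset.mem_univ, true_and] at hc
      exact hG.w.mono _ _ _ _ (fun z hz => hz.2) (key c hc))
    obtain ⟨u, -, -, hu, -⟩ := two_unnamed hG.m8 e
    have h7 := hG.w.inter _ _ _ _ h6 (key u hu)
    refine hG.w.mono _ _ _ _ ?_ h7
    rintro z ⟨hz1, hz2⟩
    have hb := bMX ⟨7, by norm_num⟩ ⟨ix e z, ix_lt e z⟩
    simp only at hb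
    rw [mem_den, hb, ne_eq, ix_eq8]
    refine ⟨hz2.1, ?_⟩
    intro hz
    cases z with
    | none => simp [ix] at hz
    | some c => exact hz1 c (by simpa [ix] using hz) rfl

theorem c1R_of (h : C1C R) {e : ℕ → Fin (m + 1)} (he : Nm e) : C1R (HM R e) := by
  intro a b ha hb hab w p x x' h1 h2 h3 h4 h5
  rw [pM2 he ha hb rfl rfl] at h1 ⊢
  rw [pM1 he ha rfl] at h2 h5
  rw [pM1 he hb rfl] at h3 h4
  exact h (e a) (e b) (fun hh => hab (he a ha b hb hh.symm)) w p x x' h1 h2 h3 h4 h5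

theorem aR'_of (h : AC1 R) {e : ℕ → Fin (m + 1)} (he : Nm e) : AR' (HM R e) := by
  intro a b c d ha hb hc hd hab hac hbc hbd hcd had w p x y h1 h2 h3 h4 h5
  rw [pM2 he ha hb rfl rfl] at h1
  rw [pM1 he ha rfl] at h2
  rw [pM1 he hb rfl] at h3
  rw [pM1 he hc rfl] at h4
  rw [pM1 he hd rfl] at h5
  rw [pM2 he ha hc rfl rfl]
  exact h (e a) (e b) (e c) (e d) (fun hh => hab (he a ha b hb hh.symm)) (fun hh => hac (he a ha c hc hh.symm))
    (fun hh => hbc (he b hb c hc hh.symm)) (fun hh => hbd (he b hb d hd hh.symm))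
    (fun hh => hcd (he c hc d hd hh.symm)) (fun hh => had (he a ha d hd hh.symm)) w p x y h1 h2 h3 h4 h5

theorem aR_of (h : AC1 R) (h' : AC2 R) {e : ℕ → Fin (m + 1)} (he : Nm e) : AR (HM R e) := by
  intro a b c d ha hb hc hd hab hac hbc hbd hcd w p x y h1 h2 h3 h4 h5
  by_cases had : a = d
  · subst had
    rw [pM2 he ha hb rfl rfl] at h1
    rw [pM1 he ha rfl] at h2 h5
    rw [pM1 he hb rfl] at h3
    rw [pM1 he hc rfl] at h4
    rw [pM2 he ha hc rfl rfl]
    exact h' (e a) (e b) (e c) (fun hh => hab (he a ha b hb hh.symm)) (fun hh => hac (he a ha c hc hh.symm))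
      (fun hh => hbc (he b hb c hc hh.symm)) w p x y h1 h2 h3 h4 h5
  · exact aR'_of h he a b c d ha hb hc hd hab hac hbc hbd hcd had w p x y h1 h2 h3 h4 h5

end

end Pool.Agent.W213.LyG
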