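import Pool.Agent.W213.LyG.Core
import Pool.Agent.W213.Ly.GenStm

/-!
Meaning of the masks, for a naming of seven classes.
-/

set_option autoImplicit false

namespace Pool.Agent.W213.LyG

open Pool.Agent.W213.Ly.Gen

variable {m : ℕ}

/-- a naming of seven classes -/
def Nm (e : ℕ → Fin (m + 1)) : Prop := ∀ i < 7, ∀ j < 7, e i = e j → i = j

open Classical in
/-- index of a class -/
noncomputable def ixc (e : ℕ → Fin (m + 1)) (c : Fin (m + 1)) : ℕ :=
  if h : ∃ k, k < 7 ∧ e k = c then Classical.choose h else 7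

/-- index of an atom -/
noncomputable def ix (e : ℕ → Fin (m + 1)) : At m → ℕ
  | none => 8
  | some c => ixc e c

/-- meaning of a mask -/
def den (e : ℕ → Fin (m + 1)) (S : ℕ) : Set (At m) := {a | S.testBit (ix e a) = true}

theorem mem_den {e : ℕ → Fin (m + 1)} {S : ℕ} {a : At m} : a ∈ den e S ↔ S.testBit (ix e a) = true := Iff.rfl

theorem ixc_spec (e : ℕ → Fin (m + 1)) (c : Fin (m + 1)) :
    (ixc e c < 7 ∧ e (ixc e c) = c) ∨ (ixc e c = 7 ∧ ∀ k < 7, e k ≠ c) := by
  unfold ixc
  by_cases h : ∃ k, k < 7 ∧ e k = c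
  · rw [dif_pos h]
    exact Or.inl (Classical.choose_spec h)
  · rw [dif_neg h]
    refine Or.inr ⟨rfl, fun k hk hc => h ⟨k, hk, hc⟩⟩

theorem ixc_lt (e : ℕ → Fin (m + 1)) (c : Fin (m + 1)) : ixc e c < 8 := by
  rcases ixc_spec e c with h | h <;> omega

theorem ix_lt (e : ℕ → Fin (m + 1)) (a : At m) : ix e a < 9 := by
  cases a with
  | none => simp [ix]
  | some c => have := ixc_lt e c; simp only [ix]; omega

theorem ixc_named {e : ℕ → Fin (m + 1)} (he : Nm e) {k : ℕ} (hk : k < 7) : ixc e (e k) = k := by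
  rcases ixc_spec e (e k) with h | h
  · exact he _ h.1 _ hk h.2
  · exact absurd rfl (h.2 k hk)

theorem ixc_of_eq {e : ℕ → Fin (m + 1)} {c : Fin (m + 1)} {k : ℕ} (hk : k < 7) (h : ixc e c = k) :
    e k = c := by
  rcases ixc_spec e c with h1 | h1
  · rw [← h]; exact h1.2
  · omega

theorem ixc_unnamed {e : ℕ → Fin (m + 1)} {c : Fin (m + 1)} (h : ∀ k < 7, e k ≠ c) : ixc e c = 7 := by
  rcases ixc_spec e c with h1 | h1
  · exact absurd h1.2 (h _ h1.1)
  · exact h1.1

/-- two unnamed classes -/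
theorem two_unnamed (hm : 8 ≤ m) (e : ℕ → Fin (m + 1)) :
    ∃ p q : Fin (m + 1), p ≠ q ∧ ixc e p = 7 ∧ ixc e q = 7 := by
  classical
  have h1 : ((Finset.range 7).image e).card ≤ 7 := by
    calc _ ≤ (Finset.range 7).card := Finset.card_image_le
      _ = 7 := by simp
  have h2 : 1 < (Finset.univ \ (Finset.range 7).image e).card := by
    have := Finset.le_card_sdiff ((Finset.range 7).image e) (Finset.univ : Finset (Fin (m + 1)))
    rw [Finset.card_univ, Fintype.card_fin] at this
    omega
  obtain ⟨p, hp, q, hq, hpq⟩ := Finset.one_lt_card.1 h2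
  refine ⟨p, q, hpq, ixc_unnamed ?_, ixc_unnamed ?_⟩
  · intro k hk h
    rw [Finset.mem_sdiff, Finset.mem_image] at hp
    exact hp.2 ⟨k, Finset.mem_range.2 hk, h⟩
  · intro k hk h
    rw [Finset.mem_sdiff, Finset.mem_image] at hq
    exact hq.2 ⟨k, Finset.mem_range.2 hk, h⟩

/-- an unnamed class different from `r` -/
theorem unnamed_ne (hm : 8 ≤ m) (e : ℕ → Fin (m + 1)) (r : Fin (m + 1)) :
    ∃ p : Fin (m + 1), p ≠ r ∧ ixc e p = 7 := by
  obtain ⟨p, q, hpq, hp, hq⟩ := two_unnamed hm e
  by_cases h : p = r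
  · exact ⟨q, fun h2 => hpq (h.trans h2.symm), hq⟩
  · exact ⟨p, h, hp⟩

/-- mask of the product of two mask atoms -/
def atm (a b : ℕ) : ℕ :=
  if a = 8 then 1 <<< b else if b = 8 then 1 <<< a else
  if a = b then (if a = 7 then 511 else 256 ||| 1 <<< a) else
  if a = 7 then 255 ^^^ 1 <<< b else if b = 7 then 255 ^^^ 1 <<< a else
    255 ^^^ (1 <<< a ||| 1 <<< b)

theorem atm_dec : ∀ i j t : Fin 9, (atm i j).testBit t = true ↔
    ((i.1 = 8 ∧ t.1 = j.1) ∨ (j.1 = 8 ∧ t.1 = i.1) ∨ (i.1 = 7 ∧ j.1 = 7) ∨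
      (i.1 = j.1 ∧ i.1 < 7 ∧ (t.1 = 8 ∨ t.1 = i.1)) ∨
      (i.1 ≠ j.1 ∧ i.1 < 8 ∧ j.1 < 8 ∧ t.1 ≠ 8 ∧ (t.1 = i.1 → i.1 = 7) ∧ (t.1 = j.1 → j.1 = 7))) := by
  decide +kernel

theorem atm_iff {e : ℕ → Fin (m + 1)} (he : Nm e) (hm : 8 ≤ m) {i j : ℕ} (hi : i < 9) (hj : j < 9)
    (c : At m) : (atm i j).testBit (ix e c) = true ↔ ∃ a b, ix e a = i ∧ ix e b = j ∧ AC a b c := by
  have h0 := atm_dec ⟨i, hi⟩ ⟨j, hj⟩ ⟨ix e c, ix_lt e c⟩
  simp only at h0
  rw [h0]
  constructor
  · rintro (⟨rfl, h⟩ | ⟨rfl, h⟩ | ⟨rfl, rfl⟩ | ⟨rfl, h, h1⟩ | ⟨hij, hi8, hj8, ht, h1, h2⟩)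
    · exact ⟨none, c, rfl, h, rfl⟩
    · refine ⟨c, none, h, rfl, ?_⟩
      cases c with
      | none => exact rfl
      | some r => exact rfl
    · cases c with
      | none =>
        obtain ⟨p, q, -, hp, -⟩ := two_unnamed hm e
        refine ⟨some p, some p, hp, hp, ?_⟩
        simp [AC]
      | some r =>
        by_cases hr : ixc e r = 7
        · refine ⟨some r, some r, hr, hr, ?_⟩
          simp [AC]
        · obtain ⟨p, q, hpq, hp, hq⟩ := two_unnamed hm e
          refine ⟨some p, some q, hp, hq, ?_⟩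
          simp only [AC, if_neg hpq]
          refine ⟨by simp, fun h => ?_, fun h => ?_⟩
          · rw [Option.some.inj h] at hr; exact hr hp
          · rw [Option.some.inj h] at hr; exact hr hq
    · refine ⟨some (e i), some (e i), ixc_named he h, ixc_named he h, ?_⟩
      simp only [AC, if_true]
      rcases h1 with h1 | h1
      · cases c with
        | none => exact Or.inl rfl
        | some r => have := ixc_lt e r; simp only [ix] at h1; omega
      · cases c with
        | none => exact Or.inl rfl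
        | some r => right; rw [ixc_of_eq h h1]
    · cases c with
      | none => exact absurd rfl ht
      | some r =>
        have key : ∀ i < 8, (ixc e r = i → i = 7) → ∃ p, p ≠ r ∧ ixc e p = i := by
          intro i hi8 h1
          by_cases hi7 : i = 7
          · obtain ⟨p, hp, hp2⟩ := unnamed_ne hm e r
            exact ⟨p, hp, by rw [hp2, hi7]⟩
          · refine ⟨e i, fun h => hi7 (h1 ?_), ixc_named he (by omega)⟩
            rw [← h]; exact ixc_named he (by omega)
        obtain ⟨p, hp, hp2⟩ := key i hi8 h1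
        obtain ⟨q, hq, hq2⟩ := key j hj8 h2
        refine ⟨some p, some q, hp2, hq2, ?_⟩
        have hpq : p ≠ q := fun h => hij (by rw [← hp2, ← hq2, h])
        simp only [AC, if_neg hpq]
        exact ⟨by simp, fun h => hp (Option.some.inj h).symm, fun h => hq (Option.some.inj h).symm⟩
  · rintro ⟨a, b, rfl, rfl, hac⟩
    cases a with
    | none => exact Or.inl ⟨rfl, by rw [show c = b from hac]⟩
    | some p =>
      cases b with
      | none => exact Or.inr (Or.inl ⟨rfl, by rw [show c = some p from hac]⟩)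
      | some q =>
        right; right
        simp only [AC] at hac
        have hp8 := ixc_lt e p
        have hq8 := ixc_lt e q
        by_cases hpq : p = q
        · subst hpq
          rw [if_pos rfl] at hac
          simp only [ix]
          by_cases hp7 : ixc e p = 7
          · exact Or.inl ⟨hp7, hp7⟩
          · right; left
            refine ⟨trivial, by omega, ?_⟩
            rcases hac with rfl | rfl
            · left; rfl
            · right; rfl
        · rw [if_neg hpq] at hac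
          obtain ⟨hn, hcp, hcq⟩ := hac
          cases c with
          | none => exact absurd rfl hn
          | some r =>
            simp only [ix]
            by_cases h77 : ixc e p = 7 ∧ ixc e q = 7
            · exact Or.inl h77
            · right; right
              have hr8 := ixc_lt e r
              have inj : ∀ u v : Fin (m + 1), u ≠ v → ixc e u = ixc e v → ixc e v = 7 := by
                intro u v huv h
                by_contra h7
                have hv8 := ixc_lt e v
                have hv : ixc e v < 7 := by omega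
                have e1 := ixc_of_eq hv h
                have e2 := ixc_of_eq (e := e) (c := v) hv rfl
                exact huv (e1.symm.trans e2)
              refine ⟨fun h => h77 ?_, hp8, hq8, by omega, ?_, ?_⟩
              · have := inj p q hpq h
                exact ⟨h.trans this, this⟩
              · intro h
                exact inj r p (fun h2 => hcp (by rw [h2])) h
              · intro h
                exact inj r q (fun h2 => hcq (by rw [h2])) h

/-- the row table is correct -/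
theorem row_ok : ((List.range 9).all fun a => (List.range 512).all fun T =>
    Nat.beq (row a T) ((List.range 9).foldl (fun s b => s ||| ((T >>> b) % 2) * atm a b) 0)) = true := by
  decide +kernel

theorem mul_testBit (x y c : ℕ) : ((x % 2) * y).testBit c = (x.testBit 0 && y.testBit c) := by
  rcases Nat.mod_two_eq_zero_or_one x with h | h
  · have h1 : x.testBit 0 = false := by rw [Nat.testBit_zero]; simp [h]
    rw [h, h1]; simp
  · have h1 : x.testBit 0 = true := by rw [Nat.testBit_zero]; simp [h]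
    rw [h, h1]; simp

theorem bit_shift (S a : ℕ) : (S >>> a).testBit 0 = S.testBit a := by
  rw [Nat.testBit_shiftRight]; simp

theorem foldl_testBit (T a c : ℕ) : ∀ (l : List ℕ) (s : ℕ),
    (l.foldl (fun s b => s ||| ((T >>> b) % 2) * atm a b) s).testBit c = true ↔
      s.testBit c = true ∨ ∃ b ∈ l, T.testBit b = true ∧ (atm a b).testBit c = true := by
  intro l
  induction l with
  | nil => intro s; simp
  | cons b l ih =>
    intro s
    rw [List.foldl_cons, ih, Nat.testBit_or, mul_testBit, bit_shift]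
    simp only [Bool.or_eq_true, Bool.and_eq_true, List.mem_cons, exists_eq_or_imp]
    tauto

theorem row_testBit {a : ℕ} (ha : a < 9) (T c : ℕ) :
    (row a T).testBit c = true ↔ ∃ b < 9, T.testBit b = true ∧ (atm a b).testBit c = true := by
  have h0 : row a T = row a (T % 512) := by
    have e : ∀ x : ℕ, row a x =
      Nat.mod (Nat.shiftRight tbl (Nat.mul 9 (Nat.add (Nat.mul 512 a) (x % 512)))) 512 := fun _ => rfl
    rw [e T, e (T % 512), Nat.mod_mod]
  have h1 := row_ok
  rw [List.all_eq_true] at h1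
  have h2 := h1 a (List.mem_range.2 ha)
  rw [List.all_eq_true] at h2
  have h3 := Nat.eq_of_beq_eq_true (h2 (T % 512) (List.mem_range.2 (Nat.mod_lt _ (by norm_num))))
  rw [h0, h3, foldl_testBit]
  simp only [Nat.zero_testBit, Bool.false_eq_true, false_or, List.mem_range]
  constructor
  · rintro ⟨b, hb, h4, h5⟩
    refine ⟨b, hb, ?_, h5⟩
    rw [show (512 : ℕ) = 2 ^ 9 by norm_num, Nat.testBit_mod_two_pow] at h4
    simp only [Bool.and_eq_true] at h4
    exact h4.2
  · rintro ⟨b, hb, h4, h5⟩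
    refine ⟨b, hb, ?_, h5⟩
    rw [show (512 : ℕ) = 2 ^ 9 by norm_num, Nat.testBit_mod_two_pow]
    simp [hb, h4]

theorem comp_testBit (S T c : ℕ) : (comp S T).testBit c = true ↔
    ∃ a < 9, ∃ b < 9, S.testBit a = true ∧ T.testBit b = true ∧ (atm a b).testBit c = true := by
  have h0 : comp S T =
      ((S % 2) * row 0 T ||| (((S >>> 1) % 2) * row 1 T ||| (((S >>> 2) % 2) * row 2 T |||
      (((S >>> 3) % 2) * row 3 T ||| (((S >>> 4) % 2) * row 4 T ||| (((S >>> 5) % 2) * row 5 T |||
      (((S >>> 6) % 2) * row 6 T ||| (((S >>> 7) % 2) * row 7 T ||| ((S >>> 8) % 2) * row 8 T)))))))) := rfl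
  rw [h0]
  simp only [Nat.testBit_or, mul_testBit, bit_shift, Bool.or_eq_true, Bool.and_eq_true,
    row_testBit (show 0 < 9 by norm_num), row_testBit (show 1 < 9 by norm_num),
    row_testBit (show 2 < 9 by norm_num), row_testBit (show 3 < 9 by norm_num),
    row_testBit (show 4 < 9 by norm_num), row_testBit (show 5 < 9 by norm_num),
    row_testBit (show 6 < 9 by norm_num), row_testBit (show 7 < 9 by norm_num),
    row_testBit (show 8 < 9 by norm_num)]
  constructor
  · rintro (⟨h, b, h1, h2⟩ | ⟨h, b, h1, h2⟩ | ⟨h, b, h1, h2⟩ | ⟨h, b, h1, h2⟩ | ⟨h, b, h1, h2⟩ |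
      ⟨h, b, h1, h2⟩ | ⟨h, b, h1, h2⟩ | ⟨h, b, h1, h2⟩ | ⟨h, b, h1, h2⟩)
    · exact ⟨0, by norm_num, b, h1, h, h2⟩
    · exact ⟨1, by norm_num, b, h1, h, h2⟩
    · exact ⟨2, by norm_num, b, h1, h, h2⟩
    · exact ⟨3, by norm_num, b, h1, h, h2⟩
    · exact ⟨4, by norm_num, b, h1, h, h2⟩
    · exact ⟨5, by norm_num, b, h1, h, h2⟩
    · exact ⟨6, by norm_num, b, h1, h, h2⟩
    · exact ⟨7, by norm_num, b, h1, h, h2⟩
    · exact ⟨8, by norm_num, b, h1, h, h2⟩
  · rintro ⟨a, ha, b, h1, h, h2⟩
    interval_cases a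
    · exact Or.inl ⟨h, b, h1, h2⟩
    · exact Or.inr (Or.inl ⟨h, b, h1, h2⟩)
    · exact Or.inr (Or.inr (Or.inl ⟨h, b, h1, h2⟩))
    · exact Or.inr (Or.inr (Or.inr (Or.inl ⟨h, b, h1, h2⟩)))
    · exact Or.inr (Or.inr (Or.inr (Or.inr (Or.inl ⟨h, b, h1, h2⟩))))
    · exact Or.inr (Or.inr (Or.inr (Or.inr (Or.inr (Or.inl ⟨h, b, h1, h2⟩)))))
    · exact Or.inr (Or.inr (Or.inr (Or.inr (Or.inr (Or.inr (Or.inl ⟨h, b, h1, h2⟩))))))
    · exact Or.inr (Or.inr (Or.inr (Or.inr (Or.inr (Or.inr (Or.inr (Or.inl ⟨h, b, h1, h2⟩)))))))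
    · exact Or.inr (Or.inr (Or.inr (Or.inr (Or.inr (Or.inr (Or.inr (Or.inr ⟨h, b, h1, h2⟩)))))))

theorem den_comp {e : ℕ → Fin (m + 1)} (he : Nm e) (hm : 8 ≤ m) (S T : ℕ) :
    den e (comp S T) = cmpS (den e S) (den e T) := by
  ext c
  rw [mem_den, comp_testBit]
  constructor
  · rintro ⟨a, ha, b, hb, h1, h2, h3⟩
    rw [atm_iff he hm ha hb] at h3
    obtain ⟨a', b', rfl, rfl, h4⟩ := h3
    exact ⟨a', h1, b', h2, h4⟩
  · rintro ⟨a, h1, b, h2, h3⟩
    exact ⟨_, ix_lt e a, _, ix_lt e b, h1, h2, (atm_iff he hm (ix_lt e a) (ix_lt e b) c).2 ⟨a, b, rfl, rfl, h3⟩⟩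

theorem den_inter (e : ℕ → Fin (m + 1)) (S T : ℕ) : den e (S &&& T) = den e S ∩ den e T := by
  ext a
  simp [mem_den, Nat.testBit_and]

theorem den_full (e : ℕ → Fin (m + 1)) : den e 511 = Set.univ := by
  ext a
  simp only [mem_den, Set.mem_univ, iff_true]
  have := ix_lt e a
  interval_cases h : ix e a <;> decide +kernel

theorem den_zero (e : ℕ → Fin (m + 1)) : den e 0 = ∅ := by
  ext a
  simp [mem_den]

theorem den_mono {e : ℕ → Fin (m + 1)} {S T : ℕ} (h : S &&& T = S) : den e S ⊆ den e T := by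
  rw [← h, den_inter]
  exact Set.inter_subset_right

theorem den_id (e : ℕ → Fin (m + 1)) : den e 256 = {none} := by
  ext a
  rw [mem_den, Set.mem_singleton_iff]
  cases a with
  | none => simp only [ix, iff_true]; decide +kernel
  | some c =>
    simp only [ix, reduceCtorEq, iff_false]
    have := ixc_lt e c
    interval_cases h : ixc e c <;> decide +kernel

/-- mask relations -/
structure MWR {D : Type} (H : ℕ → D → D → Prop) : Prop where
  full : ∀ x y, H 511 x y
  zero : ∀ x y, ¬ H 0 x y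
  inter : ∀ {S T x y}, H S x y → H T x y → H (S &&& T) x y
  mono : ∀ {S T x y}, S &&& T = S → H S x y → H T x y
  symm : ∀ {S x y}, H S x y → H S y x
  idl : ∀ x, H 256 x x
  ideq : ∀ {x y}, H 256 x y → x = y
  cmp : ∀ {S T x y z}, H S x y → H T y z → H (comp S T) x z
  dem : ∀ {S T x z}, H (comp S T) x z → ∃ y, H S x y ∧ H T y z

/-- mask relations of a weak representation and a naming -/
def HM {D : Type} (R : Set (At m) → D → D → Prop) (e : ℕ → Fin (m + 1)) (S : ℕ) (x y : D) : Prop :=
  R (den e S) x y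

theorem hm_mwr {D : Type} {R : Set (At m) → D → D → Prop} (hW : WRel m D R) (hm : 8 ≤ m)
    {e : ℕ → Fin (m + 1)} (he : Nm e) : MWR (HM R e) where
  full x y := by unfold HM; rw [den_full]; exact hW.full x y
  zero x y := by unfold HM; rw [den_zero]; exact hW.zero x y
  inter h1 h2 := by unfold HM; rw [den_inter]; exact hW.inter _ _ _ _ h1 h2
  mono h h1 := hW.mono _ _ _ _ (den_mono h) h1
  symm h := hW.symm _ _ _ h
  idl x := by unfold HM; rw [den_id]; exact (hW.ident x x).2 rfl
  ideq {x y} h := by unfold HM at h; rw [den_id] at h; exact (hW.ident x y).1 h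
  cmp h1 h2 := by unfold HM; rw [den_comp he hm]; exact (hW.comp _ _ _ _).2 ⟨_, h1, h2⟩
  dem h := by unfold HM at h; rw [den_comp he hm] at h; exact (hW.comp _ _ _ _).1 h

end Pool.Agent.W213.LyG
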