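import Pool.Agent.W213.LyG.Rules
import Pool.Agent.W213.LyG.CertFr1
import Pool.Agent.W213.LyG.CertFr2
import Pool.Agent.W213.LyG.CertFr3
import Pool.Agent.W213.LyG.CertFr4
import Pool.Agent.W213.LyG.CertF

/-! Frames: splitting by elimination. -/

set_option autoImplicit false

namespace Pool.Agent.W213.LyG

open Pool.Agent.W213.Ly.Gen

variable {m : ℕ} {D : Type} {R : Set (At m) → D → D → Prop}

/-! ### Small facts -/

theorem GR.symm (hG : GR m D R) {S : Set (At m)} {x y : D} (h : R S x y) : R S y x := hG.w.symm _ _ _ h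

theorem GR.idl (hG : GR m D R) (x : D) : R {none} x x := (hG.w.ident x x).2 rfl

theorem GR.ideq (hG : GR m D R) {x y : D} (h : R {none} x y) : x = y := (hG.w.ident x y).1 h

/-- relations are extensional in the set, for inclusion -/
theorem GR.sub (hG : GR m D R) {S T : Set (At m)} (hs : S ⊆ T) {x y : D} (h : R S x y) : R T x y :=
  hG.w.mono _ _ _ _ hs h

theorem GR.cmp (hG : GR m D R) {S T : Set (At m)} {x y z : D} (h1 : R S x y) (h2 : R T y z) :
    R (cmpS S T) x z := (hG.w.comp _ _ _ _).2 ⟨y, h1, h2⟩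

theorem GR.dem (hG : GR m D R) {S T U : Set (At m)} {x z : D} (hs : U ⊆ cmpS S T) (h : R U x z) :
    ∃ y, R S x y ∧ R T y z := (hG.w.comp _ _ _ _).1 (hG.sub hs h)

theorem line_trans (hG : GR m D R) {c : Fin (m + 1)} {x y z : D} (h1 : R (M1 c) x y)
    (h2 : R (M1 c) y z) : R (M1 c) x z := by
  refine hG.sub ?_ (hG.cmp h1 h2)
  rintro w ⟨a, ha, b, hb, hw⟩
  rcases ha with rfl | rfl
  · rcases hb with rfl | rfl
    · left; exact hw
    · right; exact hw
  · rcases hb with rfl | rfl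
    · right; exact hw
    · simp only [AC, if_true] at hw
      exact hw

theorem line_refl (hG : GR m D R) (c : Fin (m + 1)) (x : D) : R (M1 c) x x :=
  hG.sub (fun w hw => Or.inl hw) (hG.idl x)

theorem meet_eq (hG : GR m D R) {c d : Fin (m + 1)} (hcd : c ≠ d) {x y : D}
    (h1 : R (M1 c) x y) (h2 : R (M1 d) x y) : x = y := by
  apply hG.ideq
  refine hG.sub ?_ (hG.w.inter _ _ _ _ h1 h2)
  rintro w ⟨hw1, hw2⟩
  rcases hw1 with rfl | rfl
  · rfl
  · rcases hw2 with h | h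
    · simp at h
    · exact absurd (Option.some.inj h) hcd

theorem meet_ex (hG : GR m D R) {c d : Fin (m + 1)} (hcd : c ≠ d) (x y : D) :
    ∃ p, R (M1 c) x p ∧ R (M1 d) p y := by
  refine hG.dem (U := Set.univ) ?_ (hG.w.full x y)
  intro w _
  -- all atoms are in the product
  cases w with
  | none => exact ⟨none, Or.inl rfl, none, Or.inl rfl, rfl⟩
  | some r =>
    by_cases h1 : r = c
    · subst h1
      exact ⟨some r, Or.inr rfl, none, Or.inl rfl, rfl⟩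
    · by_cases h2 : r = d
      · subst h2
        exact ⟨none, Or.inl rfl, some r, Or.inr rfl, rfl⟩
      · refine ⟨some c, Or.inr rfl, some d, Or.inr rfl, ?_⟩
        simp only [AC, if_neg hcd]
        exact ⟨by simp, fun h => h1 (Option.some.inj h), fun h => h2 (Option.some.inj h)⟩

theorem s1_m1 (hG : GR m D R) {c : Fin (m + 1)} {x y : D} (h : R (S1 c) x y) : R (M1 c) x y :=
  hG.sub (fun _ hw => Or.inr hw) h

theorem m1_nx (hG : GR m D R) {c d : Fin (m + 1)} (hcd : c ≠ d) {x y : D}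
    (h : R (M1 c) x y) : R (NX d) x y := by
  refine hG.sub ?_ h
  rintro w (rfl | rfl)
  · simp [NX]
  · intro h
    exact hcd (Option.some.inj h)

theorem comb_gen (hG : GR m D R) {T : Set (At m)} {x y : D} (F : Finset (Fin (m + 1)))
    (h : ∀ c ∈ F, R (NX c) x y) (hT : ∀ w : At m, (∀ c ∈ F, w ≠ some c) → w ∈ T) : R T x y :=
  hG.sub hT (inter_fin hG.w x y F h)

theorem comb_s2 (hG : GR m D R) {i j : Fin (m + 1)} {x y : D} (h0 : R (MX 0) x y)
    (h : ∀ n, n ≠ 0 → n ≠ i → n ≠ j → R (NX n) x y) : R (S2 i j) x y := by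
  classical
  have h1 := comb_gen hG (T := {w : At m | w = none ∨ w = some 0 ∨ w = some i ∨ w = some j})
    (x := x) (y := y) (Finset.univ.filter fun n => n ≠ 0 ∧ n ≠ i ∧ n ≠ j) (by
      intro n hn
      simp only [Finset.mem_filter, Finset.mem_univ, true_and] at hn
      exact h n hn.1 hn.2.1 hn.2.2) (by
      intro w hw
      cases w with
      | none => left; rfl
      | some r =>
        by_contra hcon
        have : r ≠ 0 ∧ r ≠ i ∧ r ≠ j := by
          refine ⟨?_, ?_, ?_⟩ <;> rintro rfl <;> apply hcon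
          · exact Or.inr (Or.inl rfl)
          · exact Or.inr (Or.inr (Or.inl rfl))
          · exact Or.inr (Or.inr (Or.inr rfl))
        exact hw r (by simp [this]) rfl)
  refine hG.sub ?_ (hG.w.inter _ _ _ _ h0 h1)
  rintro w ⟨⟨hw1, hw2⟩, hw3⟩
  rcases hw3 with hw3 | hw3 | hw3 | hw3
  · exact absurd hw3 hw1
  · exact absurd hw3 hw2
  · exact Or.inl hw3
  · exact Or.inr hw3

theorem comb_m2 (hG : GR m D R) {j : Fin (m + 1)} {x y : D}
    (h : ∀ n, n ≠ 0 → n ≠ j → R (NX n) x y) : R (M2 0 j) x y := by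
  classical
  refine comb_gen hG (Finset.univ.filter fun n => n ≠ 0 ∧ n ≠ j) ?_ ?_
  · intro n hn
    simp only [Finset.mem_filter, Finset.mem_univ, true_and] at hn
    exact h n hn.1 hn.2
  · intro w hw
    cases w with
    | none => left; rfl
    | some r =>
      by_contra hcon
      have : r ≠ 0 ∧ r ≠ j := by
        refine ⟨?_, ?_⟩ <;> rintro rfl <;> apply hcon
        · exact Or.inr (Or.inl rfl)
        · exact Or.inr (Or.inr rfl)
      exact hw r (by simp [this]) rfl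

/-- `(a ; b)` contains the atom -/
theorem ac_ne {i j r : Fin (m + 1)} (hij : i ≠ j) (hri : r ≠ i) (hrj : r ≠ j) :
    AC (some i) (some j) (some r) := by
  simp only [AC, if_neg hij]
  exact ⟨by simp, fun h => hri (Option.some.inj h), fun h => hrj (Option.some.inj h)⟩

theorem ac_same {i : Fin (m + 1)} : AC (some i) (some i) (some i) := by simp [AC]

theorem ac_none {i : Fin (m + 1)} : AC (some i) (some i) none := by simp [AC]

theorem dem_ij (hG : GR m D R) {i j : Fin (m + 1)} (hi0 : i ≠ 0) (hj0 : j ≠ 0)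
    (hji : j ≠ i) {x y : D} (h0 : R (MX 0) x y) : ∃ b, R (S1 0) x b ∧ R (S2 i j) b y := by
  refine hG.dem ?_ h0
  rintro w ⟨hw1, hw2⟩
  cases w with
  | none => exact absurd rfl hw1
  | some r =>
    have hr0 : r ≠ 0 := fun h => hw2 (by rw [h])
    by_cases hri : r = i
    · subst hri
      exact ⟨some 0, rfl, some j, Or.inr rfl, ac_ne hj0.symm hr0 hji.symm⟩
    · exact ⟨some 0, rfl, some i, Or.inl rfl, ac_ne hi0.symm hr0 hri⟩

theorem dem_x (hG : GR m D R) {i j : Fin (m + 1)} (hi0 : i ≠ 0) (hj0 : j ≠ 0)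
    (hji : j ≠ i) (x y : D) : ∃ b, R (S1 0) x b ∧ R (S3 0 i j) b y := by
  refine hG.dem (U := Set.univ) ?_ (hG.w.full x y)
  intro w _
  cases w with
  | none => exact ⟨some 0, rfl, some 0, Or.inl rfl, ac_none⟩
  | some r =>
    by_cases hr0 : r = 0
    · subst hr0
      exact ⟨some 0, rfl, some 0, Or.inl rfl, ac_same⟩
    · by_cases hri : r = i
      · subst hri
        exact ⟨some 0, rfl, some j, Or.inr (Or.inr rfl), ac_ne hj0.symm hr0 hji.symm⟩
      · exact ⟨some 0, rfl, some i, Or.inr (Or.inl rfl), ac_ne hi0.symm hr0 hri⟩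

theorem dem_w (hG : GR m D R) {i j : Fin (m + 1)} (hi0 : i ≠ 0) (hj0 : j ≠ 0)
    (hji : j ≠ i) {x y : D} (h0 : R (S3 0 i j) x y) : ∃ b, R (S1 0) x b ∧ R (M2 i j) b y := by
  refine hG.dem ?_ h0
  rintro w (rfl | rfl | rfl)
  · exact ⟨some 0, rfl, none, Or.inl rfl, rfl⟩
  · exact ⟨some 0, rfl, some j, Or.inr (Or.inr rfl), ac_ne hj0.symm hi0 hji.symm⟩
  · exact ⟨some 0, rfl, some i, Or.inr (Or.inl rfl), ac_ne hi0.symm hj0 hji⟩

theorem s2_mx0 (hG : GR m D R) {i j : Fin (m + 1)} (hi0 : i ≠ 0) (hj0 : j ≠ 0)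
    {x y : D} (h0 : R (S2 i j) x y) : R (MX 0) x y := by
  refine hG.sub ?_ h0
  rintro w (rfl | rfl)
  · exact ⟨by simp, fun h => hi0 (Option.some.inj h)⟩
  · exact ⟨by simp, fun h => hj0 (Option.some.inj h)⟩

theorem s1_s2 (hG : GR m D R) {j : Fin (m + 1)} {x y : D} (h0 : R (S1 j) x y) : R (S2 0 j) x y :=
  hG.sub (fun _ hw => Or.inr hw) h0

theorem s2_comm (i j : Fin (m + 1)) : (S2 i j : Set (At m)) = S2 j i := by
  ext w
  exact Or.comm

theorem m2_comm (i j : Fin (m + 1)) : (M2 i j : Set (At m)) = M2 j i := by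
  ext w
  show _ ∨ _ ∨ _ ↔ _ ∨ _ ∨ _
  tauto

/-! ### Frames -/

/-- a frame: a point `q` and the points `z l` of the line `κ` of class `0` -/
structure Frame (R : Set (At m) → D → D → Prop) (q : D) (z : Fin (m + 1) → D) : Prop where
  hq : ∀ l, l ≠ 0 → R (S1 l) q (z l)
  hz : ∀ k l, k ≠ 0 → l ≠ 0 → R (M1 0) (z k) (z l)

/-- `X` lies on `κ` -/
def OnK (R : Set (At m) → D → D → Prop) (z : Fin (m + 1) → D) (X : D) : Prop :=
  ∀ l, l ≠ 0 → R (M1 0) X (z l)

/-- elements with base `i` -/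
def El (R : Set (At m) → D → D → Prop) (q : D) (z : Fin (m + 1) → D) (i : Fin (m + 1)) (G : D) : Prop :=
  R (M1 i) G q ∧ ∀ j, j ≠ 0 → j ≠ i → R (S2 0 j) G (z j)

/-- the order of elements -/
def Le (R : Set (At m) → D → D → Prop) (z : Fin (m + 1) → D) (G' G : D) : Prop :=
  ∀ X, OnK R z X → ∀ n, n ≠ 0 → R (NX n) X G → R (NX n) X G'

theorem Le.refl (z : Fin (m + 1) → D) (G : D) : Le R z G G := fun _ _ _ _ h => h

theorem Le.trans {z : Fin (m + 1) → D} {G G' G'' : D} (h1 : Le R z G'' G') (h2 : Le R z G' G) : Le R z G'' G :=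
  fun X hX n hn h => h1 X hX n hn (h2 X hX n hn h)

theorem onK_of (hG : GR m D R) {q : D} {z : Fin (m + 1) → D} (hF : Frame R q z) {i : Fin (m + 1)}
    (hi0 : i ≠ 0) {X : D} (h : R (M1 0) X (z i)) : OnK R z X := fun l hl =>
  line_trans hG h (hF.hz i l hi0 hl)

section

variable {q : D} {z : Fin (m + 1) → D} {i j : Fin (m + 1)}

theorem l1z (hG : GR m D R) (hi0 : i ≠ 0) {zi u : D} (q0 : R (S1 i) q zi) (q1 : R (M1 0) u zi) :
    R (MX 0) q u := by
  have := L1z hG (rules4 hG) hi0 q0 q1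
  exact this

theorem sup_ex (hG : GR m D R) (hF : Frame R q z) (hi0 : i ≠ 0) (hj0 : j ≠ 0)
    (hji : j ≠ i) {G : D} (hE : El R q z i G) :
    ∃ u, OnK R z u ∧ R (M1 j) u G ∧ R (S2 i j) u q := by
  obtain ⟨u, h1, h2⟩ := meet_ex hG (c := 0) (d := j) hj0.symm (z i) G
  have hK : OnK R z u := onK_of hG hF hi0 (hG.symm h1)
  refine ⟨u, hK, h2, comb_s2 hG ?_ ?_⟩
  · exact hG.symm (L1z hG (rules4 hG) hi0 (hF.hq i hi0) (hK i hi0))
  · intro n hn0 hni hnj
    exact L1k hG (rules4 hG) hi0 hj0 hji hn0 hni hnj (hF.hq n hn0) (hF.hz i n hi0 hn0)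
      (hE.2 n hn0 hni) (hK i hi0) h2

theorem el_of_sup (hG : GR m D R) (hF : Frame R q z) (hi0 : i ≠ 0) (hj0 : j ≠ 0)
    (hji : j ≠ i) {u g : D} (hu : OnK R z u) (h1 : R (S2 i j) u q) (h2 : R (M1 i) g (z i))
    (h3 : R (M1 j) g u) : El R q z i g := by
  refine ⟨hG.symm (L2q hG (rules4 hG) hi0 (hF.hq i hi0) h2), ?_⟩
  intro n hn0 hni
  by_cases hnj : n = j
  · subst hnj
    exact hG.symm (L2a hG (rules4 hG) hi0 hj0 hji (hF.hq i hi0) (hF.hz n i hn0 hi0)
      (s1_m1 hG (hG.symm (hF.hq n hn0))) (hu i hi0) h1 h2 h3)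
  · exact L2b hG (rules4 hG) hi0 hj0 hji hn0 hni hnj (hF.hq i hi0) (hF.hz n i hn0 hi0)
      (s1_m1 hG (hG.symm (hF.hq n hn0))) (hu i hi0) h1 h2 h3

theorem el_zi (hG : GR m D R) (hF : Frame R q z) (hi0 : i ≠ 0) {G : D}
    (hE : El R q z i G) : R (M1 i) G (z i) :=
  line_trans hG hE.1 (s1_m1 hG (hF.hq i hi0))

theorem le_E1 (hG : GR m D R) (hF : Frame R q z) (hi0 : i ≠ 0) (hj0 : j ≠ 0)
    (hji : j ≠ i) {u g w gw : D} (hu : OnK R z u) (hu1 : R (S2 i j) u q) (hg : R (M1 i) g (z i))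
    (hg1 : R (M1 j) g u) (hw : OnK R z w) (hw1 : R (S2 i j) w q) (hgw : R (M1 i) gw (z i))
    (hgw1 : R (M1 j) gw w) (hm : R (M2 i j) w g) : Le R z gw g := by
  intro X hX n hn0 h
  by_cases hni : n = i
  · subst hni
    exact hG.symm (E1i hG (rules4 hG) hi0 hj0 hji (hF.hq n hi0) (hF.hz j n hj0 hn0)
      (s1_m1 hG (hG.symm (hF.hq j hj0))) (hu n hn0) hu1 hg hg1 (hw n hn0) hw1 hgw hgw1 hm
      (hX n hn0) h)
  · by_cases hnj : n = j
    · subst hnj
      exact hG.symm (E1j hG (rules4 hG) hi0 hj0 hji (q := q) hg (hw i hi0) hgw hgw1 hm (hX i hi0) h)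
    · exact hG.symm (E1n hG (rules4 hG) hi0 hj0 hji hn0 hni hnj hg (hw i hi0) hgw hgw1 hm
        (hX i hi0) h)

/-- base change -/
theorem base_change (hG : GR m D R) (hF : Frame R q z) (hi0 : i ≠ 0)
    (hj0 : j ≠ 0) (hji : j ≠ i) {G : D} (hE : El R q z i G) (hne : G ≠ z i) :
    ∃ G', El R q z j G' ∧ G' ≠ z j ∧ Le R z G' G := by
  obtain ⟨u, huK, huG, huq⟩ := sup_ex hG hF hi0 hj0 hji hE
  obtain ⟨cu, hcu1, hcu2⟩ := dem_ij hG hi0 hj0 hji (s2_mx0 hG hi0 hj0 huq)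
  have hcuK : OnK R z cu := onK_of hG hF hi0 (BK hG (rules4 hG) hi0 hcu1 (huK i hi0))
  obtain ⟨hu, hhu1, hhu2⟩ := meet_ex hG hji (z j) cu
  have hGz := el_zi hG hF hi0 hE
  have q1 := hF.hz j i hj0 hi0
  have q2 := s1_m1 hG (hG.symm (hF.hq j hj0))
  refine ⟨hu, ?_, ?_, ?_⟩
  · exact el_of_sup hG hF hj0 hi0 hji.symm hcuK (s2_comm i j ▸ hcu2) (hG.symm hhu1) hhu2
  · intro he
    apply hne
    have : R {none} hu (z j) := by rw [he]; exact hG.idl _
    exact (hG.ideq (E2z hG (rules4 hG) hi0 hj0 hji (hF.hq i hi0) q1 q2 (huK i hi0) huq hGz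
      (hG.symm huG) hcu1 hhu2 this)).symm
  · intro X hX n hn0 h
    by_cases hni : n = i
    · subst hni
      exact hG.symm (E2i hG (rules4 hG) hi0 hj0 hji (hF.hq n hn0) q1 q2 (huK n hn0) huq hGz
        (hG.symm huG) (hX n hn0) h hcu1 hcu2 (hG.symm hhu1) hhu2)
    · by_cases hnj : n = j
      · subst hnj
        exact hG.symm (E2j hG (rules4 hG) hi0 hj0 hji (hF.hq i hi0) q1 q2 (huK i hi0) huq hGz
          (hG.symm huG) (hX i hi0) h hcu1 hcu2 (hG.symm hhu1) hhu2)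
      · exact hG.symm (E2n hG (rules4 hG) hi0 hj0 hji hn0 hni hnj (hF.hq i hi0) q1 q2
          (huK i hi0) huq hGz (hG.symm huG) (hX i hi0) h hcu1 hcu2 (hG.symm hhu1) hhu2)

theorem s1_s1 (hG : GR m D R) {x y w : D} (h1 : R (S1 0) x y) (h2 : R (S1 0) y w) : R (M1 0) x w := by
  refine hG.sub ?_ (hG.cmp h1 h2)
  rintro v ⟨a, rfl, b, rfl, hv⟩
  simp only [AC, if_true] at hv
  exact hv

/-- splitting: exclude one of the two classes `i`, `j` -/
theorem split_ij (hG : GR m D R) (hF : Frame R q z) (hi0 : i ≠ 0)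
    (hj0 : j ≠ 0) (hji : j ≠ i) {G X : D} (hE : El R q z i G) (hne : G ≠ z i) (hX : OnK R z X) :
    ∃ G', El R q z i G' ∧ G' ≠ z i ∧ Le R z G' G ∧ (R (NX i) X G' ∨ R (NX j) X G') := by
  obtain ⟨u, huK, huG, huq⟩ := sup_ex hG hF hi0 hj0 hji hE
  have hGz := el_zi hG hF hi0 hE
  have hqi := hF.hq i hi0
  obtain ⟨v, hv1, hv2⟩ := dem_ij hG hi0 hj0 hji
    (hG.symm (L1z hG (rules4 hG) hi0 hqi (hX i hi0)))
  have hvK : OnK R z v := onK_of hG hF hi0 (BK hG (rules4 hG) hi0 hv1 (hX i hi0))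
  obtain ⟨gv, hgv1, hgv2⟩ := meet_ex hG hji.symm (z i) v
  obtain ⟨p, hp1, hp2⟩ := meet_ex hG hji u v
  obtain ⟨x, hx1, hx2⟩ := dem_x hG hi0 hj0 hji (z i) p
  obtain ⟨w, hw1, hw2⟩ := dem_w hG hi0 hj0 hji hx2
  obtain ⟨gw, hgw1, hgw2⟩ := meet_ex hG hji.symm (z i) w
  have hwz : R (M1 0) w (z i) := s1_s1 hG (hG.symm hw1) (hG.symm hx1)
  have hwK : OnK R z w := onK_of hG hF hi0 hwz
  have hwq := Mq hG (rules4 hG) hi0 hj0 hji hqi (huK i hi0) huq (hvK i hi0) hv2 (hG.symm hp1) hp2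
    hx1 hw1 hw2
  have hwg := Mu hG (rules4 hG) hi0 hj0 hji hqi (huK i hi0) huq hGz (hG.symm huG) (hvK i hi0) hv2
    (hG.symm hp1) hp2 hx1 hx2 hw1 hw2 (hG.symm hgw1) hgw2
  have hwgv := Mv hG (rules4 hG) hi0 hj0 hji hqi (huK i hi0) huq (hvK i hi0) hv2 (hG.symm hgv1)
    hgv2 (hG.symm hp1) hp2 hx1 hx2 hw1 hw2 (hG.symm hgw1) hgw2
  by_cases hwe : w = z i
  · refine ⟨G, hE, hne, Le.refl z G, Or.inl ?_⟩
    have h1 : R (M2 i j) p (z i) := by
      rw [← hwe]; exact hG.symm hw2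
    have h2 := E3 hG (rules4 hG) hi0 hj0 hji hGz (hG.symm huG) (hvK i hi0) (hG.symm hp1) hp2 h1
    exact XB hG (rules4 hG) hi0 hv1 (hG.symm h2)
  · refine ⟨gw, el_of_sup hG hF hi0 hj0 hji hwK (hG.symm hwq) (hG.symm hgw1) hgw2, ?_, ?_, Or.inr ?_⟩
    · intro he
      apply hwe
      apply hG.ideq
      exact W1 hG (rules4 hG) hi0 hj0 hji hgw2 hwz (by rw [he]; exact hG.idl _)
    · exact le_E1 hG hF hi0 hj0 hji huK huq hGz (hG.symm huG) hwK (hG.symm hwq) (hG.symm hgw1) hgw2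
        (hG.symm hwg)
    · have hle := le_E1 hG hF hi0 hj0 hji hvK hv2 (hG.symm hgv1) hgv2 hwK (hG.symm hwq) (hG.symm hgw1) hgw2
        hwgv
      have h1 : R (M2 0 j) v gw := by
        apply comb_m2 hG
        intro n hn0 hnj
        exact hle v hvK n hn0 (m1_nx hG hnj.symm (hG.symm hgv2))
      exact XB hG (rules4 hG) hj0 hv1 h1

end

/-- `X` is decided on `G` -/
def Dec (R : Set (At m) → D → D → Prop) (X G : D) : Prop :=
  ∃ n, n ≠ 0 ∧ ∀ k, k ≠ 0 → k ≠ n → R (NX k) X G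

theorem Dec.mono {z : Fin (m + 1) → D} {X G G' : D} (hX : OnK R z X) (h : Dec R X G) (hle : Le R z G' G) :
    Dec R X G' := by
  obtain ⟨n, h1, h3⟩ := h
  exact ⟨n, h1, fun k hk hkn => hle X hX k hk (h3 k hk hkn)⟩

open Classical in
/-- the classes which are not excluded -/
noncomputable def bad (R : Set (At m) → D → D → Prop) (X G : D) : Finset (Fin (m + 1)) :=
  Finset.univ.filter fun k => k ≠ 0 ∧ ¬ R (NX k) X G

theorem mem_bad {X G : D} {k : Fin (m + 1)} : k ∈ bad R X G ↔ k ≠ 0 ∧ ¬ R (NX k) X G := by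
  classical
  unfold bad
  rw [Finset.mem_filter]
  simp

theorem dec_one (hG : GR m D R) {q : D} {z : Fin (m + 1) → D} (hF : Frame R q z) {X : D} (hX : OnK R z X)
    {o : Fin (m + 1)} (ho : o ≠ 0) :
    ∀ (N : ℕ) (i : Fin (m + 1)) (G : D), i ≠ 0 → El R q z i G → G ≠ z i → (bad R X G).card ≤ N →
      ∃ i' G', i' ≠ 0 ∧ El R q z i' G' ∧ G' ≠ z i' ∧ Le R z G' G ∧ Dec R X G' := by
  intro N
  induction N with
  | zero =>
    intro i G hi0 hE hne hc
    refine ⟨i, G, hi0, hE, hne, Le.refl z G, o, ho, ?_⟩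
    intro k hk _
    by_contra hcon
    have : k ∈ bad R X G := mem_bad.2 ⟨hk, hcon⟩
    have h2 := Finset.card_pos.2 ⟨k, this⟩
    omega
  | succ N ih =>
    intro i G hi0 hE hne hc
    by_cases h1 : (bad R X G).card ≤ 1
    · refine ⟨i, G, hi0, hE, hne, Le.refl z G, ?_⟩
      by_cases h2 : (bad R X G).Nonempty
      · obtain ⟨n, hn⟩ := h2
        obtain ⟨hn0, -⟩ := mem_bad.1 hn
        refine ⟨n, hn0, ?_⟩
        intro k hk hkn
        by_contra hcon
        have : k ∈ bad R X G := mem_bad.2 ⟨hk, hcon⟩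
        exact hkn (Finset.card_le_one.1 h1 k this n hn)
      · refine ⟨o, ho, ?_⟩
        intro k hk _
        by_contra hcon
        exact h2 ⟨k, mem_bad.2 ⟨hk, hcon⟩⟩
    · push Not at h1
      obtain ⟨a, ha, b, hb, hab⟩ := Finset.one_lt_card.1 h1
      obtain ⟨ha0, hac⟩ := mem_bad.1 ha
      obtain ⟨hb0, hbc⟩ := mem_bad.1 hb
      -- base change to `a`
      obtain ⟨G1, hE1, hne1, hle1⟩ : ∃ G1, El R q z a G1 ∧ G1 ≠ z a ∧ Le R z G1 G := by
        by_cases hai : a = i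
        · subst hai; exact ⟨G, hE, hne, Le.refl z G⟩
        · exact base_change hG hF hi0 ha0 hai hE hne
      obtain ⟨G2, hE2, hne2, hle2, hor⟩ := split_ij hG hF ha0 hb0 (Ne.symm hab) hE1 hne1 hX
      have hle := Le.trans hle2 hle1
      have hsub : bad R X G2 ⊆ bad R X G := by
        intro k hk
        obtain ⟨h2, h3⟩ := mem_bad.1 hk
        exact mem_bad.2 ⟨h2, fun h => h3 (hle X hX k h2 h)⟩
      have hss : bad R X G2 ⊂ bad R X G := by
        rw [Finset.ssubset_iff_of_subset hsub]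
        rcases hor with h | h
        · exact ⟨a, ha, fun hh => (mem_bad.1 hh).2 h⟩
        · exact ⟨b, hb, fun hh => (mem_bad.1 hh).2 h⟩
      have hlt := Finset.card_lt_card hss
      obtain ⟨i', G', h2, h3, h4, h5, h6⟩ := ih a G2 ha0 hE2 hne2 (by omega)
      exact ⟨i', G', h2, h3, h4, Le.trans h5 hle, h6⟩

theorem dec_list (hG : GR m D R) {q : D} {z : Fin (m + 1) → D} (hF : Frame R q z)
    {o : Fin (m + 1)} (ho : o ≠ 0) :
    ∀ (L : List D), (∀ X ∈ L, OnK R z X) → ∀ (i : Fin (m + 1)) (G : D), i ≠ 0 → El R q z i G →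
      G ≠ z i → ∃ i' G', i' ≠ 0 ∧ El R q z i' G' ∧ G' ≠ z i' ∧ Le R z G' G ∧
        ∀ X ∈ L, Dec R X G' := by
  intro L
  induction L with
  | nil =>
    intro _ i G hi0 hE hne
    exact ⟨i, G, hi0, hE, hne, Le.refl z G, fun X hX => by simp at hX⟩
  | cons X L ih =>
    intro hL i G hi0 hE hne
    obtain ⟨i1, G1, h2, h3, h4, h5, h6⟩ := ih (fun Y hY => hL Y (by simp [hY])) i G hi0 hE hne
    have hX := hL X (by simp)
    obtain ⟨i2, G2, g2, g3, g4, g5, g6⟩ := dec_one hG hF hX ho _ i1 G1 h2 h3 h4 le_rfl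
    refine ⟨i2, G2, g2, g3, g4, Le.trans g5 h5, ?_⟩
    intro Y hY
    rw [List.mem_cons] at hY
    rcases hY with rfl | hY
    · exact g6
    · exact (h6 Y hY).mono (hL Y (by simp [hY])) g5

end Pool.Agent.W213.LyG
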