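import Pool.Agent.W213.LyG.Cert1

/-! All rules hold. -/

set_option autoImplicit false

namespace Pool.Agent.W213.LyG

open Pool.Agent.W213.Ly.Gen

variable {m : ℕ} {D : Type} {R : Set (At m) → D → D → Prop}

theorem rules0 (e : ℕ → Fin (m + 1)) (_ : Nm e) : Rules 0 (HM R e) :=
  ⟨fun h => absurd h (by omega), fun h => absurd h (by omega), fun h => absurd h (by omega),
    fun h => absurd h (by omega)⟩

theorem splitC (hG : GR m D R) : SplitC R := by
  intro a b c hba hca hcb w p x y h1 h2 h3 h4 h5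
  obtain ⟨z, hz⟩ := ex_fresh hG.m8 [a, b, c] (by simp)
  simp only [List.mem_cons, List.not_mem_nil, or_false, not_or] at hz
  exact spR hG rules0 (Ne.symm hz.1) (Ne.symm hz.2.1) hba (Ne.symm hz.2.2) hca hcb h1 (hG.w.symm _ _ _ h2) h3 h4 h5

theorem c1C (hG : GR m D R) : C1C R := by
  intro a b hba w p x x' h1 h2 h3 h4 h5
  obtain ⟨z, hz⟩ := ex_fresh hG.m8 [a, b] (by simp)
  simp only [List.mem_cons, List.not_mem_nil, or_false, not_or] at hz
  exact c1R hG rules0 (Ne.symm hz.1) (Ne.symm hz.2) hba h1 (hG.w.symm _ _ _ h2) h3 (hG.w.symm _ _ _ h4) h5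

theorem rules1 (hG : GR m D R) (e : ℕ → Fin (m + 1)) (he : Nm e) : Rules 1 (HM R e) :=
  ⟨fun _ => splitR_of hG (splitC hG) he, fun h => absurd h (by omega), fun h => absurd h (by omega),
    fun h => absurd h (by omega)⟩

theorem ac1 (hG : GR m D R) : AC1 R := by
  intro a b c d hba hca hcb hdb hdc hda w p x y h1 h2 h3 h4 h5
  exact ra1R hG (rules1 hG) (Ne.symm hda) (Ne.symm hdb) hba (Ne.symm hdc) hca hcb h1
    (hG.w.symm _ _ _ h2) h3 (hG.w.symm _ _ _ h4) (hG.w.symm _ _ _ h5)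

theorem rules3 (hG : GR m D R) (e : ℕ → Fin (m + 1)) (he : Nm e) : Rules 3 (HM R e) :=
  ⟨fun _ => splitR_of hG (splitC hG) he, fun _ => c1R_of (c1C hG) he, fun _ => aR'_of (ac1 hG) he,
    fun h => absurd h (by omega)⟩

theorem ac2 (hG : GR m D R) : AC2 R := by
  intro a b c hba hca hcb w p x y h1 h2 h3 h4 h5
  obtain ⟨z, hz⟩ := ex_fresh hG.m8 [a, b, c] (by simp)
  simp only [List.mem_cons, List.not_mem_nil, or_false, not_or] at hz
  exact hG.w.symm _ _ _ (ra2R hG (rules3 hG) (Ne.symm hz.1) (Ne.symm hz.2.1) hba (Ne.symm hz.2.2) hca hcb h1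
    (hG.w.symm _ _ _ h2) h3 (hG.w.symm _ _ _ h4) (hG.w.symm _ _ _ h5))

theorem rules4 (hG : GR m D R) (e : ℕ → Fin (m + 1)) (he : Nm e) : Rules 4 (HM R e) :=
  ⟨fun _ => splitR_of hG (splitC hG) he, fun _ => c1R_of (c1C hG) he, fun _ => aR'_of (ac1 hG) he,
    fun _ => aR_of (ac1 hG) (ac2 hG) he⟩

end Pool.Agent.W213.LyG
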