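import Pool.Agent.W213.LyG.Valid

/-!
Soundness of the certificates with generic classes.
-/

set_option autoImplicit false

namespace Pool.Agent.W213.LyG

open Pool.Agent.W213.Ly.Gen

variable {m : ℕ}

/-- the generic mask is empty or contains the bit of the unnamed classes -/
def GSok (GS : ℕ) : Prop := GS = 0 ∨ GS.testBit 7 = true

/-- agreement of namings on the bits of a mask -/
def Agr (s : ℕ) (e e' : ℕ → Fin (m + 1)) : Prop := ∀ k < 7, s.testBit k = true → e k = e' k

/-- agreement of namings outside the generic bits -/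
def AgN (GS : ℕ) (e e' : ℕ → Fin (m + 1)) : Prop := ∀ k < 7, GS.testBit k = false → e k = e' k

/-- value of the mask on the generic bits which are not in the support -/
def vv (GS S : ℕ) : Bool :=
  if S &&& GS = 0 then false else if S &&& GS = GS then true else S.testBit 7

theorem testBit_127 (k : ℕ) (hk : k < 7) : (127 : ℕ).testBit k = true := by
  interval_cases k <;> decide +kernel

theorem testBit_128 (S : ℕ) : (Nat.beq (Nat.land S 128) 0) = !S.testBit 7 := by
  have h1 : (S &&& 128).testBit 7 = S.testBit 7 := by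
    rw [Nat.testBit_and, show (128 : ℕ).testBit 7 = true by decide +kernel, Bool.and_true]
  cases h : S.testBit 7 with
  | false =>
    rw [Bool.not_false, beq_iff]
    apply Nat.eq_of_testBit_eq
    intro i
    rw [show Nat.land S 128 = S &&& 128 from rfl, Nat.testBit_and, Nat.zero_testBit]
    by_cases hi : i = 7
    · subst hi; rw [h]; rfl
    · have : (128 : ℕ).testBit i = false := by
        rw [show (128 : ℕ) = 2 ^ 7 by norm_num, Nat.testBit_two_pow]
        simp only [decide_eq_false_iff_not]
        exact fun h => hi h.symm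
      rw [this, Bool.and_false]
  | true =>
    rw [Bool.not_true]
    cases h2 : Nat.beq (Nat.land S 128) 0 with
    | false => rfl
    | true =>
      rw [beq_iff] at h2
      have h3 : S &&& 128 = 0 := h2
      rw [h3, h, Nat.zero_testBit] at h1
      exact absurd h1 (by simp)

/-- the value of a mask at a generic bit outside the support -/
theorem vv_spec {GS S k : ℕ} (hG : GS.testBit k = true) (hk : k < 8)
    (h : k = 7 ∨ (k < 7 ∧ (sm GS S).testBit k = false)) : S.testBit k = vv GS S := by
  unfold vv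
  have hsm : sm GS S = bif Nat.beq (Nat.land S GS) 0 then 0 else
    bif Nat.beq (Nat.land S GS) GS then 0 else
    bif Nat.beq (Nat.land S 128) 0 then Nat.land (Nat.land S GS) 127 else
    Nat.land (Nat.xor GS (Nat.land S GS)) 127 := rfl
  have hSG : (S &&& GS).testBit k = S.testBit k := by rw [Nat.testBit_and, hG, Bool.and_true]
  split_ifs with h1 h2
  · rw [← hSG, h1, Nat.zero_testBit]
  · rw [← hSG, h2, hG]
  · rcases h with rfl | ⟨hk7, h⟩
    · rfl
    · have e1 : Nat.beq (Nat.land S GS) 0 = false := by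
        cases h3 : Nat.beq (Nat.land S GS) 0 with
        | false => rfl
        | true => exact absurd ((beq_iff _ _).1 h3) h1
      have e2 : Nat.beq (Nat.land S GS) GS = false := by
        cases h3 : Nat.beq (Nat.land S GS) GS with
        | false => rfl
        | true => exact absurd ((beq_iff _ _).1 h3) h2
      rw [hsm, e1, e2, testBit_128] at h
      simp only [cond_false] at h
      cases h7 : S.testBit 7 with
      | false =>
        rw [h7] at h
        simp only [Bool.not_false, cond_true] at h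
        have h3 : ((S &&& GS) &&& 127).testBit k = false := h
        rw [Nat.testBit_and, testBit_127 k hk7, Bool.and_true, hSG] at h3
        exact h3
      | true =>
        rw [h7] at h
        simp only [Bool.not_true, cond_false] at h
        have h3 : ((GS ^^^ (S &&& GS)) &&& 127).testBit k = false := h
        rw [Nat.testBit_and, testBit_127 k hk7, Bool.and_true, Nat.testBit_xor, hSG, hG] at h3
        cases h4 : S.testBit k with
        | false => rw [h4] at h3; simp at h3
        | true => rfl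

theorem den_congr {GS : ℕ} (hGS : GSok GS) {e e' : ℕ → Fin (m + 1)} (he : Nm e) (he' : Nm e')
    (h1 : AgN GS e e') {S : ℕ} (h2 : Agr (sm GS S) e e') : den e S = den e' S := by
  ext a
  rw [mem_den, mem_den]
  cases a with
  | none => rfl
  | some c =>
    simp only [ix]
    by_cases hkk : ixc e c = ixc e' c
    · rw [hkk]
    · have hG7 : GS.testBit 7 = true := by
        rcases hGS with rfl | h
        · exfalso
          apply hkk
          rcases ixc_spec e c with ⟨h3, h4⟩ | ⟨h3, h4⟩
          · have h5 := h1 _ h3 (Nat.zero_testBit _)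
            have h6 : ixc e' c = ixc e c := by
              have : e' (ixc e c) = c := by rw [← h5]; exact h4
              conv_lhs => rw [← this]
              exact ixc_named he' h3
            exact h6.symm
          · rw [h3]
            symm
            apply ixc_unnamed
            intro k hk hc
            exact h4 k hk (by rw [h1 k hk (Nat.zero_testBit _)]; exact hc)
        · exact h
      have key : ∀ (e e' : ℕ → Fin (m + 1)), Nm e → Nm e' → AgN GS e e' → Agr (sm GS S) e e' →
          ixc e c ≠ ixc e' c → S.testBit (ixc e c) = vv GS S := by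
        intro e e' he he' h1 h2 hkk
        rcases ixc_spec e c with ⟨h3, h4⟩ | ⟨h3, h4⟩
        · have hne : e (ixc e c) ≠ e' (ixc e c) := by
            intro h5
            apply hkk
            rw [h4] at h5
            conv_rhs => rw [h5]
            exact (ixc_named he' h3).symm
          refine vv_spec ?_ (by omega) (Or.inr ⟨h3, ?_⟩)
          · cases h6 : GS.testBit (ixc e c) with
            | true => rfl
            | false => exact absurd (h1 _ h3 h6) hne
          · cases h6 : (sm GS S).testBit (ixc e c) with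
            | false => rfl
            | true => exact absurd (h2 _ h3 h6) hne
        · rw [h3]
          exact vv_spec hG7 (by omega) (Or.inl rfl)
      have k1 := key e e' he he' h1 h2 hkk
      have k2 := key e' e he' he (fun k hk h => (h1 k hk h).symm) (fun k hk h => (h2 k hk h).symm)
        (fun h => hkk h.symm)
      rw [k1, k2]

theorem sup_testBit (Q i b : ℕ) : (sup Q i).testBit b = (decide (b < 7) && Q.testBit (7 * i + b)) := by
  have : sup Q i = (Q >>> (7 * i)) % 2 ^ 7 := rfl
  rw [this, Nat.testBit_mod_two_pow, Nat.testBit_shiftRight]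

theorem sup_old {Q s n i : ℕ} (hi : i < n) : sup (Q ||| (s <<< (7 * n))) i = sup Q i := by
  apply Nat.eq_of_testBit_eq
  intro b
  rw [sup_testBit, sup_testBit]
  by_cases hb : b < 7
  · rw [Nat.testBit_or, Nat.testBit_shiftLeft]
    have : ¬ (7 * i + b ≥ 7 * n) := by omega
    simp [this]
  · simp [hb]

theorem sup_new {Q s n : ℕ} (hQ : Q < 2 ^ (7 * n)) {b : ℕ} (hb : b < 7) :
    (sup (Q ||| (s <<< (7 * n))) n).testBit b = s.testBit b := by
  rw [sup_testBit, Nat.testBit_or, Nat.testBit_shiftLeft]
  have h1 : Q.testBit (7 * n + b) = false := by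
    apply Nat.testBit_lt_two_pow
    calc Q < 2 ^ (7 * n) := hQ
      _ ≤ _ := Nat.pow_le_pow_right (by norm_num) (by omega)
  simp [h1, hb]

theorem shl_lt {s n : ℕ} (hs : s < 128) : s <<< (7 * n) < 2 ^ (7 * (n + 1)) := by
  rw [Nat.shiftLeft_eq, show 7 * (n + 1) = 7 + 7 * n by ring, pow_add]
  exact Nat.mul_lt_mul_of_pos_right (by norm_num; exact hs) (by positivity)

theorem sup_lt (Q i : ℕ) : sup Q i < 128 := Nat.mod_lt _ (by norm_num)

theorem sm_lt (GS S : ℕ) : sm GS S < 128 := by
  have hsm : sm GS S = bif Nat.beq (Nat.land S GS) 0 then 0 else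
    bif Nat.beq (Nat.land S GS) GS then 0 else
    bif Nat.beq (Nat.land S 128) 0 then Nat.land (Nat.land S GS) 127 else
    Nat.land (Nat.xor GS (Nat.land S GS)) 127 := rfl
  rw [hsm]
  cases Nat.beq (Nat.land S GS) 0 <;> cases Nat.beq (Nat.land S GS) GS <;> cases Nat.beq (Nat.land S 128) 0 <;>
    simp only [cond_true, cond_false] <;>
    first
    | (show (0 : ℕ) < 128; norm_num)
    | (show _ &&& 127 < 128; exact lt_of_le_of_lt Nat.and_le_right (by norm_num))

/-- the set of namings used -/
def EE (GS : ℕ) (e0 : ℕ → Fin (m + 1)) (e : ℕ → Fin (m + 1)) : Prop := Nm e ∧ AgN GS e0 e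

/-- the invariant -/
structure Inv {D : Type} (R : Set (At m) → D → D → Prop) (GS : ℕ) (e0 : ℕ → Fin (m + 1)) (n M Q : ℕ)
    (P : (ℕ → Fin (m + 1)) → ℕ → D) : Prop where
  val : ∀ e, EE GS e0 e → Valid (HM R e) (P e) n M
  coh : ∀ e e', EE GS e0 e → EE GS e0 e' → ∀ i < n, Agr (sup Q i) e e' → P e i = P e' i
  qlt : Q < 2 ^ (7 * n)

variable {D : Type} {R : Set (At m) → D → D → Prop}

theorem inter_fin (hW : WRel m D R) (x y : D) (F : Finset (Fin (m + 1)))
    (h : ∀ c ∈ F, R {a | a ≠ some c} x y) : R {a | ∀ c ∈ F, a ≠ some c} x y := by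
  classical
  induction F using Finset.induction_on with
  | empty =>
    have : {a : At m | ∀ c ∈ (∅ : Finset (Fin (m + 1))), a ≠ some c} = Set.univ := by
      ext a; simp
    rw [this]; exact hW.full x y
  | insert c F hc ih =>
    have h1 := hW.inter _ _ _ _ (h c (Finset.mem_insert_self c F))
      (ih (fun d hd => h d (Finset.mem_insert_of_mem hd)))
    have : {a : At m | ∀ d ∈ insert c F, a ≠ some d} = {a | a ≠ some c} ∩ {a | ∀ d ∈ F, a ≠ some d} := by
      ext a; simp
    rw [this]; exact h1

theorem den_nx {e : ℕ → Fin (m + 1)} (he : Nm e) {g : ℕ} (hg : g < 7) :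
    den e (nx g) = {a | a ≠ some (e g)} := by
  ext a
  rw [mem_den, Set.mem_ofPred_eq]
  cases a with
  | none =>
    simp only [ix, ne_eq, reduceCtorEq, not_false_eq_true, iff_true]
    interval_cases g <;> decide +kernel
  | some c =>
    have h8 := ixc_lt e c
    have h0 : (nx g).testBit (ixc e c) = true ↔ ixc e c ≠ g := by
      generalize ixc e c = t at h8
      interval_cases g <;> interval_cases t <;> decide +kernel
    simp only [ix, h0, ne_eq, Option.some.injEq]
    constructor
    · intro h1 h2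
      exact h1 (by rw [h2]; exact ixc_named he hg)
    · intro h1 h2
      exact h1 (ixc_of_eq hg h2).symm

/-- the generic rule -/
theorem gen_rule (hW : WRel m D R) {GS : ℕ} {e0 : ℕ → Fin (m + 1)} {n M Q : ℕ}
    {P : (ℕ → Fin (m + 1)) → ℕ → D} (hI : Inv R GS e0 n M Q P) {i j g : ℕ}
    (hi : i < n) (hj : j < n) (hg : g < 7) (hG : GS.testBit g = true) (hG7 : GS.testBit 7 = true)
    (hsi : (sup Q i).testBit g = false) (hsj : (sup Q j).testBit g = false)
    (hM : get M i j &&& nx g = get M i j) (e : ℕ → Fin (m + 1)) (he : EE GS e0 e) :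
    HM R e ((511 ^^^ (GS &&& 255)) ||| (sup Q i ||| sup Q j)) (P e i) (P e j) := by
  classical
  set V := (511 ^^^ (GS &&& 255)) ||| (sup Q i ||| sup Q j) with hV
  have h1 := inter_fin hW (P e i) (P e j) (Finset.univ.filter fun c => some c ∉ den e V) ?_
  · have h2 : {a : At m | ∀ c ∈ (Finset.univ.filter fun c => some c ∉ den e V), a ≠ some c} = den e V := by
      ext a
      simp only [Finset.mem_filter, Finset.mem_univ, true_and, Set.mem_ofPred_eq]
      cases a with
      | none =>
        simp only [ne_eq, reduceCtorEq, not_false_eq_true, implies_true, true_iff]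
        rw [mem_den, hV]
        simp only [ix, Nat.testBit_or, Nat.testBit_xor, Nat.testBit_and]
        have e1 : (255 : ℕ).testBit 8 = false := by decide +kernel
        have e2 : (511 : ℕ).testBit 8 = true := by decide +kernel
        simp [e1, e2]
      | some c =>
        constructor
        · intro h
          by_contra h3
          exact h c h3 rfl
        · intro h d hd hcd
          rw [Option.some.injEq] at hcd
          subst hcd
          exact hd h
    rw [h2] at h1
    exact h1
  · intro c hc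
    simp only [Finset.mem_filter, Finset.mem_univ, true_and] at hc
    have hk8 := ixc_lt e c
    have hc2 : V.testBit (ixc e c) = false := by
      cases h : V.testBit (ixc e c) with
      | false => rfl
      | true => exact absurd h hc
    have e1 : ∀ t < 8, (255 : ℕ).testBit t = true ∧ (511 : ℕ).testBit t = true := by decide +kernel
    have hbits : GS.testBit (ixc e c) = true ∧ (sup Q i).testBit (ixc e c) = false ∧
        (sup Q j).testBit (ixc e c) = false := by
      rw [hV, Nat.testBit_or, Nat.testBit_or, Nat.testBit_xor, Nat.testBit_and,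
        (e1 _ hk8).1, (e1 _ hk8).2] at hc2
      simp only [Bool.and_true, Bool.or_eq_false_iff] at hc2
      obtain ⟨h3, h4, h5⟩ := hc2
      refine ⟨?_, h4, h5⟩
      simpa using h3
    obtain ⟨hb1, hb2, hb3⟩ := hbits
    -- the modified naming
    have fin : ∀ e', EE GS e0 e' → Agr (sup Q i) e' e → Agr (sup Q j) e' e → e' g = c →
        R {a | a ≠ some c} (P e i) (P e j) := by
      intro e' he' h3 h4 h5
      have h6 := (hI.val e' he').lab i hi j hj
      have h7 : HM R e' (nx g) (P e' i) (P e' j) := hW.mono _ _ _ _ (den_mono hM) h6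
      unfold HM at h7
      rw [den_nx he'.1 hg, h5, hI.coh e' e he' he i hi h3, hI.coh e' e he' he j hj h4] at h7
      exact h7
    rcases ixc_spec e c with ⟨h3, h4⟩ | ⟨h3, h4⟩
    · -- named class
      set k := ixc e c with hk
      refine fin (fun t => e (Equiv.swap g k t)) ⟨?_, ?_⟩ ?_ ?_ ?_
      · intro a ha b hb hab
        have r : ∀ t < 7, Equiv.swap g k t < 7 := by
          intro t ht
          by_cases h5 : t = g
          · rw [h5, Equiv.swap_apply_left]; exact h3
          · by_cases h6 : t = k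
            · rw [h6, Equiv.swap_apply_right]; exact hg
            · rw [Equiv.swap_apply_of_ne_of_ne h5 h6]; exact ht
        exact (Equiv.swap g k).injective (he.1 _ (r a ha) _ (r b hb) hab)
      · intro t ht hGt
        have h5 : t ≠ g := by rintro rfl; rw [hG] at hGt; simp at hGt
        have h6 : t ≠ k := by intro h; rw [h, hb1] at hGt; simp at hGt
        show e0 t = e (Equiv.swap g k t)
        rw [Equiv.swap_apply_of_ne_of_ne h5 h6]
        exact he.2 t ht hGt
      · intro t ht hst
        have h5 : t ≠ g := by rintro rfl; rw [hsi] at hst; simp at hst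
        have h6 : t ≠ k := by intro h; rw [h, hb2] at hst; simp at hst
        show e (Equiv.swap g k t) = e t
        rw [Equiv.swap_apply_of_ne_of_ne h5 h6]
      · intro t ht hst
        have h5 : t ≠ g := by rintro rfl; rw [hsj] at hst; simp at hst
        have h6 : t ≠ k := by intro h; rw [h, hb3] at hst; simp at hst
        show e (Equiv.swap g k t) = e t
        rw [Equiv.swap_apply_of_ne_of_ne h5 h6]
      · show e (Equiv.swap g k g) = c
        rw [Equiv.swap_apply_left]; exact h4
    · -- unnamed class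
      refine fin (Function.update e g c) ⟨?_, ?_⟩ ?_ ?_ ?_
      · intro a ha b hb hab
        by_cases h5 : a = g
        · by_cases h6 : b = g
          · rw [h5, h6]
          · rw [h5, Function.update_self, Function.update_of_ne h6] at hab
            exact absurd hab.symm (h4 b hb)
        · by_cases h6 : b = g
          · rw [h6, Function.update_self, Function.update_of_ne h5] at hab
            exact absurd hab (h4 a ha)
          · rw [Function.update_of_ne h5, Function.update_of_ne h6] at hab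
            exact he.1 a ha b hb hab
      · intro t ht hGt
        have h5 : t ≠ g := by rintro rfl; rw [hG] at hGt; simp at hGt
        rw [Function.update_of_ne h5]
        exact he.2 t ht hGt
      · intro t ht hst
        have h5 : t ≠ g := by rintro rfl; rw [hsi] at hst; simp at hst
        rw [Function.update_of_ne h5]
      · intro t ht hst
        have h5 : t ≠ g := by rintro rfl; rw [hsj] at hst; simp at hst
        rw [Function.update_of_ne h5]
      · rw [Function.update_self]

theorem Inv.upd (hW : WRel m D R) (hm : 8 ≤ m) {GS : ℕ} {e0 : ℕ → Fin (m + 1)} {n M Q : ℕ}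
    {P : (ℕ → Fin (m + 1)) → ℕ → D} (hn : n ≤ 32) (hI : Inv R GS e0 n M Q P) {i j v : ℕ}
    (hi : i < n) (hj : j < n) (h : ∀ e, EE GS e0 e → HM R e v (P e i) (P e j)) :
    Inv R GS e0 n (LyG.upd M i j v) Q P :=
  ⟨fun e he => (hI.val e he).upd (hm_mwr hW hm he.1) hn hi hj (h e he), hI.coh, hI.qlt⟩

theorem Inv.dem (hW : WRel m D R) (hm : 8 ≤ m) {GS : ℕ} (hGS : GSok GS) {e0 : ℕ → Fin (m + 1)} {n M Q : ℕ}
    {P : (ℕ → Fin (m + 1)) → ℕ → D} (hn : n < 32) (hI : Inv R GS e0 n M Q P) {i j S T : ℕ}
    (hi : i < n) (hj : j < n) (hs : get M i j &&& comp S T = get M i j) :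
    ∃ P' : (ℕ → Fin (m + 1)) → ℕ → D, (∀ e, ∀ t < n, P' e t = P e t) ∧
      Inv R GS e0 (n + 1) (LyG.upd (LyG.upd M i n S) n j T)
        (Nat.lor Q (Nat.shiftLeft (Nat.lor (Nat.lor (sup Q i) (sup Q j)) (Nat.lor (sm GS S) (sm GS T)))
          (Nat.mul 7 n))) P' := by
  classical
  have hne : ∀ e : ℕ → Fin (m + 1), Nonempty D := fun e => ⟨P e 0⟩
  haveI : Nonempty D := hne e0
  let ε : Set (At m) → Set (At m) → D → D → D := fun A B x z =>
    Classical.epsilon (fun y => R A x y ∧ R B y z)
  let P' : (ℕ → Fin (m + 1)) → ℕ → D := fun e =>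
    Function.update (P e) n (ε (den e S) (den e T) (P e i) (P e j))
  have hold : ∀ e, ∀ t < n, P' e t = P e t := fun e t ht => Function.update_of_ne (by omega) _ _
  refine ⟨P', hold, ?_, ?_, ?_⟩
  · intro e he
    have hH := hm_mwr hW hm he.1
    have hv := hI.val e he
    have hex : ∃ y, R (den e S) (P e i) y ∧ R (den e T) y (P e j) := hH.dem (hH.mono hs (hv.lab i hi j hj))
    have hy := Classical.epsilon_spec hex
    have hv2 := hv.extend hH hn (ε (den e S) (den e T) (P e i) (P e j))
    have e1 : P' e n = ε (den e S) (den e T) (P e i) (P e j) := Function.update_self _ _ _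
    have hv3 := hv2.upd hH (by omega) (i := i) (j := n) (v := S) (by omega) (by omega)
      (by rw [Function.update_self, Function.update_of_ne (by omega : i ≠ n)]; exact hy.1)
    exact hv3.upd hH (by omega) (i := n) (j := j) (v := T) (by omega) (by omega)
      (by rw [Function.update_self, Function.update_of_ne (by omega : j ≠ n)]; exact hy.2)
  · intro e e' he he' t ht hA
    by_cases h1 : t < n
    · rw [hold e t h1, hold e' t h1]
      refine hI.coh e e' he he' t h1 ?_
      have : sup (Nat.lor Q (Nat.shiftLeft (Nat.lor (Nat.lor (sup Q i) (sup Q j)) (Nat.lor (sm GS S) (sm GS T)))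
          (Nat.mul 7 n))) t = sup Q t := sup_old h1
      rw [this] at hA
      exact hA
    · have h2 : t = n := by omega
      subst h2
      have hb : ∀ b < 7, (sup Q i ||| sup Q j ||| (sm GS S ||| sm GS T)).testBit b = true → e b = e' b := by
        intro b hb hb2
        refine hA b hb ?_
        rw [← hb2]
        exact sup_new hI.qlt hb
      have hb2 : ∀ b < 7, ((((sup Q i).testBit b || (sup Q j).testBit b) ||
          ((sm GS S).testBit b || (sm GS T).testBit b)) = true) → e b = e' b := by
        intro b hb3 h4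
        refine hb b hb3 ?_
        simp only [Nat.testBit_or]
        exact h4
      have q1 : P e i = P e' i := hI.coh e e' he he' i hi (fun b hb3 h4 => hb2 b hb3 (by simp [h4]))
      have q2 : P e j = P e' j := hI.coh e e' he he' j hj (fun b hb3 h4 => hb2 b hb3 (by simp [h4]))
      have hag : AgN GS e e' := fun k hk h => (he.2 k hk h).symm.trans (he'.2 k hk h)
      have q3 : den e S = den e' S := den_congr hGS he.1 he'.1 hag (fun b hb3 h4 => hb2 b hb3 (by simp [h4]))
      have q4 : den e T = den e' T := den_congr hGS he.1 he'.1 hag (fun b hb3 h4 => hb2 b hb3 (by simp [h4]))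
      show Function.update (P e) t (ε (den e S) (den e T) (P e i) (P e j)) t =
        Function.update (P e') t (ε (den e' S) (den e' T) (P e' i) (P e' j)) t
      rw [Function.update_self, Function.update_self, q1, q2, q3, q4]
  · have h1 : (sup Q i ||| sup Q j ||| (sm GS S ||| sm GS T)) < 128 :=
      Nat.or_lt_two_pow (n := 7) (Nat.or_lt_two_pow (n := 7) (sup_lt Q i) (sup_lt Q j))
        (Nat.or_lt_two_pow (n := 7) (sm_lt GS S) (sm_lt GS T))
    exact Nat.or_lt_two_pow (lt_of_lt_of_le hI.qlt (Nat.pow_le_pow_right (by norm_num) (by omega)))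
      (shl_lt h1)

theorem bit_of_sub {g GS : ℕ} (h : Nat.land (s1 g) GS = s1 g) : GS.testBit g = true := by
  have h1 : (s1 g).testBit g = true := by
    have : s1 g = 1 <<< g := rfl
    rw [this, Nat.testBit_shiftLeft]
    simp
  have h2 : (s1 g &&& GS).testBit g = true := by
    rw [show s1 g &&& GS = s1 g from h]; exact h1
  rw [Nat.testBit_and, h1, Bool.true_and] at h2
  exact h2

theorem bit_of_zero {g s : ℕ} (h : Nat.land (s1 g) s = 0) : s.testBit g = false := by
  have h1 : (s1 g).testBit g = true := by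
    have : s1 g = 1 <<< g := rfl
    rw [this, Nat.testBit_shiftLeft]
    simp
  have h2 : (s1 g &&& s).testBit g = false := by
    rw [show s1 g &&& s = 0 from h]; exact Nat.zero_testBit g
  rw [Nat.testBit_and, h1, Bool.true_and] at h2
  exact h2

theorem run_sound (hW : WRel m D R) (hm : 8 ≤ m) {lv : ℕ}
    (hR : ∀ e : ℕ → Fin (m + 1), Nm e → Rules lv (HM R e)) {GS : ℕ} (hGS : GSok GS)
    {e0 : ℕ → Fin (m + 1)} (he0 : Nm e0) (gi gj gS : ℕ) :
    ∀ (l : List Step) (n M Q : ℕ) (P : (ℕ → Fin (m + 1)) → ℕ → D), n ≤ 32 → gi < n → gj < n →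
      Inv R GS e0 n M Q P → run lv GS gi gj gS l n M Q = true → HM R e0 gS (P e0 gi) (P e0 gj) := by
  intro l
  have hE0 : EE GS e0 e0 := ⟨he0, fun _ _ _ => rfl⟩
  induction l with
  | nil =>
    intro n M Q P hn hgi hgj hI hrun
    unfold run at hrun
    exact hW.mono _ _ _ _ (den_mono (sub_iff.1 hrun)) ((hI.val e0 hE0).lab gi hgi gj hgj)
  | cons s l ih =>
    intro n M Q P hn hgi hgj hI hrun
    cases s with
    | pc i k j =>
      simp only [run, force_eq, Bool.and_eq_true, blt_iff] at hrun
      obtain ⟨⟨⟨hi, hk⟩, hj⟩, hr⟩ := hrun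
      exact ih n _ Q P hn hgi hgj (hI.upd hW hm hn hi hj (fun e he =>
        (hm_mwr hW hm he.1).cmp ((hI.val e he).lab i hi k hk) ((hI.val e he).lab k hk j hj))) hr
    | dem i S j T =>
      simp only [run, force_eq, Bool.and_eq_true, blt_iff, sub_iff] at hrun
      obtain ⟨⟨⟨⟨hi, hj⟩, hn2⟩, hs⟩, hr⟩ := hrun
      obtain ⟨P', hP', hI'⟩ := hI.dem hW hm hGS hn2 hi hj hs
      have := ih (n + 1) _ _ P' (by omega) (by omega) (by omega) hI' hr
      rwa [hP' e0 gi hgi, hP' e0 gj hgj] at this
    | sp w p' x y a b c =>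
      simp only [run, force_eq, Bool.and_eq_true, blt_iff, bne_iff, sub_iff, Nat.ble_eq] at hrun
      obtain ⟨⟨⟨⟨⟨⟨⟨⟨⟨⟨⟨⟨⟨⟨⟨⟨hlv, hw⟩, hp⟩, hx⟩, hy⟩, ha⟩, hb'⟩, hc⟩, hab⟩, hac⟩, hbc⟩, s1⟩, s2⟩, s3⟩, s4⟩, s5⟩, hr⟩ := hrun
      refine ih n _ Q P hn hgi hgj (hI.upd hW hm hn hx hy (fun e he => ?_)) hr
      have hv := hI.val e he
      have hH := hm_mwr hW hm he.1
      exact (hR e he.1).sp hlv a b c ha hb' hc hab hac hbc (P e w) (P e p') (P e x) (P e y)
        (hH.mono s1 (hv.lab _ hw _ hp)) (hH.mono s2 (hv.lab _ hw _ hx)) (hH.mono s3 (hv.lab _ hx _ hp))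
        (hH.mono s4 (hv.lab _ hw _ hy)) (hH.mono s5 (hv.lab _ hp _ hy))
    | c1 w p' x x' a b =>
      simp only [run, force_eq, Bool.and_eq_true, blt_iff, bne_iff, sub_iff, Nat.ble_eq] at hrun
      obtain ⟨⟨⟨⟨⟨⟨⟨⟨⟨⟨⟨⟨⟨hlv, hw⟩, hp⟩, hx⟩, hx'⟩, ha⟩, hb'⟩, hab⟩, s1⟩, s2⟩, s3⟩, s4⟩, s5⟩, hr⟩ := hrun
      refine ih n _ Q P hn hgi hgj (hI.upd hW hm hn hx hx' (fun e he => ?_)) hr
      have hv := hI.val e he
      have hH := hm_mwr hW hm he.1
      exact (hR e he.1).c1 hlv a b ha hb' hab (P e w) (P e p') (P e x) (P e x')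
        (hH.mono s1 (hv.lab _ hw _ hp)) (hH.mono s2 (hv.lab _ hw _ hx)) (hH.mono s3 (hv.lab _ hx _ hp))
        (hH.mono s4 (hv.lab _ hw _ hx')) (hH.mono s5 (hv.lab _ hx' _ hp))
    | ra w p' x y a b c d =>
      simp only [run, force_eq, Bool.and_eq_true, Bool.or_eq_true, blt_iff, bne_iff, sub_iff, Nat.ble_eq] at hrun
      obtain ⟨⟨⟨⟨⟨⟨⟨⟨⟨⟨⟨⟨⟨⟨⟨⟨⟨⟨⟨hlv, hw⟩, hp⟩, hx⟩, hy⟩, ha⟩, hb'⟩, hc⟩, hd⟩, hab⟩, hac⟩, hbc⟩, hbd⟩, hcd⟩, s1⟩, s2⟩, s3⟩, s4⟩, s5⟩, hr⟩ := hrun
      refine ih n _ Q P hn hgi hgj (hI.upd hW hm hn hw hy (fun e he => ?_)) hr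
      have hv := hI.val e he
      have hH := hm_mwr hW hm he.1
      rcases hlv with hlv | ⟨hlv, had⟩
      · exact (hR e he.1).ra hlv a b c d ha hb' hc hd hab hac hbc hbd hcd (P e w) (P e p') (P e x) (P e y)
          (hH.mono s1 (hv.lab _ hw _ hp)) (hH.mono s2 (hv.lab _ hw _ hx)) (hH.mono s3 (hv.lab _ hx _ hp))
          (hH.mono s4 (hv.lab _ hx _ hy)) (hH.mono s5 (hv.lab _ hp _ hy))
      · exact (hR e he.1).ra' hlv a b c d ha hb' hc hd hab hac hbc hbd hcd had (P e w) (P e p') (P e x) (P e y)
          (hH.mono s1 (hv.lab _ hw _ hp)) (hH.mono s2 (hv.lab _ hw _ hx)) (hH.mono s3 (hv.lab _ hx _ hp))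
          (hH.mono s4 (hv.lab _ hx _ hy)) (hH.mono s5 (hv.lab _ hp _ hy))
    | gen i j g =>
      simp only [run, force_eq, Bool.and_eq_true, blt_iff, sub_iff, beq_iff] at hrun
      obtain ⟨⟨⟨⟨⟨⟨⟨hi, hj⟩, hg⟩, hM⟩, hgG⟩, h7G⟩, h0⟩, hr⟩ := hrun
      have b0 := bit_of_zero h0
      have b1 : (sup Q i ||| sup Q j).testBit g = false := b0
      rw [Nat.testBit_or, Bool.or_eq_false_iff] at b1
      have h7 : GS.testBit 7 = true := bit_of_sub (g := 7) h7G
      exact ih n _ Q P hn hgi hgj (hI.upd hW hm hn hi hj (fun e he =>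
        gen_rule hW hI hi hj hg (bit_of_sub hgG) h7 b1.1 b1.2 hM e he)) hr

theorem ini_inv (hW : WRel m D R) (hm : 8 ≤ m) {GS : ℕ} (hGS : GSok GS) {e0 : ℕ → Fin (m + 1)}
    (he0 : Nm e0) (p : ℕ → D) (n : ℕ) (hn : n ≤ 32) (prem : List (ℕ × ℕ × ℕ))
    (h1 : ∀ t ∈ prem, t.1 < n ∧ t.2.1 < n) (hs : ∀ t ∈ prem, sm GS t.2.2 = 0)
    (h2 : ∀ t ∈ prem, HM R e0 t.2.2 (p t.1) (p t.2.1)) :
    Inv R GS e0 n (ini prem M0) 0 (fun _ => p) := by
  refine ⟨fun e he => ?_, fun _ _ _ _ _ _ _ => rfl, by positivity⟩
  refine ini_valid (hm_mwr hW hm he.1) p n hn prem M0 (valid_M0 (hm_mwr hW hm he.1) p n hn) h1 ?_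
  intro t ht
  have h3 := h2 t ht
  have h4 : den e0 t.2.2 = den e t.2.2 := den_congr hGS he0 he.1 he.2 (by
    intro k _ hk
    rw [hs t ht, Nat.zero_testBit] at hk
    simp at hk)
  unfold HM at h3 ⊢
  rw [← h4]
  exact h3

/-- soundness of `check` -/
theorem check_sound (hW : WRel m D R) (hm : 8 ≤ m) {lv : ℕ}
    (hR : ∀ e : ℕ → Fin (m + 1), Nm e → Rules lv (HM R e)) {GS : ℕ} (hGS : GSok GS)
    {e0 : ℕ → Fin (m + 1)} (he0 : Nm e0) {n : ℕ} {prem : List (ℕ × ℕ × ℕ)}
    {gi gj gS : ℕ} {l : List Step} (hc : check lv GS n prem gi gj gS l = true) (p : ℕ → D)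
    (hp : ∀ t ∈ prem, HM R e0 t.2.2 (p t.1) (p t.2.1)) : HM R e0 gS (p gi) (p gj) := by
  simp only [check, force_eq, Bool.and_eq_true, blt_iff, Nat.ble_eq, List.all_eq_true, beq_iff] at hc
  obtain ⟨⟨⟨⟨hgi, hgj⟩, hn⟩, hl⟩, hr⟩ := hc
  exact run_sound hW hm hR hGS he0 gi gj gS l n _ 0 _ hn hgi hgj
    (ini_inv hW hm hGS he0 p n hn prem (fun t ht => ⟨(hl t ht).1.1, (hl t ht).1.2⟩)
      (fun t ht => (hl t ht).2) hp) hr

end Pool.Agent.W213.LyG
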