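import Pool.Agent.W213.LyG.Den

/-!
Label matrices.
-/

set_option autoImplicit false

namespace Pool.Agent.W213.LyG

open Pool.Agent.W213.Ly.Gen

theorem force_eq (n : ℕ) (f : ℕ → Bool) : force n f = f n := by
  cases n <;> rfl

theorem sub_iff {S T : ℕ} : sub S T = true ↔ S &&& T = S := by
  unfold sub
  exact ⟨fun h => Nat.eq_of_beq_eq_true h, fun h => by
    show Nat.beq (S &&& T) S = true
    rw [h]; exact Nat.beq_refl S⟩

theorem get_testBit (M i j b : ℕ) :
    (get M i j).testBit b = (decide (b < 9) && M.testBit (9 * (32 * i + j) + b)) := by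
  have : get M i j = (M >>> (9 * (32 * i + j))) % 2 ^ 9 := rfl
  rw [this, Nat.testBit_mod_two_pow, Nat.testBit_shiftRight]

theorem get_lt (M i j : ℕ) : get M i j < 512 := Nat.mod_lt _ (by norm_num)

theorem shl_testBit {d : ℕ} (hd : d < 512) {i j k l b : ℕ} (hi : i < 32) (hj : j < 32) (hk : k < 32)
    (hl : l < 32) (hb : b < 9) :
    (d <<< (9 * (32 * i + j))).testBit (9 * (32 * k + l) + b) =
      (decide (k = i ∧ l = j) && d.testBit b) := by
  rw [Nat.testBit_shiftLeft]
  by_cases h : k = i ∧ l = j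
  · obtain ⟨rfl, rfl⟩ := h
    simp
  · simp only [h, decide_false, Bool.false_and]
    by_cases h2 : 9 * (32 * k + l) + b ≥ 9 * (32 * i + j)
    · have h3 : 9 * (32 * k + l) + b - 9 * (32 * i + j) ≥ 9 := by
        by_contra h4
        apply h
        omega
      have h5 : d.testBit (9 * (32 * k + l) + b - 9 * (32 * i + j)) = false := by
        apply Nat.testBit_lt_two_pow
        calc d < 2 ^ 9 := hd
          _ ≤ _ := Nat.pow_le_pow_right (by norm_num) h3
      rw [h5]; simp
    · simp [h2]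

theorem ite_testBit (c : Prop) [Decidable c] (d b : ℕ) :
    (if c then d else 0).testBit b = (decide c && d.testBit b) := by
  by_cases h : c <;> simp [h]

theorem get_updd {M d : ℕ} (hd : d < 512) {i j k l : ℕ} (hi : i < 32) (hj : j < 32) (hk : k < 32)
    (hl : l < 32) :
    get (updd M i j d) k l =
      (get M k l ^^^ (if k = i ∧ l = j then d else 0)) ^^^ (if k = j ∧ l = i then d else 0) := by
  apply Nat.eq_of_testBit_eq
  intro b
  have h0 : updd M i j d = (M ^^^ (d <<< (9 * (32 * i + j)))) ^^^ (d <<< (9 * (32 * j + i))) := rfl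
  rw [get_testBit, h0]
  simp only [Nat.testBit_xor, get_testBit]
  by_cases hb : b < 9
  · rw [shl_testBit hd hi hj hk hl hb, shl_testBit hd hj hi hk hl hb, ite_testBit, ite_testBit]
    simp only [hb, decide_true, Bool.true_and]
  · have hdb : d.testBit b = false := by
      apply Nat.testBit_lt_two_pow
      calc d < 2 ^ 9 := hd
        _ ≤ _ := Nat.pow_le_pow_right (by norm_num) (by omega)
    rw [ite_testBit, ite_testBit, hdb]
    simp [hb]

theorem get_upd {M i j v : ℕ} (hs : get M i j = get M j i) {k l : ℕ} (hi : i < 32) (hj : j < 32)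
    (hk : k < 32) (hl : l < 32) :
    get (upd M i j v) k l =
      if (k = i ∧ l = j ∨ k = j ∧ l = i) ∧ i ≠ j then get M k l &&& v else get M k l := by
  have hd : get M i j ^^^ (get M i j &&& v) < 512 := by
    have h1 := get_lt M i j
    have h2 : get M i j &&& v < 512 := lt_of_le_of_lt Nat.and_le_left h1
    exact Nat.xor_lt_two_pow (n := 9) h1 h2
  have h0 : upd M i j v = updd M i j (get M i j ^^^ (get M i j &&& v)) := rfl
  rw [h0, get_updd hd hi hj hk hl]
  have hx : ∀ g : ℕ, g ^^^ (g ^^^ (g &&& v)) = g &&& v := by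
    intro g
    rw [← Nat.xor_assoc, Nat.xor_self, Nat.zero_xor]
  by_cases hij : i = j
  · subst hij
    simp only [ne_eq, not_true_eq_false, and_false, if_false]
    by_cases h1 : k = i ∧ l = i
    · simp only [h1, and_self, if_true]
      rw [Nat.xor_assoc, Nat.xor_self, Nat.xor_zero]
    · simp [h1]
  · simp only [ne_eq, hij, not_false_eq_true, and_true]
    by_cases h1 : k = i ∧ l = j
    · obtain ⟨rfl, rfl⟩ := h1
      have h2 : ¬ (k = l ∧ l = k) := fun h => hij h.1
      simp [h2, hx]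
    · by_cases h2 : k = j ∧ l = i
      · obtain ⟨rfl, rfl⟩ := h2
        rw [← hs]
        simp [h1, hx]
      · simp [h1, h2]

/-- validity of a label matrix for the first `n` points -/
structure Valid {D : Type} (H : ℕ → D → D → Prop) (p : ℕ → D) (n M : ℕ) : Prop where
  lab : ∀ i < n, ∀ j < n, H (get M i j) (p i) (p j)
  sym : ∀ i < 32, ∀ j < 32, get M i j = get M j i
  fresh : ∀ i < 32, ∀ j < 32, (n ≤ i ∨ n ≤ j) → get M i j = if i = j then 256 else 511

variable {D : Type} {H : ℕ → D → D → Prop}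

theorem Valid.upd (hH : MWR H) {p : ℕ → D} {n M : ℕ} (hn : n ≤ 32) (hv : Valid H p n M) {i j v : ℕ}
    (hi : i < n) (hj : j < n) (h : H v (p i) (p j)) : Valid H p n (upd M i j v) := by
  have hg := fun k (hk : k < 32) l (hl : l < 32) =>
    get_upd (v := v) (hv.sym i (by omega) j (by omega)) (k := k) (l := l) (by omega) (by omega) hk hl
  refine ⟨?_, ?_, ?_⟩
  · intro k hk l hl
    rw [hg k (by omega) l (by omega)]
    split_ifs with hc
    · rcases hc.1 with ⟨rfl, rfl⟩ | ⟨rfl, rfl⟩
      · exact hH.inter (hv.lab _ hk _ hl) h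
      · exact hH.inter (hv.lab _ hk _ hl) (hH.symm h)
    · exact hv.lab k hk l hl
  · intro k hk l hl
    rw [hg k hk l hl, hg l hl k hk, hv.sym k hk l hl]
    have : ((k = i ∧ l = j ∨ k = j ∧ l = i) ∧ i ≠ j) ↔ ((l = i ∧ k = j ∨ l = j ∧ k = i) ∧ i ≠ j) := by
      tauto
    simp only [this]
  · intro k hk l hl hkl
    rw [hg k hk l hl]
    have : ¬ ((k = i ∧ l = j ∨ k = j ∧ l = i) ∧ i ≠ j) := by
      rintro ⟨⟨rfl, rfl⟩ | ⟨rfl, rfl⟩, -⟩ <;> omega
    rw [if_neg this]
    exact hv.fresh k hk l hl hkl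

theorem Valid.extend (hH : MWR H) {p : ℕ → D} {n M : ℕ} (hn : n < 32) (hv : Valid H p n M) (y : D) :
    Valid H (Function.update p n y) (n + 1) M := by
  refine ⟨?_, hv.sym, fun i hi j hj hij => hv.fresh i hi j hj (by omega)⟩
  intro i hi j hj
  by_cases h1 : i = n
  · by_cases h2 : j = n
    · rw [h1, h2, hv.fresh n (by omega) n (by omega) (Or.inl le_rfl)]
      simpa using hH.idl y
    · subst h1
      rw [hv.fresh i (by omega) j (by omega) (Or.inl le_rfl), if_neg (fun h => h2 h.symm)]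
      exact hH.full _ _
  · by_cases h2 : j = n
    · subst h2
      rw [hv.fresh i (by omega) j (by omega) (Or.inr le_rfl), if_neg h1]
      exact hH.full _ _
    · rw [Function.update_of_ne h1, Function.update_of_ne h2]
      exact hv.lab i (by omega) j (by omega)

/-- the check of the initial matrix -/
theorem M0_ok : (List.range 32).all (fun i => (List.range 32).all fun j =>
    Nat.beq (get M0 i j) (if i = j then 256 else 511)) = true := by decide +kernel

theorem get_M0 (i j : ℕ) (hi : i < 32) (hj : j < 32) : get M0 i j = if i = j then 256 else 511 := by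
  have h := M0_ok
  rw [List.all_eq_true] at h
  have h2 := h i (List.mem_range.2 hi)
  rw [List.all_eq_true] at h2
  exact Nat.eq_of_beq_eq_true (h2 j (List.mem_range.2 hj))

theorem valid_M0 (hH : MWR H) (p : ℕ → D) (n : ℕ) (hn : n ≤ 32) : Valid H p n M0 := by
  refine ⟨?_, ?_, ?_⟩
  · intro i hi j hj
    rw [get_M0 i j (by omega) (by omega)]
    split_ifs with h
    · subst h; exact hH.idl _
    · exact hH.full _ _
  · intro i hi j hj
    rw [get_M0 i j hi hj, get_M0 j i hj hi]
    by_cases h : i = j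
    · simp [h]
    · rw [if_neg h, if_neg (fun h2 => h h2.symm)]
  · intro i hi j hj _
    exact get_M0 i j hi hj

theorem ini_valid (hH : MWR H) (p : ℕ → D) (n : ℕ) (hn : n ≤ 32) :
    ∀ (l : List (ℕ × ℕ × ℕ)) (M : ℕ), Valid H p n M →
      (∀ t ∈ l, t.1 < n ∧ t.2.1 < n) → (∀ t ∈ l, H t.2.2 (p t.1) (p t.2.1)) →
      Valid H p n (ini l M) := by
  intro l
  induction l with
  | nil => intro M hv _ _; exact hv
  | cons t l ih =>
    intro M hv h1 h2
    have ht := h1 t (by simp)
    exact ih _ (hv.upd hH hn ht.1 ht.2 (h2 t (by simp))) (fun s hs => h1 s (by simp [hs]))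
      (fun s hs => h2 s (by simp [hs]))

/-- rule `Split` -/
def SplitR {D : Type} (H : ℕ → D → D → Prop) : Prop :=
  ∀ a b c : ℕ, a < 7 → b < 7 → c < 8 → a ≠ b → a ≠ c → b ≠ c → ∀ w p x y : D,
    H (m2 a b) w p → H (m1 a) w x → H (m1 b) x p → H (mx c) w y → H (mx c) p y → H (mx c) x y

/-- rule `C1` -/
def C1R {D : Type} (H : ℕ → D → D → Prop) : Prop :=
  ∀ a b : ℕ, a < 7 → b < 7 → a ≠ b → ∀ w p x x' : D,
    H (m2 a b) w p → H (m1 a) w x → H (m1 b) x p → H (m1 b) w x' → H (m1 a) x' p → H (m2 a b) x x'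

/-- rule `A`, restricted to `d ≠ a` -/
def AR' {D : Type} (H : ℕ → D → D → Prop) : Prop :=
  ∀ a b c d : ℕ, a < 7 → b < 7 → c < 7 → d < 7 → a ≠ b → a ≠ c → b ≠ c → b ≠ d → c ≠ d → a ≠ d →
    ∀ w p x y : D, H (m2 a b) w p → H (m1 a) w x → H (m1 b) x p → H (m1 c) x y → H (m1 d) p y →
      H (m2 a c) w y

/-- rule `A` -/
def AR {D : Type} (H : ℕ → D → D → Prop) : Prop :=
  ∀ a b c d : ℕ, a < 7 → b < 7 → c < 7 → d < 7 → a ≠ b → a ≠ c → b ≠ c → b ≠ d → c ≠ d →
    ∀ w p x y : D, H (m2 a b) w p → H (m1 a) w x → H (m1 b) x p → H (m1 c) x y → H (m1 d) p y →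
      H (m2 a c) w y

/-- rules available at level `lv` -/
structure Rules (lv : ℕ) {D : Type} (H : ℕ → D → D → Prop) : Prop where
  sp : 1 ≤ lv → SplitR H
  c1 : 2 ≤ lv → C1R H
  ra' : 3 ≤ lv → AR' H
  ra : 4 ≤ lv → AR H

theorem blt_iff (a b : ℕ) : (Nat.blt a b = true) ↔ a < b := by
  unfold Nat.blt; rw [Nat.ble_eq]; rfl

theorem bne_iff (a b : ℕ) : ((!Nat.beq a b) = true) ↔ a ≠ b := by
  cases h : Nat.beq a b
  · simp only [Bool.not_false, true_iff]
    exact Nat.ne_of_beq_eq_false h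
  · simp only [Bool.not_true, Bool.false_eq_true, false_iff, not_not]
    exact Nat.eq_of_beq_eq_true h

theorem beq_iff (a b : ℕ) : (Nat.beq a b = true) ↔ a = b :=
  ⟨Nat.eq_of_beq_eq_true, fun h => by rw [h]; exact Nat.beq_refl b⟩

end Pool.Agent.W213.LyG
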